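import Pool.Agent.Run7.h230.QF.GR

set_option autoImplicit false

namespace Pool.Agent.Run7.h230.QF

open Pool.Agent.H97R3.VR (IsMedian IsConvex)
open Pool.Agent.TH97.VR (walls walls_compl wall_convex walls_sep)

section

variable {V : Type} {k : ℕ} {Γ : SimpleGraph V}

theorem dir_count {N : ℕ} (hΓ : IsMedian Γ) (hG : ¬ Grid Γ (k + 1) N) {f : (Fin k → ℤ) → V}
    (hf : IsFlat Γ f) (i' : Fin k) (T : Finset (Set V)) (hT : ∀ B ∈ T, ∃ l, B = HS Γ f i' l)
    (hc : ∀ l : ℤ, 0 ≤ l → l < N → ∀ B ∈ T, Cross (HS Γ f i' l) B) : T.card < N := by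
  classical
  have h := t_GR V Γ hΓ k N hG f hf i' ((Finset.range N).image fun l : ℕ => HS Γ f i' l) T
    (hf.sepLine i' _ (by
      intro B hB
      obtain ⟨l, -, rfl⟩ := Finset.mem_image.1 hB
      exact ⟨l, rfl⟩)) hT (by
      intro A hA B hB
      obtain ⟨l, hl, rfl⟩ := Finset.mem_image.1 hA
      exact hc l (by positivity) (by exact_mod_cast Finset.mem_range.1 hl) B hB) (by
      intro A hA i'' hne l' _ _
      obtain ⟨l, hl, rfl⟩ := Finset.mem_image.1 hA
      exact hf.cross (Ne.symm hne) _ _)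
  rcases h with h | h
  · rw [Finset.card_image_of_injective, Finset.card_range] at h
    · exact absurd h (lt_irrefl _)
    · intro l l' hll
      have := (hf.HS_inj hll).2
      exact_mod_cast this
  · exact h

theorem small_of_finsets {Y : Set ℤ} {N : ℕ} (h : ∀ T : Finset ℤ, (T : Set ℤ) ⊆ Y → T.card < N) :
    Y.Finite ∧ Y.ncard ≤ N := by
  classical
  have hfin : Y.Finite := by
    by_contra hinf
    obtain ⟨T, hT, hc⟩ := Set.Infinite.exists_subset_card_eq hinf N
    have := h T hT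
    omega
  refine ⟨hfin, ?_⟩
  have := h hfin.toFinset (by simp)
  rw [Set.ncard_eq_toFinset_card _ hfin]
  omega

end

theorem t_DIR : S_DIR := by
  classical
  intro V Γ hΓ k N hG f₁ f₂ hf₁ hf₂ hag i
  have h00 : f₁ 0 = f₂ 0 := hag 0 fun i => by simp
  -- common half-spaces
  have hcom : ∀ (i' : Fin k) (l : ℤ), -(N : ℤ) ≤ l → l < N → HS Γ f₁ i' l = HS Γ f₂ i' l := by
    intro i' l h1 h2
    have e1 : f₁ (Pi.single i' l) = f₂ (Pi.single i' l) := by
      refine hag _ fun a => ?_
      by_cases h : a = i'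
      · subst h
        rw [Pi.single_eq_same, abs_le]
        omega
      · rw [Pi.single_eq_of_ne h]
        simp
    have e2 : f₁ (Pi.single i' (l + 1)) = f₂ (Pi.single i' (l + 1)) := by
      refine hag _ fun a => ?_
      by_cases h : a = i'
      · subst h
        rw [Pi.single_eq_same, abs_le]
        omega
      · rw [Pi.single_eq_of_ne h]
        simp
    unfold HS
    rw [e1, e2]
  set X : Set ℤ := {j : ℤ | 0 ≤ j ∧ Cut (HS Γ f₁ i j) f₂ ∧
    ∀ t : ℤ, 0 ≤ t → HS Γ f₁ i j ≠ HS Γ f₂ i t} with hX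
  set P : Fin k → Set ℤ := fun i' => {j | j ∈ X ∧ ∃ l : ℤ, 0 ≤ l ∧ HS Γ f₁ i j = HS Γ f₂ i' l}
    with hP
  set M : Fin k → Set ℤ := fun i' => {j | j ∈ X ∧ ∃ l : ℤ, l < 0 ∧ HS Γ f₁ i j = (HS Γ f₂ i' l)ᶜ}
    with hM
  have hcover : X ⊆ ⋃ i' ∈ (Finset.univ : Finset (Fin k)), (P i' ∪ M i') := by
    intro j hj
    have hj' := hj
    obtain ⟨h1, ⟨⟨z, hz⟩, -⟩, -⟩ := hj'
    have h0 : f₂ 0 ∉ HS Γ f₁ i j := by
      rw [← h00]
      intro h
      have := (hf₁.side i j 0).1 h
      simp at this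
      omega
    obtain ⟨i', l, h⟩ := hf₂.sep hΓ (hf₁.wall i j) h0 hz
    simp only [Set.mem_iUnion]
    refine ⟨i', Finset.mem_univ _, ?_⟩
    rcases h with ⟨h2, h3, -⟩ | ⟨h2, -, h3⟩
    · exact Or.inl ⟨hj, l, h3, h2⟩
    · exact Or.inr ⟨hj, l, h3, h2⟩
  have hinj : Function.Injective fun j : ℤ => HS Γ f₁ i j := fun j j' h => (hf₁.HS_inj h).2
  have hPs : ∀ i', (P i').Finite ∧ (P i').ncard ≤ N := by
    intro i'
    refine small_of_finsets fun T hT => ?_
    by_cases hii : i' = i
    · have : T = ∅ := by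
        rw [Finset.eq_empty_iff_forall_notMem]
        intro j hj
        obtain ⟨⟨-, -, h3⟩, l, h4, h5⟩ := hT (Finset.mem_coe.2 hj)
        rw [hii] at h5
        exact h3 l h4 h5
      rw [this]
      exact dir_count hΓ hG hf₂ i' ∅ (by simp) (by simp)
    · have h := dir_count hΓ hG hf₂ i' (T.image fun j : ℤ => HS Γ f₁ i j) (by
        intro B hB
        obtain ⟨j, hj, rfl⟩ := Finset.mem_image.1 hB
        obtain ⟨-, l, -, h5⟩ := hT (Finset.mem_coe.2 hj)
        exact ⟨l, h5⟩) (by
        intro l hl hl' B hB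
        obtain ⟨j, hj, rfl⟩ := Finset.mem_image.1 hB
        rw [← hcom i' l (by omega) hl']
        exact hf₁.cross hii _ _)
      rwa [Finset.card_image_of_injective _ hinj] at h
  have hinj' : Function.Injective fun j : ℤ => (HS Γ f₁ i j)ᶜ := fun j j' h =>
    hinj (compl_injective h)
  have hMs : ∀ i', (M i').Finite ∧ (M i').ncard ≤ N := by
    intro i'
    refine small_of_finsets fun T hT => ?_
    have h := dir_count hΓ hG hf₂ i' (T.image fun j : ℤ => (HS Γ f₁ i j)ᶜ) (by
      intro B hB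
      obtain ⟨j, hj, rfl⟩ := Finset.mem_image.1 hB
      obtain ⟨-, l, -, h5⟩ := hT (Finset.mem_coe.2 hj)
      exact ⟨l, by rw [h5, compl_compl]⟩) (by
      intro l hl hl' B hB
      obtain ⟨j, hj, rfl⟩ := Finset.mem_image.1 hB
      obtain ⟨⟨hj0, -, hj1⟩, l', h4, h5⟩ := hT (Finset.mem_coe.2 hj)
      by_cases hii : i' = i
      · rw [hii] at h5 ⊢
        -- `l' < -N`, `N ≤ j`
        have hl'N : l' < -(N : ℤ) := by
          by_contra hcon
          rw [← hcom i l' (by omega) (by omega)] at h5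
          exact hf₁.HS_ne_compl _ _ _ _ h5
        have hjN : (N : ℤ) ≤ j := by
          by_contra hcon
          exact hj1 j hj0 (hcom i j (by omega) (by omega))
        have hA : HS Γ f₁ i l = HS Γ f₂ i l := hcom i l (by omega) hl'
        refine Cross.compl_right ?_
        refine ⟨⟨f₁ (Pi.single i (j + 1)), ?_, ?_⟩, ⟨f₁ (Pi.single i (l + 1)), ?_, ?_⟩,
          ⟨f₂ (Pi.single i l'), ?_, ?_⟩, ⟨f₁ 0, ?_, ?_⟩⟩
        · rw [← hA, hf₁.side, Pi.single_eq_same]
          omega
        · rw [hf₁.side, Pi.single_eq_same]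
          omega
        · rw [← hA, hf₁.side, Pi.single_eq_same]
          omega
        · rw [Set.mem_compl_iff, hf₁.side, Pi.single_eq_same]
          omega
        · rw [Set.mem_compl_iff, hf₂.side, Pi.single_eq_same]
          omega
        · rw [h5, Set.mem_compl_iff, hf₂.side, Pi.single_eq_same]
          omega
        · rw [← hA, Set.mem_compl_iff, hf₁.side]
          simp only [Pi.zero_apply]
          omega
        · rw [Set.mem_compl_iff, hf₁.side]
          simp only [Pi.zero_apply]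
          omega
      · rw [← hcom i' l (by omega) hl']
        exact Cross.compl_right (hf₁.cross hii _ _))
    rwa [Finset.card_image_of_injective _ hinj'] at h
  have hUfin : (⋃ i' ∈ (Finset.univ : Finset (Fin k)), (P i' ∪ M i')).Finite :=
    Set.Finite.biUnion (Finset.finite_toSet _) fun i' _ => (hPs i').1.union (hMs i').1
  refine ⟨hUfin.subset hcover, ?_⟩
  calc X.ncard ≤ (⋃ i' ∈ (Finset.univ : Finset (Fin k)), (P i' ∪ M i')).ncard :=
        Set.ncard_le_ncard hcover hUfin
    _ ≤ ∑ i' ∈ (Finset.univ : Finset (Fin k)), (P i' ∪ M i').ncard := Finset.set_ncard_biUnion_le _ _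
    _ ≤ ∑ i' ∈ (Finset.univ : Finset (Fin k)), (N + N) := by
        refine Finset.sum_le_sum fun i' _ => ?_
        exact (Set.ncard_union_le _ _).trans (Nat.add_le_add (hPs i').2 (hMs i').2)
    _ = 2 * k * N := by
        rw [Finset.sum_const, Finset.card_univ, Fintype.card_fin, smul_eq_mul]
        ring

end Pool.Agent.Run7.h230.QF
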