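import Pool.Agent.Run7.h230.QF.Stm

set_option autoImplicit false

namespace Pool.Agent.Run7.h230.QF

open Pool.Agent.H97R3.VR (IsMedian IsConvex)
open Pool.Agent.TH97.VR (walls walls_compl wall_convex walls_sep)

theorem t_DIV : S_DIV := by
  classical
  intro V Γ hΓ k f₁ f₂ hf₁ hf₂ h0 hBd
  -- a common bound
  have hb1 : ∀ i, ∃ s : ℤ, ∀ j, s ≤ j → ¬ Cut (HS Γ f₁ i j) f₂ := fun i => hBd i true
  have hb2 : ∀ i, ∃ s : ℤ, ∀ j, s ≤ j → ¬ Cut (HS Γ (ng f₁) i j) (ng f₂) := fun i => hBd i false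
  choose s₁ hs₁ using hb1
  choose s₂ hs₂ using hb2
  set s : ℤ := ∑ i, (|s₁ i| + |s₂ i|) with hs
  have hs0 : 0 ≤ s := Finset.sum_nonneg fun i _ => by positivity
  have hsi : ∀ i, |s₁ i| + |s₂ i| ≤ s := fun i =>
    Finset.single_le_sum (f := fun i => |s₁ i| + |s₂ i|) (fun i _ => by positivity)
      (Finset.mem_univ i)
  have hs1 : ∀ i j, s ≤ j → ∀ w, f₂ w ∉ HS Γ f₁ i j := by
    intro i j hj w hw
    have h1 := hsi i
    have h2 := le_abs_self (s₁ i)
    have h3 := abs_nonneg (s₂ i)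
    refine hs₁ i j (by omega) ⟨⟨w, hw⟩, 0, ?_⟩
    rw [← h0]
    intro h4
    have := (hf₁.side i j 0).1 h4
    simp at this
    omega
  have hs2 : ∀ i j, s ≤ j → ∀ w, f₂ w ∉ HS Γ (ng f₁) i j := by
    intro i j hj w hw
    have h1 := hsi i
    have h2 := le_abs_self (s₂ i)
    have h3 := abs_nonneg (s₁ i)
    refine hs₂ i j (by omega) ⟨⟨-w, ?_⟩, 0, ?_⟩
    · show f₂ (- -w) ∈ _
      rw [neg_neg]
      exact hw
    · show f₂ (-0) ∉ _
      rw [neg_zero, ← h0]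
      intro h4
      have h5 : ng f₁ 0 ∈ HS Γ (ng f₁) i j := by
        show f₁ (-0) ∈ _
        rw [neg_zero]
        exact h4
      have := (hf₁.ng.side i j 0).1 h5
      simp at this
      omega
  refine ⟨k * s, fun z w => ?_⟩
  -- the half-spaces which separate
  set T : Finset ((_ : Fin k) × ℤ) := Finset.univ.sigma fun i => Finset.Ico s |z i| with hT
  set φ : ((_ : Fin k) × ℤ) → Set V := fun q =>
    if 0 ≤ z q.1 then HS Γ f₁ q.1 q.2 else HS Γ (ng f₁) q.1 q.2 with hφ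
  have hinj : Set.InjOn φ (T : Set ((_ : Fin k) × ℤ)) := by
    rintro ⟨i, j⟩ hq ⟨i', j'⟩ hq' he
    simp only [hφ] at he
    by_cases h1 : 0 ≤ z i
    · by_cases h2 : 0 ≤ z i'
      · rw [if_pos h1, if_pos h2] at he
        obtain ⟨rfl, rfl⟩ := hf₁.HS_inj he
        rfl
      · rw [if_pos h1, if_neg h2, hf₁.HS_ng hΓ] at he
        exact absurd he (hf₁.HS_ne_compl _ _ _ _)
    · by_cases h2 : 0 ≤ z i'
      · rw [if_neg h1, if_pos h2, hf₁.HS_ng hΓ] at he
        exact absurd he.symm (hf₁.HS_ne_compl _ _ _ _)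
      · rw [if_neg h1, if_neg h2] at he
        obtain ⟨rfl, rfl⟩ := hf₁.ng.HS_inj he
        rfl
  have hmem : ∀ q ∈ T, φ q ∈ (walls_sep hΓ (f₁ z) (f₂ w)).1.toFinset := by
    rintro ⟨i, j⟩ hq
    have hq' := Finset.mem_sigma.1 hq
    have hj := Finset.mem_Ico.1 hq'.2
    simp only at hj
    rw [Set.Finite.mem_toFinset]
    simp only [hφ]
    by_cases h1 : 0 ≤ z i
    · rw [if_pos h1]
      rw [abs_of_nonneg h1] at hj
      exact ⟨hf₁.wall i j, (hf₁.side i j z).2 hj.2, hs1 i j hj.1 w⟩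
    · rw [if_neg h1]
      rw [abs_of_neg (by omega)] at hj
      refine ⟨hf₁.ng.wall i j, ?_, hs2 i j hj.1 w⟩
      have h2 := (hf₁.ng.side i j (-z)).2 (by simpa using hj.2)
      have h3 : ng f₁ (-z) = f₁ z := by
        show f₁ (- -z) = _
        rw [neg_neg]
      rw [h3] at h2
      exact h2
  have hcard : T.card ≤ Γ.dist (f₁ z) (f₂ w) := by
    rw [← (walls_sep hΓ (f₁ z) (f₂ w)).2, Set.ncard_eq_toFinset_card _ (walls_sep hΓ (f₁ z) (f₂ w)).1]
    exact Finset.card_le_card_of_injOn φ hmem hinj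
  have hcard2 : (T.card : ℤ) ≥ ∑ i, (|z i| - s) := by
    rw [hT, Finset.card_sigma]
    push_cast
    refine Finset.sum_le_sum fun i _ => ?_
    rw [Int.card_Ico]
    exact Int.self_le_toNat _
  rw [Finset.sum_sub_distrib, Finset.sum_const, Finset.card_univ, Fintype.card_fin,
    nsmul_eq_mul] at hcard2
  have : (T.card : ℤ) ≤ Γ.dist (f₁ z) (f₂ w) := by exact_mod_cast hcard
  linarith

end Pool.Agent.Run7.h230.QF
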