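import Pool.Agent.Run7.h230.QF.Stm

set_option autoImplicit false

namespace Pool.Agent.Run7.h230.QF

open Pool.Agent.H97R3.VR (IsMedian IsConvex Btw)
open Pool.Agent.TH97.VR (walls walls_compl wall_convex)

theorem t_GATE : S_GATE := by
  classical
  intro V Γ hΓ C hC hne x
  obtain ⟨c₀, hc₀⟩ := hne
  have hex : ∃ n, ∃ p ∈ C, Γ.dist x p = n := ⟨_, c₀, hc₀, rfl⟩
  obtain ⟨p, hp, hpn⟩ := Nat.find_spec hex
  have hmin : ∀ q ∈ C, Γ.dist x p ≤ Γ.dist x q := by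
    intro q hq
    rw [hpn]
    exact Nat.find_min' hex ⟨q, hq, rfl⟩
  refine ⟨p, hp, ?_⟩
  intro A hA hxA hpA c hc
  by_contra hcA
  obtain ⟨m, ⟨h1, h2, h3⟩, -⟩ := hΓ.med x p c
  have hmC : m ∈ C := hC p hp c hc m h2
  have h4 := hmin m hmC
  unfold Pool.Agent.H97R3.VR.Btw at h1
  have h5 : Γ.dist m p = 0 := by omega
  have h6 : m = p := hΓ.conn.dist_eq_zero_iff.1 h5
  rw [h6] at h3
  have h7 := wall_convex hΓ (walls_compl hΓ hA) x hxA c hcA p h3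
  exact h7 hpA

end Pool.Agent.Run7.h230.QF
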