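import Pool.Agent.Run7.h230.QF.Stm

set_option autoImplicit false

namespace Pool.Agent.Run7.h230.QF

open Pool.Agent.H97R3.VR (IsMedian IsConvex)
open Pool.Agent.TH97.VR (walls walls_compl wall_convex walls_sep)

section

variable {V : Type} {Γ : SimpleGraph V}

/-- the distance counts half-spaces of a finite set which contains all the separating ones -/
theorem dist_filter (hΓ : IsMedian Γ) {F : Finset (Set V)} (hF : ∀ A ∈ F, A ∈ walls Γ)
    {u v : V} (h : ∀ A ∈ walls Γ, u ∈ A → v ∉ A → A ∈ F) [DecidablePred fun A : Set V => u ∈ A ∧ v ∉ A] :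
    (F.filter fun A => u ∈ A ∧ v ∉ A).card = Γ.dist u v := by
  classical
  rw [← (walls_sep hΓ u v).2, ← Set.ncard_coe_finset]
  congr 1
  ext A
  constructor
  · intro hA
    have hA' := Finset.mem_filter.1 (Finset.mem_coe.1 hA)
    exact ⟨hF A hA'.1, hA'.2.1, hA'.2.2⟩
  · rintro ⟨h1, h2, h3⟩
    exact Finset.mem_coe.2 (Finset.mem_filter.2 ⟨h A h1 h2 h3, h2, h3⟩)

theorem hyp_key (hΓ : IsMedian Γ) (x y z w : V) : ∃ 𝒜 : Finset (Set V),
    (∀ A ∈ 𝒜, A ∈ walls Γ ∧ x ∈ A ∧ y ∈ A ∧ z ∉ A ∧ w ∉ A) ∧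
    Γ.dist x z + Γ.dist y w ≤ Γ.dist x y + Γ.dist z w + 2 * 𝒜.card := by
  classical
  -- all half-spaces which contain one of the points and not all of them
  set P : Finset V := {x, y, z, w} with hP
  set F : Finset (Set V) := P.biUnion fun u => P.biUnion fun v => (walls_sep hΓ u v).1.toFinset
    with hFdef
  have hF : ∀ A ∈ F, A ∈ walls Γ := by
    intro A hA
    obtain ⟨u, -, hA⟩ := Finset.mem_biUnion.1 hA
    obtain ⟨v, -, hA⟩ := Finset.mem_biUnion.1 hA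
    exact ((Set.Finite.mem_toFinset _).1 hA).1
  have hF' : ∀ u ∈ P, ∀ v ∈ P, ∀ A ∈ walls Γ, u ∈ A → v ∉ A → A ∈ F := by
    intro u hu v hv A hA h1 h2
    exact Finset.mem_biUnion.2 ⟨u, hu, Finset.mem_biUnion.2 ⟨v, hv,
      (Set.Finite.mem_toFinset _).2 ⟨hA, h1, h2⟩⟩⟩
  have hx : x ∈ P := by simp [hP]
  have hy : y ∈ P := by simp [hP]
  have hz : z ∈ P := by simp [hP]
  have hw : w ∈ P := by simp [hP]
  have hc : ∀ A ∈ F, Aᶜ ∈ F := by
    intro A hA
    obtain ⟨u, hu, hA⟩ := Finset.mem_biUnion.1 hA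
    obtain ⟨v, hv, hA⟩ := Finset.mem_biUnion.1 hA
    obtain ⟨h1, h2, h3⟩ := (Set.Finite.mem_toFinset _).1 hA
    exact hF' v hv u hu _ (walls_compl hΓ h1) h3 (fun h => h h2)
  refine ⟨F.filter fun A => x ∈ A ∧ y ∈ A ∧ z ∉ A ∧ w ∉ A, ?_, ?_⟩
  · intro A hA
    have hA' := Finset.mem_filter.1 hA
    exact ⟨hF A hA'.1, hA'.2⟩
  · -- twice the distances
    have e2 : ∀ u ∈ P, ∀ v ∈ P, (2 : ℕ) * Γ.dist u v =
        ∑ A ∈ F, if (u ∈ A ∧ v ∉ A) ∨ (u ∉ A ∧ v ∈ A) then 1 else 0 := by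
      intro u hu v hv
      rw [← Finset.card_filter]
      have h1 := dist_filter hΓ hF (hF' u hu v hv)
      have h2 := dist_filter hΓ hF (hF' v hv u hu)
      rw [Finset.filter_or, Finset.card_union_of_disjoint, h1]
      · have h3 : (F.filter fun A => u ∉ A ∧ v ∈ A) = F.filter fun A => v ∈ A ∧ u ∉ A := by
          refine Finset.filter_congr fun A _ => ?_
          tauto
        rw [h3, h2, SimpleGraph.dist_comm, SimpleGraph.dist_comm (u := v)]
        omega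
      · rw [Finset.disjoint_filter]
        intro A _ h3 h4
        exact h4.1 h3.1
    have e3 : 2 * (F.filter fun A => x ∈ A ∧ y ∈ A ∧ z ∉ A ∧ w ∉ A).card =
        ∑ A ∈ F, if (x ∈ A ∧ y ∈ A ∧ z ∉ A ∧ w ∉ A) ∨ (x ∉ A ∧ y ∉ A ∧ z ∈ A ∧ w ∈ A)
          then 1 else 0 := by
      rw [← Finset.card_filter, Finset.filter_or, Finset.card_union_of_disjoint, two_mul]
      · congr 1
        refine Finset.card_bij (fun A _ => Aᶜ) ?_ ?_ ?_
        · intro A hA
          have hA' := Finset.mem_filter.1 hA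
          refine Finset.mem_filter.2 ⟨hc A hA'.1, ?_⟩
          obtain ⟨-, h1, h2, h3, h4⟩ := hA'
          exact ⟨fun h => h h1, fun h => h h2, h3, h4⟩
        · intro A _ B _ h
          exact compl_injective h
        · intro A hA
          have hA' := Finset.mem_filter.1 hA
          obtain ⟨h0, h1, h2, h3, h4⟩ := hA'
          exact ⟨Aᶜ, Finset.mem_filter.2 ⟨hc A h0, h1, h2, fun h => h h3, fun h => h h4⟩,
            compl_compl A⟩
      · rw [Finset.disjoint_filter]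
        intro A _ h3 h4
        exact h4.1 h3.1
    have key : 2 * Γ.dist x z + 2 * Γ.dist y w ≤ 2 * Γ.dist x y + 2 * Γ.dist z w +
        2 * (2 * (F.filter fun A => x ∈ A ∧ y ∈ A ∧ z ∉ A ∧ w ∉ A).card) := by
      rw [e2 x hx z hz, e2 y hy w hw, e2 x hx y hy, e2 z hz w hw, e3, two_mul,
        ← Finset.sum_add_distrib, ← Finset.sum_add_distrib, ← Finset.sum_add_distrib,
        ← Finset.sum_add_distrib]
      refine Finset.sum_le_sum fun A _ => ?_
      by_cases h1 : x ∈ A <;> by_cases h2 : y ∈ A <;> by_cases h3 : z ∈ A <;>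
        by_cases h4 : w ∈ A <;> simp [h1, h2, h3, h4]
    omega

end

theorem t_HYP : S_HYP := by
  classical
  intro V Γ hΓ hnH N
  unfold Hyp at hnH
  push Not at hnH
  obtain ⟨x, y, z, w, h⟩ := hnH (2 * N)
  obtain ⟨𝒜, hA, hA'⟩ := hyp_key hΓ x y z w
  obtain ⟨ℬ, hB, hB'⟩ := hyp_key hΓ x w z y
  have h1 : Γ.dist y w = Γ.dist w y := SimpleGraph.dist_comm
  have h2 : Γ.dist y z = Γ.dist z y := SimpleGraph.dist_comm
  have h3 := le_max_left (Γ.dist x y + Γ.dist z w) (Γ.dist x w + Γ.dist y z)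
  have h4 := le_max_right (Γ.dist x y + Γ.dist z w) (Γ.dist x w + Γ.dist y z)
  have hAN : N ≤ 𝒜.card := by omega
  have hBN : N ≤ ℬ.card := by omega
  have hcr : ∀ A ∈ 𝒜, ∀ B ∈ ℬ, Cross A B := by
    intro A hA1 B hB1
    obtain ⟨-, a1, a2, a3, a4⟩ := hA A hA1
    obtain ⟨-, b1, b2, b3, b4⟩ := hB B hB1
    exact ⟨⟨x, a1, b1⟩, ⟨y, a2, b4⟩, ⟨w, a4, b2⟩, ⟨z, a3, b3⟩⟩
  refine ⟨![𝒜, ℬ], ?_, ?_, ?_⟩
  · intro a
    fin_cases a
    · exact hAN
    · exact hBN
  · intro a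
    fin_cases a
    · exact ⟨z, x, fun A hA1 => ⟨(hA A hA1).1, (hA A hA1).2.2.2.1, (hA A hA1).2.1⟩⟩
    · exact ⟨z, x, fun A hA1 => ⟨(hB A hA1).1, (hB A hA1).2.2.2.1, (hB A hA1).2.1⟩⟩
  · intro a b hab A hA1 B hB1
    fin_cases a <;> fin_cases b
    · exact absurd rfl hab
    · exact hcr A hA1 B hB1
    · obtain ⟨h1, h2, h3, h4⟩ := hcr B hB1 A hA1
      exact ⟨by rwa [Set.inter_comm], by rwa [Set.inter_comm], by rwa [Set.inter_comm],
        by rwa [Set.inter_comm]⟩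
    · exact absurd rfl hab

end Pool.Agent.Run7.h230.QF
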