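import Pool.Agent.Run7.h230.QF.Stm

set_option autoImplicit false

namespace Pool.Agent.Run7.h230.QF

open Pool.Agent.H97R3.VR (IsMedian IsConvex Btw)
open Pool.Agent.TH97.VR (walls)
open Pointwise

theorem Cm.symm {S : Type} {X Y : Set S} (h : Cm X Y) : Cm Y X := ⟨h.2, h.1⟩

theorem ind_symm {S : Type} (X Y : Set S) : ind Y X = - ind X Y := by
  unfold ind
  ring

theorem Cm.refl {S : Type} (X : Set S) : Cm X X := by
  constructor <;> rw [Set.diff_self] <;> exact Set.finite_empty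

theorem ind_self {S : Type} (X : Set S) : ind X X = 0 := by
  unfold ind
  ring

theorem Cm.trans {S : Type} {X Y Z : Set S} (h1 : Cm X Y) (h2 : Cm Y Z) : Cm X Z := by
  constructor
  · refine (h1.1.union h2.1).subset ?_
    rintro s ⟨hx, hz⟩
    by_cases hy : s ∈ Y
    · exact Or.inr ⟨hy, hz⟩
    · exact Or.inl ⟨hx, hy⟩
  · refine (h1.2.union h2.2).subset ?_
    rintro s ⟨hz, hx⟩
    by_cases hy : s ∈ Y
    · exact Or.inl ⟨hy, hx⟩
    · exact Or.inr ⟨hz, hy⟩

theorem t_IDX : S_IDX := by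
  classical
  intro S X Y Z h1 h2
  refine ⟨h1.trans h2, ?_⟩
  -- count in the finite set of all elements where the three sets differ
  have hf : ((X \ Y) ∪ (Y \ X) ∪ ((Y \ Z) ∪ (Z \ Y))).Finite :=
    (h1.1.union h1.2).union (h2.1.union h2.2)
  set F : Finset S := hf.toFinset with hF
  have hmem : ∀ s, s ∈ F ↔ s ∈ (X \ Y) ∪ (Y \ X) ∪ ((Y \ Z) ∪ (Z \ Y)) := fun s => by
    rw [hF, Set.Finite.mem_toFinset]
  have key : ∀ A B : Set S, (A \ B ⊆ (F : Set S)) → (B \ A ⊆ (F : Set S)) →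
      ind A B = ∑ s ∈ F, ((if s ∈ A then (1 : ℤ) else 0) - (if s ∈ B then 1 else 0)) := by
    intro A B hAB hBA
    have e : ∀ C D : Set S, C \ D ⊆ (F : Set S) →
        ((C \ D).ncard : ℤ) = ∑ s ∈ F, (if s ∈ C \ D then (1 : ℤ) else 0) := by
      intro C D hCD
      rw [Finset.sum_boole]
      have : C \ D = ((F.filter (fun s => s ∈ C \ D) : Finset S) : Set S) := by
        ext s
        rw [Finset.mem_coe, Finset.mem_filter]
        exact ⟨fun h => ⟨hCD h, h⟩, fun h => h.2⟩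
      conv_lhs => rw [this]
      rw [Set.ncard_coe_finset]
    unfold ind
    rw [e A B hAB, e B A hBA, ← Finset.sum_sub_distrib]
    refine Finset.sum_congr rfl fun s _ => ?_
    by_cases ha : s ∈ A <;> by_cases hb : s ∈ B <;> simp [ha, hb]
  rw [key X Z, key X Y, key Y Z, ← Finset.sum_add_distrib]
  · refine Finset.sum_congr rfl fun s _ => ?_
    ring
  · intro s hs
    exact (hmem s).2 (Or.inr (Or.inl hs))
  · intro s hs
    exact (hmem s).2 (Or.inr (Or.inr hs))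
  · intro s hs
    exact (hmem s).2 (Or.inl (Or.inl hs))
  · intro s hs
    exact (hmem s).2 (Or.inl (Or.inr hs))
  · rintro s ⟨hx, hz⟩
    refine (hmem s).2 ?_
    by_cases hy : s ∈ Y
    · exact Or.inr (Or.inl ⟨hy, hz⟩)
    · exact Or.inl (Or.inl ⟨hx, hy⟩)
  · rintro s ⟨hz, hx⟩
    refine (hmem s).2 ?_
    by_cases hy : s ∈ Y
    · exact Or.inl (Or.inr ⟨hy, hx⟩)
    · exact Or.inr (Or.inr ⟨hz, hy⟩)

theorem Cm.smul {G S : Type} [Group G] [MulAction G S] {X Y : Set S} (h : Cm X Y) (g : G) :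
    Cm (g • X) (g • Y) := by
  constructor
  · rw [← Set.smul_set_sdiff]
    exact h.1.smul_set
  · rw [← Set.smul_set_sdiff]
    exact h.2.smul_set

theorem ncard_smul' {G S : Type} [Group G] [MulAction G S] (X : Set S) (g : G) :
    (g • X).ncard = X.ncard :=
  Set.ncard_image_of_injective _ (MulAction.injective g)

theorem ind_smul {G S : Type} [Group G] [MulAction G S] (X Y : Set S) (g : G) :
    ind (g • X) (g • Y) = ind X Y := by
  unfold ind
  rw [← Set.smul_set_sdiff, ← Set.smul_set_sdiff, ncard_smul', ncard_smul']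

theorem t_FXG (hIDX : S_IDX) : S_FXG := by
  intro V G _ _ Γ N k f i g h hg hh
  obtain ⟨g1, g2⟩ := hg
  obtain ⟨h1, h2⟩ := hh
  have e1 := hIDX (Set V) (WP Γ f i) (g • WP Γ f i) (g • h • WP Γ f i) g1 (h1.smul g)
  have e2 : Cm (WP Γ f i) (g⁻¹ • WP Γ f i) := by
    have := (g1.smul g⁻¹).symm
    rwa [inv_smul_smul] at this
  refine ⟨⟨?_, ?_⟩, ?_, ⟨e2, ?_⟩, ?_⟩
  · rw [mul_smul]
    exact e1.1
  · intro i' hi' l hl0 hl
    rw [mul_smul, h2 i' hi' l hl0 hl, g2 i' hi' l hl0 hl]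
  · unfold tau
    rw [mul_smul, e1.2, ind_smul]
  · intro i' hi' l hl0 hl
    rw [inv_smul_eq_iff, g2 i' hi' l hl0 hl]
  · unfold tau
    rw [← ind_symm, ← ind_smul (WP Γ f i) (g⁻¹ • WP Γ f i) g, smul_inv_smul]

end Pool.Agent.Run7.h230.QF
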