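import Pool.Agent.Run7.h230.QF.Stm

set_option autoImplicit false

namespace Pool.Agent.Run7.h230.QF

open Pool.Agent.H97R3.VR (IsMedian IsConvex Btw)
open Pool.Agent.TH97.VR (walls)
open Pointwise

theorem ng_ng {V : Type} {k : ℕ} (f : (Fin k → ℤ) → V) : ng (ng f) = f := by
  funext z
  show f (- -z) = f z
  rw [neg_neg]

theorem Agree.ng {V : Type} {k : ℕ} {f h : (Fin k → ℤ) → V} {R : ℕ} (hA : Agree f h R) :
    Agree (ng f) (ng h) R := by
  intro z hz
  exact hA (-z) (fun i => by rw [Pi.neg_apply, abs_neg]; exact hz i)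

theorem Agree.symm {V : Type} {k : ℕ} {f h : (Fin k → ℤ) → V} {R : ℕ} (hA : Agree f h R) :
    Agree h f R := fun z hz => (hA z hz).symm

theorem Agree.trans {V : Type} {k : ℕ} {f h q : (Fin k → ℤ) → V} {R : ℕ} (hA : Agree f h R)
    (hB : Agree h q R) : Agree f q R := fun z hz => (hA z hz).trans (hB z hz)

theorem Agree.mono {V : Type} {k : ℕ} {f h : (Fin k → ℤ) → V} {R R' : ℕ} (hA : Agree f h R)
    (hR : R' ≤ R) : Agree f h R' := fun z hz => hA z (fun i => (hz i).trans (by exact_mod_cast hR))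

theorem t_NEG : S_NEG := by
  intro V G _ _ Γ k L hL
  refine ⟨?_, ?_, ?_, ?_⟩
  · rintro f ⟨h, hh, rfl⟩
    exact (hL.flat h hh).ng
  · intro f hf
    refine ⟨ng f, hL.closed _ fun R => ?_, ng_ng f⟩
    obtain ⟨h, ⟨h', hh', rfl⟩, hA⟩ := hf R
    refine ⟨h', hh', ?_⟩
    have := hA.ng
    rwa [ng_ng] at this
  · rintro f ⟨h, hh, rfl⟩ g
    exact ⟨_, hL.smul h hh g, rfl⟩
  · rintro f ⟨h, hh, rfl⟩ b
    refine ⟨_, hL.shift h hh (-b), ?_⟩
    funext z
    show h (-z + -b) = h (-(z + b))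
    congr 1
    exact (neg_add z b).symm

end Pool.Agent.Run7.h230.QF
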