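import Pool.Agent.Run7.h230.QF.COF
import Pool.Agent.Run7.h230.QF.NEG

set_option autoImplicit false

namespace Pool.Agent.Run7.h230.QF

open Pool.Agent.H97R3.VR (IsMedian IsConvex Btw)
open Pool.Agent.TH97.VR (walls)
open Pointwise

theorem Agree.zero {V : Type} {k : ℕ} {f h : (Fin k → ℤ) → V} {R : ℕ} (hA : Agree f h R) :
    f 0 = h 0 := hA 0 (fun i => by
  rw [Pi.zero_apply, abs_zero]
  exact Int.natCast_nonneg _)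

/-- unboundedness in terms of infinite sets -/
theorem not_Bdd_iff {V : Type} {k : ℕ} {Γ : SimpleGraph V} {i : Fin k}
    {f₁ f₂ : (Fin k → ℤ) → V} :
    ¬ Bdd Γ i f₁ f₂ ↔ {j : ℤ | 0 ≤ j ∧ Cut (HS Γ f₁ i j) f₂}.Infinite := by
  constructor
  · intro h
    refine Set.infinite_of_not_bddAbove ?_
    rintro ⟨s, hs⟩
    refine h ⟨max 0 (s + 1), fun j hj hc => ?_⟩
    have h1 : j ≤ s := hs ⟨(le_max_left _ _).trans hj, hc⟩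
    have := le_max_right 0 (s + 1)
    omega
  · rintro h ⟨s, hs⟩
    refine h ((Set.finite_Icc 0 s).subset fun j hj => ⟨hj.1, ?_⟩)
    by_contra hcon
    exact hs j (by omega) hj.2

theorem IsFlat.cut_self {V : Type} {k : ℕ} {Γ : SimpleGraph V} {f : (Fin k → ℤ) → V}
    (hf : IsFlat Γ f) (i : Fin k) (j : ℤ) : Cut (HS Γ f i j) f :=
  ⟨⟨Pi.single i (j + 1), (hf.side _ _ _).2 (by simp)⟩, Pi.single i j, fun h => by
    have := (hf.side _ _ _).1 h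
    simp at this⟩

/-- the common half-spaces of two flats -/
theorem common_infinite (hDIR : S_DIR) {V : Type} {Γ : SimpleGraph V} (hΓ : IsMedian Γ) {k N : ℕ}
    (hG : ¬ Grid Γ (k + 1) N) {f₁ f₂ : (Fin k → ℤ) → V} (hf₁ : IsFlat Γ f₁) (hf₂ : IsFlat Γ f₂)
    (hA : Agree f₁ f₂ N) (i : Fin k) {T : Set ℤ} (hT : T.Infinite)
    (hT' : T ⊆ {j : ℤ | 0 ≤ j ∧ Cut (HS Γ f₁ i j) f₂}) :
    {t : ℤ | 0 ≤ t ∧ ∃ j ∈ T, HS Γ f₁ i j = HS Γ f₂ i t}.Infinite := by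
  classical
  obtain ⟨b1, -⟩ := hDIR V Γ hΓ k N hG f₁ f₂ hf₁ hf₂ hA i
  intro hfin
  have h1 : (T \ {j : ℤ | 0 ≤ j ∧ Cut (HS Γ f₁ i j) f₂ ∧
      ∀ t : ℤ, 0 ≤ t → HS Γ f₁ i j ≠ HS Γ f₂ i t}).Infinite := hT.sdiff b1
  have h2 : ∀ j ∈ T \ {j : ℤ | 0 ≤ j ∧ Cut (HS Γ f₁ i j) f₂ ∧
      ∀ t : ℤ, 0 ≤ t → HS Γ f₁ i j ≠ HS Γ f₂ i t}, ∃ t : ℤ, 0 ≤ t ∧ HS Γ f₁ i j = HS Γ f₂ i t := by
    rintro j ⟨hj, hj'⟩
    by_contra hcon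
    push Not at hcon
    exact hj' ⟨(hT' hj).1, (hT' hj).2, hcon⟩
  choose! τ hτ using h2
  have h3 : Set.InjOn τ (T \ {j : ℤ | 0 ≤ j ∧ Cut (HS Γ f₁ i j) f₂ ∧
      ∀ t : ℤ, 0 ≤ t → HS Γ f₁ i j ≠ HS Γ f₂ i t}) := by
    intro a ha b hb hab
    have e1 := (hτ a ha).2
    have e2 := (hτ b hb).2
    rw [hab, ← e2] at e1
    exact (hf₁.HS_inj e1).2
  refine (h1.image h3) (hfin.subset ?_)
  rintro t ⟨j, hj, rfl⟩
  exact ⟨(hτ j hj).1, j, hj.1, (hτ j hj).2⟩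

theorem t_SYM (hDIR : S_DIR) : S_SYM := by
  intro V Γ hΓ k N hG f₁ f₂ hf₁ hf₂ hA i hB
  rw [not_Bdd_iff] at hB ⊢
  refine (common_infinite hDIR hΓ hG hf₁ hf₂ hA i hB le_rfl).mono ?_
  rintro t ⟨ht, j, -, he⟩
  refine ⟨ht, ?_⟩
  rw [← he]
  exact hf₁.cut_self i j

theorem t_TRA (hSYM : S_SYM) (hCOF : S_COF) (hDIR : S_DIR) : S_TRA := by
  intro V Γ hΓ k N hG f₁ f₂ f₃ hf₁ hf₂ hf₃ hA₁ hA₂ i hB₁ hB₂
  have h1 := hSYM V Γ hΓ k N hG f₁ f₃ hf₁ hf₃ hA₁ i hB₁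
  have h2 := hSYM V Γ hΓ k N hG f₂ f₃ hf₂ hf₃ hA₂ i hB₂
  obtain ⟨c1, -⟩ := hCOF V Γ hΓ k N hG f₃ f₁ hf₃ hf₁ hA₁.zero.symm i h1
  obtain ⟨c2, -⟩ := hCOF V Γ hΓ k N hG f₃ f₂ hf₃ hf₂ hA₂.zero.symm i h2
  rw [not_Bdd_iff] at h1 ⊢
  have hT := h1.sdiff c2
  have := common_infinite hDIR hΓ hG hf₃ hf₁ hA₁.symm i hT (fun j hj => hj.1)
  refine this.mono ?_
  rintro t ⟨ht, j, ⟨hj1, hj2⟩, he⟩
  refine ⟨ht, ?_⟩
  rw [← he]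
  by_contra hcon
  exact hj2 ⟨hj1.1, hcon⟩

/-- flats which agree on a cube have the same half-spaces there -/
theorem Agree.HS {V : Type} {k : ℕ} {Γ : SimpleGraph V} (hΓ : IsMedian Γ)
    {f h : (Fin k → ℤ) → V} (hf : IsFlat Γ f) (hh : IsFlat Γ h) {R : ℕ} (hA : Agree f h R)
    (i : Fin k) {j : ℤ} (h1 : -(R : ℤ) ≤ j) (h2 : j < R) : QF.HS Γ f i j = QF.HS Γ h i j := by
  have hz : ∀ t : ℤ, |t| ≤ (R : ℤ) → ∀ b, |(Pi.single i t : Fin k → ℤ) b| ≤ (R : ℤ) := by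
    intro t ht b
    by_cases hb : b = i
    · subst hb; simpa using ht
    · rw [Pi.single_eq_of_ne hb]; simp
  have := IsFlat.HS_congr hΓ hf hh (z := Pi.single i j) (w := Pi.single i j) (i := i)
    (hA _ (hz j (abs_le.2 ⟨h1, h2.le⟩)))
    (by rw [← single_succ]; exact hA _ (hz (j + 1) (abs_le.2 ⟨by omega, by omega⟩)))
  simpa using this

theorem t_OPEN (hCOF : S_COF) : S_OPEN := by
  intro V Γ hΓ k N hG h₁ h₂ hh₁ hh₂ h0 i ⟨s, hs⟩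
  refine ⟨(max s 0).toNat + N + 1, fun f hf hA => ?_⟩
  by_contra hB
  have hf0 : f 0 = h₂ 0 := hA.zero.trans h0
  obtain ⟨c1, c2⟩ := hCOF V Γ hΓ k N hG f h₂ hf hh₂ hf0 i hB
  set m : ℤ := max s 0 with hm
  have hm0 : 0 ≤ m := le_max_right _ _
  have hms : s ≤ m := le_max_left _ _
  have hsub : ((Finset.Ico m (m + N) : Finset ℤ) : Set ℤ) ⊆
      {j : ℤ | 0 ≤ j ∧ ¬ Cut (HS Γ f i j) h₂} := by
    intro j hj
    rw [Finset.mem_coe, Finset.mem_Ico] at hj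
    refine ⟨hm0.trans hj.1, ?_⟩
    have e1 : ((m.toNat + N + 1 : ℕ) : ℤ) = m + N + 1 := by
      push_cast
      rw [Int.toNat_of_nonneg hm0]
    rw [hA.HS hΓ hf hh₁ i (by rw [e1]; omega) (by rw [e1]; omega)]
    exact hs j (hms.trans hj.1)
  have := Set.ncard_le_ncard hsub c1
  rw [Set.ncard_coe_finset, Int.card_Ico] at this
  omega

end Pool.Agent.Run7.h230.QF
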