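import Pool.Agent.Run7.h230.QF.NEG

set_option autoImplicit false

namespace Pool.Agent.Run7.h230.QF

open Pool.Agent.H97R3.VR (IsMedian IsConvex Btw)
open Pool.Agent.TH97.VR (walls)
open Pointwise

theorem Orb.sys_of_mem {V G : Type} [Group G] [MulAction G V] {Γ : SimpleGraph V} {k : ℕ}
    {L : Set ((Fin k → ℤ) → V)} (hL : Sys G Γ L) {f : (Fin k → ℤ) → V} (hf : f ∈ L) :
    Orb G f ⊆ L := by
  intro h hh
  refine hL.closed h fun R => ?_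
  obtain ⟨g, b, hA⟩ := hh R
  exact ⟨_, hL.smul _ (hL.shift f hf b) g, hA⟩

theorem t_MAIN (hRANK : S_RANK) (hORB : S_ORB) (hMIN : S_MIN) (hDET : S_DET) (hCOPY : S_COPY)
    (hDIV : S_DIV) : S_MAIN := by
  intro V G _ _ Γ hA hZ hH
  obtain ⟨k, hk, hex, hno, N, hN⟩ := hRANK V G Γ hA hH
  refine ⟨k, hk, hex, hno, fun f hf R => ?_⟩
  obtain ⟨hS, hfS⟩ := hORB V G Γ hA k f hf
  obtain ⟨L, hLs, hL, hne⟩ := hMIN V G Γ hA k _ hS ⟨f, hfS⟩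
  have hdir : ∀ (i : Fin k) (b : Bool) (R : ℕ), ∃ f₁ ∈ L, ∃ f₂ ∈ L, Agree f₁ f₂ R ∧
      Bd Γ i b f₁ f₂ := by
    intro i b R
    cases b with
    | true =>
      have h1 := hDET V G Γ hA hZ k N hk hN L hL.sys hne i R
      unfold Det at h1
      push Not at h1
      obtain ⟨f₁, h2, f₂, h3, h4, h5⟩ := h1
      exact ⟨f₁, h2, f₂, h3, h4, by simpa [Bd] using h5⟩
    | false =>
      have h1 := hDET V G Γ hA hZ k N hk hN (ng '' L) (t_NEG V G Γ k L hL.sys) (hne.image _) i R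
      unfold Det at h1
      push Not at h1
      obtain ⟨_, ⟨f₁, h2, rfl⟩, _, ⟨f₂, h3, rfl⟩, h4, h5⟩ := h1
      refine ⟨f₁, h2, f₂, h3, ?_, by simpa [Bd] using h5⟩
      have := h4.ng
      rwa [ng_ng, ng_ng] at this
  obtain ⟨h₁, m1, h₂, m2, hag, hbd⟩ := hCOPY V G Γ hA k N hN L hL hne hdir R
  have e0 : h₁ 0 = h₂ 0 := hag 0 (fun i => by simp)
  obtain ⟨C, hC⟩ := hDIV V Γ hA.med k h₁ h₂ (hL.sys.flat _ m1) (hL.sys.flat _ m2) e0 hbd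
  exact ⟨h₁, hLs m1, h₂, hLs m2, hL.min h₂ m2 m1, hL.min h₁ m1 m2, hL.sys.flat _ m1,
    hL.sys.flat _ m2, hag, C, hC⟩

end Pool.Agent.Run7.h230.QF
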