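import Pool.Agent.Run7.h230.QF.Stm

set_option autoImplicit false

namespace Pool.Agent.Run7.h230.QF

open Pool.Agent.H97R3.VR (IsMedian IsConvex Btw)
open Pool.Agent.TH97.VR (walls)
open Pointwise

theorem Cross.symm {V : Type} {A B : Set V} (h : Cross A B) : Cross B A := by
  obtain ⟨h1, h2, h3, h4⟩ := h
  refine ⟨?_, ?_, ?_, ?_⟩
  · rwa [Set.inter_comm]
  · rwa [Set.inter_comm]
  · rwa [Set.inter_comm]
  · rwa [Set.inter_comm]

theorem Cross.compl_left {V : Type} {A B : Set V} (h : Cross A B) : Cross Aᶜ B := by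
  obtain ⟨h1, h2, h3, h4⟩ := h
  exact ⟨h3, h4, by rwa [compl_compl], by rwa [compl_compl]⟩

theorem Cross.compl_right {V : Type} {A B : Set V} (h : Cross A B) : Cross A Bᶜ :=
  h.symm.compl_left.symm

/-- a finite set of half-spaces of one direction separates two points -/
theorem IsFlat.sepLine {V : Type} {k : ℕ} {Γ : SimpleGraph V} {f : (Fin k → ℤ) → V}
    (hf : IsFlat Γ f) (i : Fin k) (A : Finset (Set V)) (hA : ∀ B ∈ A, ∃ j : ℤ, B = HS Γ f i j) :
    ∃ x y, Sep Γ A x y := by
  classical
  obtain ⟨m, hm⟩ : ∃ m : ℤ, ∀ B ∈ A, ∃ j : ℤ, B = HS Γ f i j ∧ -m ≤ j ∧ j < m := by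
    induction A using Finset.induction_on with
    | empty => exact ⟨0, fun B hB => absurd hB (Finset.notMem_empty B)⟩
    | insert B A _ ih =>
      obtain ⟨m, hm⟩ := ih fun C hC => hA C (Finset.mem_insert_of_mem hC)
      obtain ⟨j, hj⟩ := hA B (Finset.mem_insert_self _ _)
      refine ⟨max m (|j| + 1), fun C hC => ?_⟩
      rcases Finset.mem_insert.1 hC with rfl | hC
      · refine ⟨j, hj, ?_, ?_⟩
        · have := neg_abs_le j; have := le_max_right m (|j| + 1); omega
        · have := le_abs_self j; have := le_max_right m (|j| + 1); omega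
      · obtain ⟨j', h1, h2, h3⟩ := hm C hC
        refine ⟨j', h1, ?_, ?_⟩
        · have := le_max_left m (|j| + 1); omega
        · have := le_max_left m (|j| + 1); omega
  refine ⟨f (Pi.single i (-m)), f (Pi.single i m), fun B hB => ?_⟩
  obtain ⟨j, rfl, h2, h3⟩ := hm B hB
  refine ⟨hf.wall i j, fun h => ?_, (hf.side _ _ _).2 (by simpa using h3)⟩
  have := (hf.side _ _ _).1 h
  simp at this
  omega

theorem t_GR : S_GR := by
  classical
  intro V Γ hΓ k N hG f hf i A₀ A₁ h0 h1 hc hc'
  by_contra hcon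
  push Not at hcon
  obtain ⟨hN0, hN1⟩ := hcon
  set E : Fin k → Finset (Set V) := fun i' =>
    if i' = i then A₁ else (Finset.range N).image (fun l : ℕ => HS Γ f i' l) with hE
  have hEi : E i = A₁ := if_pos rfl
  have hEo : ∀ i', i' ≠ i → E i' = (Finset.range N).image (fun l : ℕ => HS Γ f i' l) :=
    fun i' h => if_neg h
  have hEmem : ∀ i', ∀ B ∈ E i', ∃ j : ℤ, B = HS Γ f i' j := by
    intro i' B hB
    by_cases h : i' = i
    · subst h
      rw [hEi] at hB
      exact h1 B hB
    · rw [hEo i' h] at hB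
      obtain ⟨l, -, rfl⟩ := Finset.mem_image.1 hB
      exact ⟨l, rfl⟩
  have hc0 : ∀ i', ∀ A ∈ A₀, ∀ B ∈ E i', Cross A B := by
    intro i' A hA B hB
    by_cases h : i' = i
    · subst h
      rw [hEi] at hB
      exact hc A hA B hB
    · rw [hEo i' h] at hB
      obtain ⟨l, hl, rfl⟩ := Finset.mem_image.1 hB
      exact hc' A hA i' h l (by positivity) (by exact_mod_cast Finset.mem_range.1 hl)
  refine hG ⟨Fin.cases A₀ E, ?_, ?_, ?_⟩
  · intro a
    refine Fin.cases ?_ (fun i' => ?_) a
    · exact hN0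
    · show N ≤ (E i').card
      by_cases h : i' = i
      · subst h
        rw [hEi]
        exact hN1
      · rw [hEo i' h, Finset.card_image_of_injective, Finset.card_range]
        intro l l' hll
        have := (hf.HS_inj hll).2
        exact_mod_cast this
  · intro a
    refine Fin.cases ?_ (fun i' => ?_) a
    · exact h0
    · exact hf.sepLine i' (E i') (hEmem i')
  · intro a b
    refine Fin.cases ?_ (fun i' => ?_) a
    · refine Fin.cases ?_ (fun i'' => ?_) b
      · intro h; exact absurd rfl h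
      · intro _ A hA B hB
        exact hc0 i'' A hA B hB
    · refine Fin.cases ?_ (fun i'' => ?_) b
      · intro _ A hA B hB
        exact (hc0 i' B hB A hA).symm
      · intro hne A hA B hB
        obtain ⟨j, rfl⟩ := hEmem i' A hA
        obtain ⟨j', rfl⟩ := hEmem i'' B hB
        exact hf.cross (fun h => hne (by rw [h])) j j'

end Pool.Agent.Run7.h230.QF
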