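import Pool.Agent.Run7.h230.QF.Stm2
import Pool.Agent.Run7.h230.QF.GR

/-! # Piece NEST of project QF (phase 2) -/

set_option autoImplicit false

namespace Pool.Agent.Run7.h230.QF

open Pool.Agent.H97R3.VR (IsMedian)
open Pool.Agent.TH97.VR (walls)

theorem t_NEST : S_NEST := by
  intro V Γ hΓ k hG f hf i j j' hjj
  have hnc : ¬ Cross (HS Γ f i j') (HS Γ f i j) := by
    intro hc
    have h := t_GR V Γ hΓ k 1 hG f hf i {HS Γ f i j'} {HS Γ f i j}
      ⟨f (Pi.single i j'), f (Pi.single i (j' + 1)), by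
        intro A hA
        rw [Finset.mem_singleton] at hA
        subst hA
        refine ⟨hf.wall i j', ?_, ?_⟩
        · rw [hf.side]; simp
        · rw [hf.side]; simp⟩
      (by intro B hB; rw [Finset.mem_singleton] at hB; exact ⟨j, hB⟩)
      (by
        intro A hA B hB
        rw [Finset.mem_singleton] at hA hB
        subst hA; subst hB; exact hc)
      (by
        intro A hA i' hi' l _ _
        rw [Finset.mem_singleton] at hA
        subst hA
        exact hf.cross (Ne.symm hi') j' l)
    simp at h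
  have h1 : ∀ x, x ∈ HS Γ f i j' → x ∈ HS Γ f i j := by
    intro x hx
    by_contra hx'
    apply hnc
    refine ⟨⟨f (Pi.single i (j' + 1)), ?_, ?_⟩, ⟨x, hx, hx'⟩, ⟨f (Pi.single i j'), ?_, ?_⟩,
      ⟨f (Pi.single i j), ?_, ?_⟩⟩
    · rw [hf.side]; simp
    · rw [hf.side]; simp; omega
    · rw [Set.mem_compl_iff, hf.side]; simp
    · rw [hf.side]; simpa using hjj
    · rw [Set.mem_compl_iff, hf.side]; simp; omega
    · rw [Set.mem_compl_iff, hf.side]; simp
  refine ⟨h1, fun h2 => ?_⟩
  have h3 : f (Pi.single i j') ∈ HS Γ f i j := by rw [hf.side]; simpa using hjj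
  have h4 := h2 h3
  rw [hf.side] at h4
  simp at h4

end Pool.Agent.Run7.h230.QF
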