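import Pool.Agent.Run7.h230.QF.Stm2

/-! # Piece END of project QF (phase 2) -/

set_option autoImplicit false

namespace Pool.Agent.Run7.h230.QF

open Pool.Agent.H97R3.VR (IsMedian)
open Pool.Agent.TH97.VR (walls)
open Pointwise

/-- `Fix0` for cubes with any centre. -/
theorem Fix0.at {V G : Type} [Group G] [MulAction G V] {Γ : SimpleGraph V} {k : ℕ}
    {L : Set ((Fin k → ℤ) → V)} (hL : Sys G Γ L) {n₀ : ℕ} (hF : Fix0 G L n₀)
    {h : (Fin k → ℤ) → V} (hh : h ∈ L) (c : Fin k → ℤ) {g : G}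
    (hg : ∀ z : Fin k → ℤ, (∀ i, |z i| ≤ (n₀ : ℤ)) → g • h (z + c) = h (z + c)) :
    ∀ z, g • h z = h z := by
  intro z
  have h1 := hF _ (hL.shift h hh c) g hg (z - c)
  simpa using h1

theorem pow_strict {V G : Type} [Group G] [MulAction G V] {B : Set V} {t : G} (h : B ⊂ t • B)
    (c : ℕ) (hc : 0 < c) : B ⊂ t ^ c • B := by
  induction c with
  | zero => exact absurd hc (lt_irrefl 0)
  | succ c ih =>
    rcases Nat.eq_zero_or_pos c with h0 | h0
    · subst h0; simpa using h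
    · refine (ih h0).trans ?_
      rw [pow_succ, mul_smul]
      exact ⟨Set.smul_set_mono h.1, fun h2 => h.2 (by
        have h3 := Set.smul_set_mono (a := (t ^ c)⁻¹) h2
        simpa using h3)⟩

theorem t_END (hNEST : S_NEST) (hGRP : S_GRP) (hZZ : S_ZZ) (hWSL : S_WSL) : S_END := by
  intro V G _ _ Γ hA k hG L hL i i₂ hi₂ n₀ n hF hn h hh p q M r₁ r₂ t g hM hq ht hr hg
  have hf := hL.flat h hh
  have hne : i ≠ i₂ := Ne.symm hi₂
  obtain ⟨c, hc, hcomm⟩ := hGRP G {u | ∀ z, u • h z = h z}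
    ((hA.stab (h 0)).subset fun u hu => hu 0)
    (fun u hu v hv z => by rw [mul_smul, hv z, hu z]) t g
    (by
      intro u hu
      refine Fix0.at hL hF hh (Pi.single i (-(p : ℤ) - n₀)) fun z hz => ?_
      have hzi := abs_le.1 (hz i)
      have e1 := ht (z + Pi.single i (-(p : ℤ) - n₀)) (by simp; omega) (by simp; omega)
      rw [mul_smul, mul_smul, e1, hu, ← e1, inv_smul_smul])
    (by
      refine Fix0.at hL hF hh (Pi.single i (-(p : ℤ) - n₀) + Pi.single i₂ (r₁ : ℤ))
        fun z hz => ?_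
      have hzi := abs_le.1 (hz i)
      set z' : Fin k → ℤ := z + Pi.single i (-(p : ℤ) - n₀) with hz'
      have hz'i : z' i = z i + (-(p : ℤ) - n₀) := by simp [hz']
      have hz'o : ∀ i', i' ≠ i → |z' i'| ≤ (n : ℤ) := by
        intro i' hi'
        have : z' i' = z i' := by simp [hz', Pi.single_eq_of_ne hi']
        rw [this]
        exact (hz i').trans (by exact_mod_cast (by omega : n₀ ≤ n))
      have e0 : z + (Pi.single i (-(p : ℤ) - n₀) + Pi.single i₂ (r₁ : ℤ)) =
          z' + Pi.single i₂ (r₁ : ℤ) := by rw [hz', add_assoc]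
      rw [e0]
      have hz'W : z' ∈ Wi i n := ⟨hz'o, by rw [hz'i]; omega⟩
      have hz'W2 : z' - Pi.single i (q : ℤ) ∈ Wi i n := by
        refine ⟨fun i' hi' => ?_, ?_⟩
        · have := hz'o i' hi'
          simpa [Pi.single_eq_of_ne hi'] using this
        · have : (z' - Pi.single i (q : ℤ) : Fin k → ℤ) i = z' i - q := by simp
          rw [this, hz'i]; omega
      have e1 := hg z' hz'W
      have e2 := hg _ hz'W2
      have e3 := ht (z' + Pi.single i₂ (r₁ : ℤ))
        (by simp [Pi.single_eq_of_ne hne, hz'i]; omega)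
        (by simp [Pi.single_eq_of_ne hne, hz'i]; omega)
      have e4 := ht (z' + Pi.single i₂ (r₂ : ℤ))
        (by simp [Pi.single_eq_of_ne hne, hz'i]; omega)
        (by simp [Pi.single_eq_of_ne hne, hz'i]; omega)
      rw [mul_smul, inv_smul_eq_iff, mul_smul, mul_smul, e1, e4, e3]
      have e5 : z' + Pi.single i₂ (r₁ : ℤ) - Pi.single i (q : ℤ) =
          z' - Pi.single i (q : ℤ) + Pi.single i₂ (r₁ : ℤ) := by abel
      rw [e5, e2]
      congr 1
      abel)
  obtain ⟨hw1, hw2⟩ := hWSL V G Γ hA k hG h hf i i₂ hi₂ p q M t (by omega) hq ht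
  have hpow : ∀ m : ℕ, t ^ m • HS Γ h i₂ r₁ = HS Γ h i₂ r₁ := by
    intro m
    induction m with
    | zero => simp
    | succ m ih => rw [pow_succ, mul_smul, hw1, ih]
  refine hZZ V G (HS Γ h i₂ r₁) (HS Γ h i (-(p : ℤ) - 1)) (t ^ c) g hcomm (hpow c) ?_
    (pow_strict hw2 c hc)
  have h1 : g • HS Γ h i₂ r₁ = HS Γ h i₂ r₂ := by
    rw [← IsFlat.HS_smul hA h g i₂]
    have h2 := IsFlat.HS_congr hA.med (hf.smul hA g) hf
      (z := Pi.single i₂ (r₁ : ℤ)) (w := Pi.single i₂ (r₂ : ℤ)) (i := i₂)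
      (by
        have := hg 0 ⟨fun i' _ => by simp, by simp⟩
        simpa using this)
      (by
        have := hg (Pi.single i₂ 1) ⟨fun i' _ => by
          by_cases hi' : i' = i₂
          · subst hi'; simp; omega
          · simp [Pi.single_eq_of_ne hi'], by simp [Pi.single_eq_of_ne hne]⟩
        have a1 : (Pi.single i₂ (r₁ : ℤ) + Pi.single i₂ 1 : Fin k → ℤ) =
          Pi.single i₂ 1 + Pi.single i₂ (r₁ : ℤ) := add_comm _ _
        have a2 : (Pi.single i₂ (r₂ : ℤ) + Pi.single i₂ 1 : Fin k → ℤ) =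
          Pi.single i₂ 1 + Pi.single i₂ (r₂ : ℤ) := add_comm _ _
        rw [a1, a2]
        exact this)
    rwa [Pi.single_eq_same, Pi.single_eq_same] at h2
  rw [h1]
  exact hNEST V Γ hA.med k hG h hf i₂ _ _ (by exact_mod_cast hr)

end Pool.Agent.Run7.h230.QF
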