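import Pool.Agent.Run7.h230.QF.Stm2

/-! # Piece WSL of project QF (phase 2) -/

set_option autoImplicit false

namespace Pool.Agent.Run7.h230.QF

open Pool.Agent.H97R3.VR (IsMedian)
open Pool.Agent.TH97.VR (walls)
open Pointwise

theorem t_WSL (hNEST : S_NEST) : S_WSL := by
  intro V G _ _ Γ hA k hG f hf i i₂ hi₂ p q M t hM hq hS
  have hne : i ≠ i₂ := Ne.symm hi₂
  constructor
  · intro j
    rw [← IsFlat.HS_smul hA f t i₂ j]
    have h := IsFlat.HS_congr hA.med (hf.smul hA t) hf
      (z := Pi.single i₂ j - Pi.single i (p : ℤ))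
      (w := Pi.single i₂ j - Pi.single i (p : ℤ) - Pi.single i (q : ℤ)) (i := i₂)
      (hS _ (by simp [Pi.single_eq_of_ne hne]) (by simp [Pi.single_eq_of_ne hne]))
      (by
        rw [hS _ (by simp [Pi.single_eq_of_ne hne]) (by simp [Pi.single_eq_of_ne hne])]
        congr 1
        abel)
    simpa [Pi.single_eq_of_ne hi₂] using h
  · have h := IsFlat.HS_congr hA.med (hf.smul hA t) hf
      (z := Pi.single i (-(p : ℤ) - 1)) (w := Pi.single i (-(p : ℤ) - 1 - q)) (i := i)
      (by
        rw [hS _ (by simp; omega) (by simp)]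
        congr 1
        rw [← Pi.single_sub])
      (by
        rw [← single_succ, hS _ (by simp) (by simp)]
        congr 1
        rw [← Pi.single_sub, ← single_succ]
        congr 1
        ring)
    rw [Pi.single_eq_same, Pi.single_eq_same] at h
    rw [← IsFlat.HS_smul hA f t i, h]
    exact hNEST V Γ hA.med k hG f hf i _ _ (by omega)

end Pool.Agent.Run7.h230.QF
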