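import Pool.Agent.Run7.h230.QF.Defs

/-!
# Basic facts on flats and their walls (proved)
-/

set_option autoImplicit false

namespace Pool.Agent.Run7.h230.QF

open Pool.Agent.H97R3.VR (IsMedian IsConvex Btw Wh)
open Pool.Agent.TH97.VR (walls)
open Pointwise

variable {V : Type} {k : ℕ} {Γ : SimpleGraph V}

theorem IsFlat.adj {f : (Fin k → ℤ) → V} (hf : IsFlat Γ f) (z : Fin k → ℤ) (i : Fin k) :
    Γ.Adj (f z) (f (z + Pi.single i 1)) := by
  have h := hf z (z + Pi.single i 1)
  have h1 : ∑ i', |z i' - (z + Pi.single i 1 : Fin k → ℤ) i'| = 1 := by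
    rw [Finset.sum_eq_single i]
    · simp
    · intro b _ hb
      simp [Pi.single_eq_of_ne hb]
    · intro h; exact absurd (Finset.mem_univ i) h
  rw [h1] at h
  exact SimpleGraph.dist_eq_one_iff_adj.1 (by exact_mod_cast h)

theorem IsFlat.inj {f : (Fin k → ℤ) → V} (hf : IsFlat Γ f) {z w : Fin k → ℤ} (h : f z = f w) :
    z = w := by
  have h1 := hf z w
  rw [h, SimpleGraph.dist_self] at h1
  have h2 := (Finset.sum_eq_zero_iff_of_nonneg (fun i _ => abs_nonneg (z i - w i))).1
    (by exact_mod_cast h1.symm)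
  funext i
  have h3 := h2 i (Finset.mem_univ i)
  have := abs_eq_zero.1 h3
  omega

theorem IsFlat.shift {f : (Fin k → ℤ) → V} (hf : IsFlat Γ f) (b : Fin k → ℤ) :
    IsFlat Γ (fun z => f (z + b)) := by
  intro z w
  rw [hf]
  simp

theorem IsFlat.ng {f : (Fin k → ℤ) → V} (hf : IsFlat Γ f) : IsFlat Γ (ng f) := by
  intro z w
  unfold QF.ng
  rw [hf]
  refine Finset.sum_congr rfl fun i _ => ?_
  rw [Pi.neg_apply, Pi.neg_apply, ← abs_neg]
  congr 1
  ring

theorem IsFlat.smul {G : Type} [Group G] [MulAction G V] (hA : Act G Γ) {f : (Fin k → ℤ) → V}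
    (hf : IsFlat Γ f) (g : G) : IsFlat Γ (fun z => g • f z) := by
  intro z w
  rw [Pool.Agent.H97R3.VR.dist_smul hA.med.conn hA.adj, hf]

theorem HS_eq (f : (Fin k → ℤ) → V) (i : Fin k) (j : ℤ) :
    HS Γ f i j = {u | Wh Γ (f (Pi.single i (j + 1))) (f (Pi.single i j)) u} := rfl

theorem single_succ (i : Fin k) (j : ℤ) :
    (Pi.single i (j + 1) : Fin k → ℤ) = Pi.single i j + Pi.single i 1 := by
  rw [← Pi.single_add]

/-- The half-spaces of a flat are half-spaces of the graph. -/
theorem IsFlat.wall {f : (Fin k → ℤ) → V} (hf : IsFlat Γ f) (i : Fin k) (j : ℤ) :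
    HS Γ f i j ∈ walls Γ := by
  refine ⟨_, _, ?_, rfl⟩
  rw [single_succ]
  exact (hf.adj _ i).symm

/-- `f z` is in the half-space if and only if `j < z i`. -/
theorem IsFlat.side {f : (Fin k → ℤ) → V} (hf : IsFlat Γ f) (i : Fin k) (j : ℤ)
    (z : Fin k → ℤ) : f z ∈ HS Γ f i j ↔ j < z i := by
  have e1 : ∀ t : ℤ, ∑ i', |z i' - (Pi.single i t : Fin k → ℤ) i'| =
      |z i - t| + ∑ i' ∈ Finset.univ.erase i, |z i'| := by
    intro t
    rw [← Finset.add_sum_erase _ _ (Finset.mem_univ i)]
    congr 1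
    · simp
    · refine Finset.sum_congr rfl fun b hb => ?_
      rw [Pi.single_eq_of_ne (Finset.ne_of_mem_erase hb), sub_zero]
  have h1 := hf z (Pi.single i (j + 1))
  have h2 := hf z (Pi.single i j)
  rw [e1] at h1 h2
  show Γ.dist (f z) (f (Pi.single i (j + 1))) < Γ.dist (f z) (f (Pi.single i j)) ↔ _
  rcases le_or_gt (z i) j with h | h
  · rw [abs_of_nonpos (by omega)] at h1 h2
    constructor <;> intro h3 <;> omega
  · rw [abs_of_nonneg (by omega)] at h1 h2
    constructor <;> intro h3 <;> omega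

theorem IsFlat.HS_inj {f : (Fin k → ℤ) → V} (hf : IsFlat Γ f) {i i' : Fin k} {j j' : ℤ}
    (h : HS Γ f i j = HS Γ f i' j') : i = i' ∧ j = j' := by
  have key : ∀ z : Fin k → ℤ, j < z i ↔ j' < z i' := fun z => by
    rw [← hf.side i j z, ← hf.side i' j' z, h]
  have hi : i = i' := by
    by_contra hne
    have h1 := key (Pi.single i (j + 1) + Pi.single i' j')
    simp only [Pi.add_apply, Pi.single_eq_same, Pi.single_eq_of_ne hne,
      Pi.single_eq_of_ne (Ne.symm hne)] at h1
    omega
  subst hi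
  have h1 := key (Pi.single i (j + 1))
  have h2 := key (Pi.single i (j' + 1))
  simp only [Pi.single_eq_same] at h1 h2
  exact ⟨rfl, by omega⟩

theorem IsFlat.HS_ne_compl {f : (Fin k → ℤ) → V} (hf : IsFlat Γ f) (i i' : Fin k) (j j' : ℤ) :
    HS Γ f i j ≠ (HS Γ f i' j')ᶜ := by
  intro h
  have h1 : f (fun _ => max j j' + 1) ∈ HS Γ f i j := (hf.side i j _).2 (by omega)
  have h2 : f (fun _ => max j j' + 1) ∈ HS Γ f i' j' := (hf.side i' j' _).2 (by omega)
  rw [h] at h1
  exact h1 h2

/-- Half-spaces of different directions cross. -/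
theorem IsFlat.cross {f : (Fin k → ℤ) → V} (hf : IsFlat Γ f) {i i' : Fin k} (hne : i ≠ i')
    (j j' : ℤ) : Cross (HS Γ f i j) (HS Γ f i' j') := by
  have key : ∀ a b : ℤ, (f (Pi.single i a + Pi.single i' b) ∈ HS Γ f i j ↔ j < a) ∧
      (f (Pi.single i a + Pi.single i' b) ∈ HS Γ f i' j' ↔ j' < b) := by
    intro a b
    constructor
    · rw [hf.side]
      simp [Pi.single_eq_of_ne hne]
    · rw [hf.side]
      simp [Pi.single_eq_of_ne (Ne.symm hne)]
  refine ⟨⟨f (Pi.single i (j + 1) + Pi.single i' (j' + 1)), ?_, ?_⟩,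
    ⟨f (Pi.single i (j + 1) + Pi.single i' j'), ?_, ?_⟩,
    ⟨f (Pi.single i j + Pi.single i' (j' + 1)), ?_, ?_⟩,
    ⟨f (Pi.single i j + Pi.single i' j'), ?_, ?_⟩⟩
  · exact (key _ _).1.2 (by omega)
  · exact (key _ _).2.2 (by omega)
  · exact (key _ _).1.2 (by omega)
  · exact fun h => by have := (key _ _).2.1 h; omega
  · exact fun h => by have := (key _ _).1.1 h; omega
  · exact (key _ _).2.2 (by omega)
  · exact fun h => by have := (key _ _).1.1 h; omega
  · exact fun h => by have := (key _ _).2.1 h; omega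

/-- A half-space which contains `f w` and not `f z` is one of the half-spaces of the flat, or the
complement of one. -/
theorem IsFlat.sep (hΓ : IsMedian Γ) {f : (Fin k → ℤ) → V} (hf : IsFlat Γ f) {A : Set V}
    (hA : A ∈ walls Γ) {z w : Fin k → ℤ} (hz : f z ∉ A) (hw : f w ∈ A) :
    ∃ i j, (A = HS Γ f i j ∧ z i ≤ j ∧ j < w i) ∨ (A = (HS Γ f i j)ᶜ ∧ w i ≤ j ∧ j < z i) := by
  obtain ⟨n, hn⟩ : ∃ n : ℕ, (∑ i, |z i - w i| : ℤ) = n :=
    ⟨(∑ i, |z i - w i| : ℤ).toNat,
      (Int.toNat_of_nonneg (Finset.sum_nonneg fun i _ => abs_nonneg _)).symm⟩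
  induction n generalizing w with
  | zero =>
    exfalso
    have h2 := (Finset.sum_eq_zero_iff_of_nonneg (fun i _ => abs_nonneg (z i - w i))).1
      (by exact_mod_cast hn)
    have : z = w := by
      funext i
      have := abs_eq_zero.1 (h2 i (Finset.mem_univ i))
      omega
    rw [this] at hz
    exact hz hw
  | succ n ih =>
    obtain ⟨i, hi⟩ : ∃ i, z i ≠ w i := by
      by_contra hcon
      push Not at hcon
      have : ∑ i, |z i - w i| = 0 := Finset.sum_eq_zero fun i _ => by rw [hcon i]; simp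
      rw [this] at hn
      norm_cast at hn
    -- move `w` towards `z` in the direction `i`
    set s : ℤ := if z i < w i then -1 else 1 with hs
    set w' : Fin k → ℤ := w + Pi.single i s with hw'
    have hw'i : w' i = w i + s := by simp [hw']
    have hw'o : ∀ b, b ≠ i → w' b = w b := fun b hb => by simp [hw', Pi.single_eq_of_ne hb]
    have hn' : (∑ i, |z i - w' i| : ℤ) = n := by
      have e1 : ∀ v : Fin k → ℤ, ∑ i', |z i' - v i'| =
          |z i - v i| + ∑ i' ∈ Finset.univ.erase i, |z i' - v i'| := fun v =>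
        (Finset.add_sum_erase _ _ (Finset.mem_univ i)).symm
      rw [e1] at hn ⊢
      have e2 : ∑ i' ∈ Finset.univ.erase i, |z i' - w' i'| =
          ∑ i' ∈ Finset.univ.erase i, |z i' - w i'| :=
        Finset.sum_congr rfl fun b hb => by rw [hw'o b (Finset.ne_of_mem_erase hb)]
      rw [e2, hw'i]
      push_cast at hn
      rcases lt_or_gt_of_ne hi with h | h
      · rw [if_pos h] at hs
        rw [abs_of_neg (by omega)] at hn
        rw [abs_of_nonpos (by omega)]
        omega
      · rw [if_neg (by omega)] at hs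
        rw [abs_of_pos (by omega)] at hn
        rw [abs_of_nonneg (by omega)]
        omega
    by_cases hw'A : f w' ∈ A
    · obtain ⟨i₁, j₁, h⟩ := ih hw'A hn'
      refine ⟨i₁, j₁, ?_⟩
      rcases h with ⟨h1, h2, h3⟩ | ⟨h1, h2, h3⟩
      · left
        refine ⟨h1, h2, ?_⟩
        have := (hf.side i₁ j₁ w).1 (by rw [← h1]; exact hw)
        exact this
      · right
        refine ⟨h1, ?_, h3⟩
        by_contra hcon
        have h4 : f w ∈ (HS Γ f i₁ j₁)ᶜ := by rw [← h1]; exact hw
        exact h4 ((hf.side i₁ j₁ w).2 (by omega))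
    · -- the edge between `w'` and `w` is dual to `A`
      refine ⟨i, if z i < w i then w i - 1 else w i, ?_⟩
      rcases lt_or_gt_of_ne hi with h | h
      · left
        rw [if_pos h] at hs ⊢
        have hadj : Γ.Adj (f w) (f w') := by
          have h1 := hf.adj w' i
          have h2 : w' + Pi.single i 1 = w := by
            funext b
            by_cases hb : b = i
            · subst hb; simp [hw', hs]
            · simp [hw', Pi.single_eq_of_ne hb]
          rw [h2] at h1
          exact h1.symm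
        have e1 := Pool.Agent.TH97.VR.wall_eq hΓ hA hadj hw hw'A
        have e2 := Pool.Agent.TH97.VR.wall_eq hΓ (hf.wall i (w i - 1)) hadj
          ((hf.side _ _ _).2 (by omega)) (fun h3 => by
            have := (hf.side _ _ _).1 h3; omega)
        exact ⟨e1.trans e2.symm, by omega, by omega⟩
      · right
        rw [if_neg (by omega)] at hs ⊢
        have hadj : Γ.Adj (f w) (f w') := by
          have h1 := hf.adj w i
          have h2 : w + Pi.single i 1 = w' := by rw [hw', hs]
          rw [h2] at h1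
          exact h1
        have e1 := Pool.Agent.TH97.VR.wall_eq hΓ hA hadj hw hw'A
        have e2 := Pool.Agent.TH97.VR.wall_eq hΓ
          (Pool.Agent.TH97.VR.walls_compl hΓ (hf.wall i (w i))) hadj
          (fun h3 => by have := (hf.side _ _ _).1 h3; omega)
          (fun h3 => h3 ((hf.side _ _ _).2 (by omega)))
        exact ⟨e1.trans e2.symm, le_rfl, h⟩

/-- The half-spaces of a shifted flat. -/
theorem IsFlat.HS_shift (hΓ : IsMedian Γ) {f : (Fin k → ℤ) → V} (hf : IsFlat Γ f)
    (b : Fin k → ℤ) (i : Fin k) (j : ℤ) :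
    HS Γ (fun z => f (z + b)) i j = HS Γ f i (j + b i) := by
  have hfb := hf.shift b
  have hadj := hfb.adj (Pi.single i j) i
  have e1 := Pool.Agent.TH97.VR.wall_eq hΓ (hfb.wall i j) hadj.symm
    ((hfb.side _ _ _).2 (by simp)) (fun h => by
      have := (hfb.side _ _ _).1 h
      simp at this)
  have e2 := Pool.Agent.TH97.VR.wall_eq hΓ (hf.wall i (j + b i)) hadj.symm
    ((hf.side _ _ _).2 (by simp)) (fun h => by
      have := (hf.side _ _ _).1 h
      simp at this)
  exact e1.trans e2.symm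

/-- The half-spaces of the opposite parametrisation. -/
theorem IsFlat.HS_ng (hΓ : IsMedian Γ) {f : (Fin k → ℤ) → V} (hf : IsFlat Γ f)
    (i : Fin k) (j : ℤ) : HS Γ (QF.ng f) i j = (HS Γ f i (-j - 1))ᶜ := by
  have hfb := hf.ng
  have hadj := hfb.adj (Pi.single i j) i
  have e1 := Pool.Agent.TH97.VR.wall_eq hΓ (hfb.wall i j) hadj.symm
    ((hfb.side _ _ _).2 (by simp)) (fun h => by
      have := (hfb.side _ _ _).1 h
      simp at this)
  have e2 := Pool.Agent.TH97.VR.wall_eq hΓ
    (Pool.Agent.TH97.VR.walls_compl hΓ (hf.wall i (-j - 1))) hadj.symm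
    (fun h => by
      have := (hf.side _ _ _).1 h
      simp at this
      omega)
    (fun h => h ((hf.side _ _ _).2 (by simp)))
  exact e1.trans e2.symm

/-- The half-spaces of a translated flat. -/
theorem IsFlat.HS_smul {G : Type} [Group G] [MulAction G V] (hA : Act G Γ)
    (f : (Fin k → ℤ) → V) (g : G) (i : Fin k) (j : ℤ) :
    HS Γ (fun z => g • f z) i j = g • HS Γ f i j :=
  (Pool.Agent.TH97.VR.smul_wall hA.med hA.adj g).symm

/-- Flats which agree at two neighbouring points have the same half-space there. -/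
theorem IsFlat.HS_congr (hΓ : IsMedian Γ) {f h : (Fin k → ℤ) → V} (hf : IsFlat Γ f)
    (hh : IsFlat Γ h) {z w : Fin k → ℤ} {i : Fin k} (e1 : f z = h w)
    (e2 : f (z + Pi.single i 1) = h (w + Pi.single i 1)) :
    HS Γ f i (z i) = HS Γ h i (w i) := by
  have hadj := hf.adj z i
  have a1 := Pool.Agent.TH97.VR.wall_eq hΓ (hf.wall i (z i)) hadj.symm
    ((hf.side _ _ _).2 (by simp)) (fun h => by
      have := (hf.side _ _ _).1 h
      simp at this)
  have a2 := Pool.Agent.TH97.VR.wall_eq hΓ (hh.wall i (w i)) hadj.symm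
    (by rw [e2]; exact (hh.side _ _ _).2 (by simp)) (fun h => by
      rw [e1] at h
      have := (hh.side _ _ _).1 h
      simp at this)
  exact a1.trans a2.symm

end Pool.Agent.Run7.h230.QF
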