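import Pool.Agent.Run7.h230.QF.GR

set_option autoImplicit false

namespace Pool.Agent.Run7.h230.QF

open Pool.Agent.H97R3.VR (IsMedian IsConvex Btw)
open Pool.Agent.TH97.VR (walls)
open Pointwise

theorem finite_of_card_lt {α : Type} {T : Set α} {N : ℕ}
    (h : ∀ F : Finset α, (F : Set α) ⊆ T → F.card < N) : T.Finite ∧ T.ncard < N := by
  have h1 : T.Finite := by
    by_contra hinf
    obtain ⟨F, h2, h3⟩ := (Set.not_finite.1 hinf).exists_subset_card_eq N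
    have := h F h2
    omega
  refine ⟨h1, ?_⟩
  rw [Set.ncard_eq_toFinset_card T h1]
  exact h _ (by simp)

theorem notMem_of_not_cut {V : Type} {k : ℕ} {A : Set V} {f : (Fin k → ℤ) → V} (h : ¬ Cut A f)
    {z₀ : Fin k → ℤ} (h0 : f z₀ ∉ A) (z : Fin k → ℤ) : f z ∉ A := fun hz => h ⟨⟨z, hz⟩, z₀, h0⟩

theorem t_COF (hGR : S_GR) : S_COF := by
  classical
  intro V Γ hΓ k N hG f₁ f₂ hf₁ hf₂ h0 i hB
  refine finite_of_card_lt fun F hF => ?_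
  by_contra hcon
  rw [not_lt] at hcon
  -- a bound for `F`
  obtain ⟨M, hM⟩ : ∃ M : ℤ, ∀ j ∈ F, j < M := by
    obtain ⟨M, hM⟩ := F.finite_toSet.bddAbove
    exact ⟨M + 1, fun j hj => by have := hM hj; omega⟩
  have hU : {j : ℤ | M ≤ j ∧ Cut (HS Γ f₁ i j) f₂}.Infinite := by
    refine Set.infinite_of_not_bddAbove ?_
    rintro ⟨s, hs⟩
    refine hB ⟨max M (s + 1), fun j hj hc => ?_⟩
    have h1 : j ≤ s := hs ⟨(le_max_left _ _).trans hj, hc⟩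
    have := le_max_right M (s + 1)
    omega
  obtain ⟨U, hU1, hU2⟩ := hU.exists_subset_card_eq N
  have hinj : Function.Injective (HS Γ f₁ i) := fun a b h => (hf₁.HS_inj h).2
  have hside0 : ∀ j : ℤ, 0 ≤ j → f₁ 0 ∉ HS Γ f₁ i j := fun j hj h => by
    have := (hf₁.side i j 0).1 h
    simp at this
    omega
  have key := hGR V Γ hΓ k N hG f₁ hf₁ i (F.image (HS Γ f₁ i)) (U.image (HS Γ f₁ i))
    (hf₁.sepLine i _ fun B hB => by
      obtain ⟨j, -, rfl⟩ := Finset.mem_image.1 hB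
      exact ⟨j, rfl⟩)
    (fun B hB => by
      obtain ⟨j, -, rfl⟩ := Finset.mem_image.1 hB
      exact ⟨j, rfl⟩)
    (fun A hA B hB => by
      obtain ⟨j, hj, rfl⟩ := Finset.mem_image.1 hA
      obtain ⟨u, hu, rfl⟩ := Finset.mem_image.1 hB
      obtain ⟨hj0, hjc⟩ := hF hj
      obtain ⟨hMu, ⟨z, hz⟩, -⟩ := hU1 hu
      have hju : j < u := (hM j hj).trans_le hMu
      refine ⟨⟨f₁ (Pi.single i (u + 1)), (hf₁.side _ _ _).2 ?_, (hf₁.side _ _ _).2 ?_⟩,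
        ⟨f₁ (Pi.single i u), (hf₁.side _ _ _).2 ?_, fun h => ?_⟩,
        ⟨f₂ z, notMem_of_not_cut hjc (z₀ := 0) (by rw [← h0]; exact hside0 j hj0) z, hz⟩,
        ⟨f₁ 0, hside0 j hj0, hside0 u (by omega)⟩⟩
      · simp; omega
      · simp
      · simp; omega
      · have := (hf₁.side _ _ _).1 h
        simp at this)
    (fun A hA i' hi' l _ _ => by
      obtain ⟨j, -, rfl⟩ := Finset.mem_image.1 hA
      exact hf₁.cross (Ne.symm hi') j l)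
  rw [Finset.card_image_of_injective _ hinj, Finset.card_image_of_injective _ hinj] at key
  omega

theorem mem_WP {V : Type} {k : ℕ} {Γ : SimpleGraph V} {f : (Fin k → ℤ) → V} {i : Fin k} {j : ℤ}
    (hj : 0 ≤ j) : HS Γ f i j ∈ WP Γ f i := ⟨j, hj, rfl⟩

theorem t_COMM (hCOF : S_COF) (hDIR : S_DIR) : S_COMM := by
  classical
  intro V Γ hΓ k N hG f₁ f₂ hf₁ hf₂ hA i hB
  have h0 : f₁ 0 = f₂ 0 := hA 0 (fun i => by simp)
  obtain ⟨a1, a2⟩ := hCOF V Γ hΓ k N hG f₁ f₂ hf₁ hf₂ h0 i hB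
  obtain ⟨b1, b2⟩ := hDIR V Γ hΓ k N hG f₁ f₂ hf₁ hf₂ hA i
  have hsub : WP Γ f₁ i \ WP Γ f₂ i ⊆ HS Γ f₁ i '' ({j : ℤ | 0 ≤ j ∧ ¬ Cut (HS Γ f₁ i j) f₂} ∪
      {j : ℤ | 0 ≤ j ∧ Cut (HS Γ f₁ i j) f₂ ∧ ∀ t : ℤ, 0 ≤ t → HS Γ f₁ i j ≠ HS Γ f₂ i t}) := by
    rintro A ⟨⟨j, hj, rfl⟩, h2⟩
    refine ⟨j, ?_, rfl⟩
    by_cases hc : Cut (HS Γ f₁ i j) f₂
    · right
      refine ⟨hj, hc, fun t ht h => h2 ?_⟩
      rw [h]
      exact mem_WP ht
    · left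
      exact ⟨hj, hc⟩
  have hfin := (a1.union b1).image (HS Γ f₁ i)
  refine ⟨hfin.subset hsub, (Set.ncard_le_ncard hsub hfin).trans ?_⟩
  refine (Set.ncard_image_le (a1.union b1)).trans ((Set.ncard_union_le _ _).trans ?_)
  calc _ ≤ N + 2 * k * N := by omega
    _ = (2 * k + 1) * N := by ring

end Pool.Agent.Run7.h230.QF
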