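import Pool.Agent.TH97.VR.Walls

/-!
# Flats of CAT(0) cube complexes: definitions

Project QF. `Γ` is a median graph, the 1-skeleton of a CAT(0) cube complex. `walls Γ` is the set of
its half-spaces (closed under complements); `TH97/VR/Walls.lean` proves the basic facts
(`wall_eq`, `wall_convex`, `walls_sep`, `smul_mem_walls`).
-/

set_option autoImplicit false

namespace Pool.Agent.Run7.h230.QF

open Pool.Agent.H97R3.VR (IsMedian IsConvex Btw)
open Pool.Agent.TH97.VR (walls)
open Pointwise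

variable {V : Type} {k : ℕ}

/-- `k`-flats: isometric embeddings of the grid `ℤ ^ k` (with the `ℓ¹`-metric) in the graph. -/
def IsFlat (Γ : SimpleGraph V) (f : (Fin k → ℤ) → V) : Prop :=
  ∀ z w : Fin k → ℤ, (Γ.dist (f z) (f w) : ℤ) = ∑ i, |z i - w i|

/-- The half-space of the wall dual to the edges of the flat `f` in the direction `i` between the
coordinates `j` and `j + 1`, on the positive side: `f z ∈ HS Γ f i j ↔ j < z i`. -/
def HS (Γ : SimpleGraph V) (f : (Fin k → ℤ) → V) (i : Fin k) (j : ℤ) : Set V :=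
  {u | Γ.dist u (f (Pi.single i (j + 1))) < Γ.dist u (f (Pi.single i j))}

/-- Two sets cross: all four intersections are nonempty. -/
def Cross (A B : Set V) : Prop :=
  (A ∩ B).Nonempty ∧ (A ∩ Bᶜ).Nonempty ∧ (Aᶜ ∩ B).Nonempty ∧ (Aᶜ ∩ Bᶜ).Nonempty

/-- The flat `f` has points in the set and in its complement. -/
def Cut (A : Set V) (f : (Fin k → ℤ) → V) : Prop := (∃ z, f z ∈ A) ∧ ∃ z, f z ∉ A

/-- All members of `𝒜` are half-spaces which contain `y` and do not contain `x`. -/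
def Sep (Γ : SimpleGraph V) (𝒜 : Finset (Set V)) (x y : V) : Prop :=
  ∀ A ∈ 𝒜, A ∈ walls Γ ∧ x ∉ A ∧ y ∈ A

/-- There are `n` families of `N` half-spaces, each of them separating two points, such that
half-spaces of different families cross. -/
def Grid (Γ : SimpleGraph V) (n N : ℕ) : Prop :=
  ∃ 𝒜 : Fin n → Finset (Set V), (∀ a, N ≤ (𝒜 a).card) ∧ (∀ a, ∃ x y, Sep Γ (𝒜 a) x y) ∧
    ∀ a b, a ≠ b → ∀ A ∈ 𝒜 a, ∀ B ∈ 𝒜 b, Cross A B

/-- There is an isometric embedding of the box `{0, …, N} ^ m`. -/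
def Box (Γ : SimpleGraph V) (m N : ℕ) : Prop :=
  ∃ F : (Fin m → ℕ) → V, ∀ z w : Fin m → ℕ, (∀ a, z a ≤ N) → (∀ a, w a ≤ N) →
    (Γ.dist (F z) (F w) : ℤ) = ∑ a, |(z a : ℤ) - w a|

/-- Gromov's four point condition. -/
def Hyp (Γ : SimpleGraph V) : Prop := ∃ δ : ℕ, ∀ x y z w : V,
  Γ.dist x z + Γ.dist y w ≤
    max (Γ.dist x y + Γ.dist z w) (Γ.dist x w + Γ.dist y z) + δ

/-- `G` acts geometrically on the CAT(0) cube complex with the 1-skeleton `Γ`. -/
structure Act (G : Type) [Group G] [MulAction G V] (Γ : SimpleGraph V) : Prop where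
  med : IsMedian Γ
  loc : ∀ v, (Γ.neighborSet v).Finite
  adj : ∀ (g : G) (x y : V), Γ.Adj x y → Γ.Adj (g • x) (g • y)
  stab : ∀ v : V, {g : G | g • v = v}.Finite
  orb : ∃ K : Set V, K.Finite ∧ ∀ v : V, ∃ g : G, g • v ∈ K

/-- The flats `f` and `h` agree on the cube of radius `R`. -/
def Agree (f h : (Fin k → ℤ) → V) (R : ℕ) : Prop :=
  ∀ z : Fin k → ℤ, (∀ i, |z i| ≤ (R : ℤ)) → f z = h z

/-- The limit flats of `f`. -/
def Orb (G : Type) [Group G] [MulAction G V] (f : (Fin k → ℤ) → V) : Set ((Fin k → ℤ) → V) :=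
  {h | ∀ R : ℕ, ∃ (g : G) (b : Fin k → ℤ), Agree h (fun z => g • f (z + b)) R}

/-- Closed invariant families of flats. -/
structure Sys (G : Type) [Group G] [MulAction G V] (Γ : SimpleGraph V)
    (L : Set ((Fin k → ℤ) → V)) : Prop where
  flat : ∀ f ∈ L, IsFlat Γ f
  closed : ∀ f, (∀ R : ℕ, ∃ h ∈ L, Agree f h R) → f ∈ L
  smul : ∀ f ∈ L, ∀ g : G, (fun z => g • f z) ∈ L
  shift : ∀ f ∈ L, ∀ b : Fin k → ℤ, (fun z => f (z + b)) ∈ L

/-- Minimal closed invariant families. -/
structure IsMin (G : Type) [Group G] [MulAction G V] (Γ : SimpleGraph V)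
    (L : Set ((Fin k → ℤ) → V)) : Prop where
  sys : Sys G Γ L
  min : ∀ f ∈ L, L ⊆ Orb G f

/-- The walls of `f₁` in the direction `i` which cross `f₂` are bounded above. -/
def Bdd (Γ : SimpleGraph V) (i : Fin k) (f₁ f₂ : (Fin k → ℤ) → V) : Prop :=
  ∃ s : ℤ, ∀ j, s ≤ j → ¬ Cut (HS Γ f₁ i j) f₂

/-- The opposite parametrisation. -/
def ng (f : (Fin k → ℤ) → V) : (Fin k → ℤ) → V := fun z => f (-z)

/-- The bounded directions: `(i, true)` is the positive, `(i, false)` the negative direction of the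
coordinate `i`. -/
def Bd (Γ : SimpleGraph V) (i : Fin k) (b : Bool) (f₁ f₂ : (Fin k → ℤ) → V) : Prop :=
  if b then Bdd Γ i f₁ f₂ else Bdd Γ i (ng f₁) (ng f₂)

/-- The positive half-spaces of the direction `i`. -/
def WP (Γ : SimpleGraph V) (f : (Fin k → ℤ) → V) (i : Fin k) : Set (Set V) :=
  {A | ∃ j : ℤ, 0 ≤ j ∧ A = HS Γ f i j}

/-- Two sets differ by a finite set. -/
def Cm {S : Type} (X Y : Set S) : Prop := (X \ Y).Finite ∧ (Y \ X).Finite

/-- The relative index of two sets which differ by a finite set. -/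
noncomputable def ind {S : Type} (X Y : Set S) : ℤ := ((X \ Y).ncard : ℤ) - ((Y \ X).ncard : ℤ)

/-- `g` moves the positive walls of the direction `i` to almost the same walls and it fixes the
first `N` half-spaces of the other directions. -/
def Fx {G : Type} [Group G] [MulAction G V] (Γ : SimpleGraph V) (N : ℕ) (f : (Fin k → ℤ) → V)
    (i : Fin k) (g : G) : Prop :=
  Cm (WP Γ f i) (g • WP Γ f i) ∧
    ∀ i', i' ≠ i → ∀ l : ℤ, 0 ≤ l → l < N → g • HS Γ f i' l = HS Γ f i' l

/-- The translation number of `g` along the direction `i`. -/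
noncomputable def tau {G : Type} [Group G] [MulAction G V] (Γ : SimpleGraph V)
    (f : (Fin k → ℤ) → V) (i : Fin k) (g : G) : ℤ := ind (WP Γ f i) (g • WP Γ f i)

/-- The group has no free abelian subgroup of rank two. -/
def NoZ2 (G : Type) [Group G] : Prop :=
  ¬ ∃ φ : Multiplicative (ℤ × ℤ) →* G, Function.Injective φ

end Pool.Agent.Run7.h230.QF
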