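import Pool.Agent.Run7.h590.QF.FAM
import Pool.Agent.Run7.h847.QF.GRP
import Pool.Agent.Run7.h847.QF.FG
import Pool.Agent.Run7.h230.QF.GR

/-!
# Common stabilisers of nested walls (helper230)
-/

set_option autoImplicit false

namespace Pool.Agent.Run7.h230.QF.Strip

open Pool.Agent.H97R3.VR (IsMedian IsConvex Btw)
open Pool.Agent.TH97.VR (walls)
open Pool.Agent.Run7.h230.QF
open Pool.Agent.Run7.h847.QF
open Pointwise

variable {V G : Type} [Group G] [MulAction G V] {Γ : SimpleGraph V} {k : ℕ}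

/-- An element which moves a window to another one moves the half-spaces accordingly. -/
theorem agree_HS (hA : Act G Γ) {f : (Fin k → ℤ) → V} (hf : IsFlat Γ f) {R : ℕ}
    {b c : Fin k → ℤ} {g : G} (h : Agree (fun z => g • f (z + b)) (fun z => f (z + c)) R)
    (i : Fin k) (j : ℤ) (h0 : |j| ≤ R) (h1 : |j + 1| ≤ R) :
    g • HS Γ f i (j + b i) = HS Γ f i (j + c i) := by
  have hgb := IsFlat.smul hA (hf.shift b) g
  have e1 : ∀ l : Fin k, |(Pi.single i j : Fin k → ℤ) l| ≤ (R : ℤ) := by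
    intro l
    by_cases hl : l = i
    · subst hl; simpa using h0
    · simp [Pi.single_eq_of_ne hl]
  have e2 : ∀ l : Fin k, |(Pi.single i j + Pi.single i 1 : Fin k → ℤ) l| ≤ (R : ℤ) := by
    intro l
    by_cases hl : l = i
    · subst hl; simpa using h1
    · simp [Pi.single_eq_of_ne hl]
  have key := IsFlat.HS_congr hA.med hgb (hf.shift c) (z := Pi.single i j) (w := Pi.single i j)
    (i := i) (h _ e1) (h _ e2)
  rw [Pi.single_eq_same, IsFlat.HS_smul hA (fun z => f (z + b)) g i j,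
    IsFlat.HS_shift hA.med hf b, IsFlat.HS_shift hA.med hf c] at key
  exact key

theorem cross_of_not (_hΓ : IsMedian Γ) {f : (Fin k → ℤ) → V} (hf : IsFlat Γ f) (i : Fin k)
    {n₁ n₂ : ℤ} (h12 : n₁ < n₂) (hcon : ¬ HS Γ f i n₂ ⊂ HS Γ f i n₁) :
    Cross (HS Γ f i n₁) (HS Γ f i n₂) := by
  have hm : ∀ t j : ℤ, f (Pi.single i t) ∈ HS Γ f i j ↔ j < t := fun t j => by
    rw [hf.side]; simp
  have hA' : (HS Γ f i n₁ ∩ (HS Γ f i n₂)ᶜ).Nonempty :=
    ⟨f (Pi.single i (n₁ + 1)), (hm _ _).2 (by omega), fun h => by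
      have := (hm _ _).1 h; omega⟩
  refine ⟨⟨f (Pi.single i (n₂ + 1)), (hm _ _).2 (by omega), (hm _ _).2 (by omega)⟩,
    hA', ?_, ⟨f (Pi.single i n₁), fun h => ?_, fun h => ?_⟩⟩
  · by_contra hemp
    rw [Set.not_nonempty_iff_eq_empty] at hemp
    refine hcon ⟨fun u hu => ?_, fun hsub => ?_⟩
    · by_contra hu'
      have : u ∈ (HS Γ f i n₁)ᶜ ∩ HS Γ f i n₂ := ⟨hu', hu⟩
      rw [hemp] at this
      exact this
    · obtain ⟨u, hu1, hu2⟩ := hA'
      exact hu2 (hsub hu1)
  · have := (hm _ _).1 h; omega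
  · have := (hm _ _).1 h; omega

/-- There are at most `2 N - 1` pairwise crossing half-spaces of one direction. -/
theorem card_cross (hΓ : IsMedian Γ) {N : ℕ} (hG : ¬ Grid Γ (k + 1) N)
    {f : (Fin k → ℤ) → V} (hf : IsFlat Γ f) (i : Fin k) (T : Finset ℤ)
    (hT : ∀ a ∈ T, ∀ b ∈ T, a < b → ¬ HS Γ f i b ⊂ HS Γ f i a) : T.card < N + N := by
  classical
  by_contra hcard
  have hcr' : ∀ n₁ ∈ T, ∀ n₂ ∈ T, n₁ ≠ n₂ → Cross (HS Γ f i n₁) (HS Γ f i n₂) := by
    intro n₁ h1 n₂ h2 hne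
    rcases lt_or_gt_of_ne hne with h | h
    · exact cross_of_not hΓ hf i h (hT _ h1 _ h2 h)
    · exact (cross_of_not hΓ hf i h (hT _ h2 _ h1 h)).symm
  obtain ⟨T₁, hT₁, hT₁c⟩ := Finset.exists_subset_card_eq (show N ≤ T.card by omega)
  have hT₂c : N ≤ (T \ T₁).card := by
    rw [Finset.card_sdiff_of_subset hT₁]; omega
  have hinj : Function.Injective fun n : ℤ => HS Γ f i n := by
    intro l l' hll
    exact (hf.HS_inj hll).2
  rcases t_GR V Γ hΓ k N hG f hf i (T₁.image fun n : ℤ => HS Γ f i n)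
    ((T \ T₁).image fun n : ℤ => HS Γ f i n)
    (hf.sepLine i _ fun B hB => by
      obtain ⟨l, -, rfl⟩ := Finset.mem_image.1 hB
      exact ⟨l, rfl⟩)
    (fun B hB => by
      obtain ⟨l, -, rfl⟩ := Finset.mem_image.1 hB
      exact ⟨l, rfl⟩)
    (fun A hA' B hB => by
      obtain ⟨l, hl, rfl⟩ := Finset.mem_image.1 hA'
      obtain ⟨l', hl', rfl⟩ := Finset.mem_image.1 hB
      refine hcr' l (hT₁ hl) l' (Finset.mem_sdiff.1 hl').1 fun h => ?_
      exact (Finset.mem_sdiff.1 hl').2 (h ▸ hl))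
    (fun A hA' i' hi' l _ _ => by
      obtain ⟨l', -, rfl⟩ := Finset.mem_image.1 hA'
      exact hf.cross (Ne.symm hi') _ _) with h | h
  · rw [Finset.card_image_of_injective _ hinj] at h
    omega
  · rw [Finset.card_image_of_injective _ hinj] at h
    omega

/-- Long families of half-spaces of one direction contain long nested families. -/
theorem exists_chain (hΓ : IsMedian Γ) {N : ℕ} (hG : ¬ Grid Γ (k + 1) N)
    {f : (Fin k → ℤ) → V} (hf : IsFlat Γ f) (i : Fin k) (n : ℕ) : ∀ T : Finset ℤ,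
    n * (N + N) < T.card → ∃ c : ℕ → ℤ, (∀ s ≤ n, c s ∈ T) ∧ ∀ s t, s < t → t ≤ n →
      c s < c t ∧ HS Γ f i (c t) ⊂ HS Γ f i (c s) := by
  classical
  induction n with
  | zero =>
    intro T hT
    have : 0 < T.card := by omega
    obtain ⟨a, ha⟩ := Finset.card_pos.1 this
    exact ⟨fun _ => a, fun _ _ => ha, fun s t h1 h2 => by omega⟩
  | succ n ih =>
    intro T hT
    set X := T.filter (fun b => ¬ ∃ a ∈ T, a < b ∧ HS Γ f i b ⊂ HS Γ f i a) with hX
    have hXc : X.card < N + N := by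
      refine card_cross hΓ hG hf i X fun a ha b hb hab hsub => ?_
      exact (Finset.mem_filter.1 hb).2 ⟨a, (Finset.mem_filter.1 ha).1, hab, hsub⟩
    have hXT : X ⊆ T := Finset.filter_subset _ _
    have hc : n * (N + N) < (T \ X).card := by
      rw [Finset.card_sdiff_of_subset hXT]
      have : (n + 1) * (N + N) = n * (N + N) + (N + N) := by ring
      omega
    obtain ⟨c, hc1, hc2⟩ := ih _ hc
    have h0 := hc1 0 (Nat.zero_le _)
    rw [Finset.mem_sdiff] at h0
    have h1 : ∃ a ∈ T, a < c 0 ∧ HS Γ f i (c 0) ⊂ HS Γ f i a := by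
      by_contra hcon
      exact h0.2 (Finset.mem_filter.2 ⟨h0.1, hcon⟩)
    obtain ⟨a, ha, hac, hsub⟩ := h1
    have hle : ∀ t ≤ n, a < c t ∧ HS Γ f i (c t) ⊂ HS Γ f i a := by
      intro t ht
      rcases Nat.eq_zero_or_pos t with rfl | htp
      · exact ⟨hac, hsub⟩
      · have := hc2 0 t htp ht
        exact ⟨hac.trans this.1, this.2.trans hsub⟩
    refine ⟨fun t => if t = 0 then a else c (t - 1), ?_, ?_⟩
    · intro s hs
      by_cases h : s = 0
      · simp only [h, if_true]; exact ha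
      · simp only [if_neg h]
        exact (Finset.mem_sdiff.1 (hc1 _ (by omega))).1
    · intro s t hst ht
      have ht0 : t ≠ 0 := by omega
      by_cases h : s = 0
      · simp only [h, if_true, if_neg ht0]
        exact hle _ (by omega)
      · simp only [if_neg h, if_neg ht0]
        exact hc2 _ _ (by omega) (by omega)

/-- Infinitely many half-spaces of one direction contain an infinite nested family. -/
theorem infinite_chain (hΓ : IsMedian Γ) {N : ℕ} (hG : ¬ Grid Γ (k + 1) N)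
    {f : (Fin k → ℤ) → V} (hf : IsFlat Γ f) (i : Fin k) {I : Set ℕ} (hI : I.Infinite) :
    ∃ e : ℕ → ℕ, StrictMono e ∧ (∀ n, e n ∈ I) ∧
      ∀ m n, m < n → HS Γ f i (e n : ℤ) ⊂ HS Γ f i (e m : ℤ) := by
  classical
  let u : ℕ → ℕ := Nat.nth (· ∈ I)
  have hu : StrictMono u := Nat.nth_strictMono hI
  have hui : ∀ n, u n ∈ I := fun n => Nat.nth_mem_of_infinite hI n
  have : IsTrans (Set V) (fun A B => B ⊂ A) := ⟨fun A B C h1 h2 => h2.trans h1⟩
  obtain ⟨g, hg⟩ := exists_increasing_or_nonincreasing_subseq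
    (fun A B : Set V => B ⊂ A) (fun n => HS Γ f i (u n : ℤ))
  rcases hg with hg | hg
  · exact ⟨fun n => u (g n), hu.comp g.strictMono, fun n => hui _, hg⟩
  · exfalso
    have hinj : Function.Injective fun n : ℕ => ((u (g n) : ℕ) : ℤ) := by
      intro a b hab
      have hab' : ((u (g a) : ℕ) : ℤ) = ((u (g b) : ℕ) : ℤ) := hab
      have : u (g a) = u (g b) := by exact_mod_cast hab'
      exact g.injective (hu.injective this)
    have := card_cross hΓ hG hf i ((Finset.range (N + N)).image fun n : ℕ => ((u (g n) : ℕ) : ℤ))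
      (fun a ha b hb hab => by
        obtain ⟨s, -, rfl⟩ := Finset.mem_image.1 ha
        obtain ⟨t, -, rfl⟩ := Finset.mem_image.1 hb
        refine hg s t ?_
        have h1 : u (g s) < u (g t) := by exact_mod_cast hab
        exact g.lt_iff_lt.1 (hu.lt_iff_lt.1 h1))
    rw [Finset.card_image_of_injective _ hinj, Finset.card_range] at this
    omega

end Pool.Agent.Run7.h230.QF.Strip
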