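import Pool.Agent.Run7.h230.QF.STRIP
import Pool.Agent.Run7.h230.QF.MAIN

/-!
# Common stabilisers of nested walls, part 2 (helper230)
-/

set_option autoImplicit false

namespace Pool.Agent.Run7.h230.QF.Strip

open Pool.Agent.H97R3.VR (IsMedian IsConvex Btw)
open Pool.Agent.TH97.VR (walls)
open Pool.Agent.Run7.h230.QF
open Pool.Agent.Run7.h847.QF
open Run7.h590.QF (dist_sm)
open Pointwise

variable {V G : Type} [Group G] [MulAction G V] {Γ : SimpleGraph V} {k : ℕ}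

theorem num {a b D E : ℕ} (ha : 0 < a) (h : ∀ N : ℕ, b ^ N ≤ 2 * N * D + a ^ N * E) : b ≤ a := by
  by_contra hab
  push Not at hab
  have hb : (0 : ℝ) < b := by exact_mod_cast (by omega : 0 < b)
  set r : ℝ := (a : ℝ) / b with hr
  have hr0 : 0 ≤ r := by positivity
  have hr1 : r < 1 := by rw [hr, div_lt_one hb]; exact_mod_cast hab
  have t1 := tendsto_pow_const_mul_const_pow_of_abs_lt_one 1 (r := r)
    (by rw [abs_of_nonneg hr0]; exact hr1)
  have t2 := tendsto_pow_atTop_nhds_zero_of_lt_one hr0 hr1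
  have t3 : Filter.Tendsto (fun N : ℕ => 2 * (D : ℝ) * ((N : ℝ) ^ 1 * r ^ N) + r ^ N * E)
      Filter.atTop (nhds (2 * (D : ℝ) * 0 + 0 * E)) := (t1.const_mul _).add (t2.mul_const _)
  have h1 : ∀ N : ℕ, (1 : ℝ) ≤ 2 * (D : ℝ) * ((N : ℝ) ^ 1 * r ^ N) + r ^ N * E := by
    intro N
    have hN : ((b : ℝ)) ^ N ≤ 2 * N * D + (a : ℝ) ^ N * E := by exact_mod_cast h N
    have hbN : (0 : ℝ) < (b : ℝ) ^ N := by positivity
    have e1 : r ^ N = (a : ℝ) ^ N / (b : ℝ) ^ N := by rw [hr, div_pow]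
    have ha1 : (1 : ℝ) ≤ (a : ℝ) ^ N := one_le_pow₀ (by exact_mod_cast ha)
    rw [e1, pow_one]
    have e2 : 2 * (D : ℝ) * ((N : ℝ) * ((a : ℝ) ^ N / (b : ℝ) ^ N)) +
        (a : ℝ) ^ N / (b : ℝ) ^ N * E =
        (2 * N * D * (a : ℝ) ^ N + (a : ℝ) ^ N * E) / (b : ℝ) ^ N := by
      field_simp
    rw [e2, le_div_iff₀ hbN, one_mul]
    have h3 : (2 : ℝ) * N * D ≤ 2 * N * D * (a : ℝ) ^ N :=
      le_mul_of_one_le_right (by positivity) ha1
    linarith
  have h2 := ge_of_tendsto' t3 h1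
  norm_num at h2

/-- An element which moves a half-space properly into itself is undistorted. -/
theorem len (hA : Act G Γ) {h : G} {B : Set V} (hB : B ∈ walls Γ) (hh : h • B ⊂ B) :
    ∃ x₀ : V, ∀ z : ℤ, z.natAbs ≤ Γ.dist x₀ (h ^ z • x₀) := by
  obtain ⟨x₀, hx, hx'⟩ := Set.exists_of_ssubset hh
  have key : ∀ n : ℕ, n ≤ Γ.dist (h ^ n • x₀) x₀ := by
    intro n
    obtain ⟨hfin, hcard⟩ := Pool.Agent.TH97.VR.walls_sep hA.med (h ^ n • x₀) x₀
    rw [← hcard]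
    have hmono : ∀ a b : ℕ, a < b → h ^ b • B ⊂ h ^ a • B := by
      intro a b hab
      obtain ⟨c, rfl⟩ : ∃ c, b = a + c := ⟨b - a, by omega⟩
      have := smul_ssub (h ^ a) (pow_ssub hh c (by omega))
      rwa [smul_smul, ← pow_add] at this
    have hinj : Function.Injective fun a : ℕ => h ^ (a + 1) • B := by
      intro a b hab
      have hab' : h ^ (a + 1) • B = h ^ (b + 1) • B := hab
      rcases lt_trichotomy a b with h1 | h1 | h1
      · exact absurd hab'.symm (hmono (a + 1) (b + 1) (by omega)).ne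
      · exact h1
      · exact absurd hab' (hmono (b + 1) (a + 1) (by omega)).ne
    have hsub : (fun a : ℕ => h ^ (a + 1) • B) '' (Finset.range n : Set ℕ) ⊆
        {W | W ∈ walls Γ ∧ h ^ n • x₀ ∈ W ∧ x₀ ∉ W} := by
      rintro _ ⟨a, ha, rfl⟩
      have ha' : a < n := by simpa using ha
      refine ⟨Pool.Agent.TH97.VR.smul_mem_walls hA.med hA.adj _ hB, ?_, ?_⟩
      · have h1 : h ^ n • x₀ ∈ h ^ n • B := Set.smul_mem_smul_set hx
        rcases Nat.lt_or_ge (a + 1) n with h2 | h2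
        · exact (hmono _ _ h2).subset h1
        · have h3 : n = a + 1 := by omega
          show h ^ n • x₀ ∈ h ^ (a + 1) • B
          rw [← h3]; exact h1
      · intro h1'
        have h1 : x₀ ∈ h ^ (a + 1) • B := h1'
        rcases Nat.eq_zero_or_pos a with rfl | h2
        · rw [zero_add, pow_one] at h1
          exact hx' h1
        · have h3 := (hmono 1 (a + 1) (by omega)).subset h1
          rw [pow_one] at h3
          exact hx' h3
    have h1 := Set.ncard_le_ncard hsub hfin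
    rw [Set.ncard_image_of_injective _ hinj, Set.ncard_coe_finset, Finset.card_range] at h1
    exact h1
  refine ⟨x₀, fun z => ?_⟩
  rcases Int.natAbs_eq z with h1 | h1
  · have h2 := key z.natAbs
    have e : h ^ z = h ^ z.natAbs := by rw [← zpow_natCast, ← h1]
    rw [e, SimpleGraph.dist_comm]
    exact h2
  · have h2 := key z.natAbs
    have h3 := dist_sm hA (h ^ z) x₀ (h ^ (z.natAbs) • x₀)
    have h4 : h ^ z • h ^ z.natAbs • x₀ = x₀ := by
      rw [smul_smul, ← zpow_natCast h z.natAbs, ← zpow_add]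
      have : z + (z.natAbs : ℤ) = 0 := by omega
      rw [this, zpow_zero, one_smul]
    rw [h4] at h3
    rw [SimpleGraph.dist_comm, h3, SimpleGraph.dist_comm]
    exact h2

theorem upper (hA : Act G Γ) (g : G) (x : V) (n : ℕ) :
    Γ.dist x (g ^ n • x) ≤ n * Γ.dist x (g • x) := by
  induction n with
  | zero => simp
  | succ n ih =>
    have h1 := hA.med.conn.dist_triangle (u := x) (v := g ^ n • x) (w := g ^ (n + 1) • x)
    have h2 := dist_sm hA (g ^ n) x (g • x)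
    rw [smul_smul, ← pow_succ] at h2
    rw [h2] at h1
    have : (n + 1) * Γ.dist x (g • x) = n * Γ.dist x (g • x) + Γ.dist x (g • x) := by ring
    omega

theorem upperZ (hA : Act G Γ) (g : G) (x : V) (z : ℤ) :
    Γ.dist x (g ^ z • x) ≤ z.natAbs * Γ.dist x (g • x) := by
  rcases Int.natAbs_eq z with h1 | h1
  · have := upper hA g x z.natAbs
    have e : g ^ z = g ^ z.natAbs := by rw [← zpow_natCast, ← h1]
    rw [e]
    exact this
  · have h2 := upper hA g x z.natAbs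
    have h3 := dist_sm hA (g ^ z) x (g ^ (z.natAbs) • x)
    have h4 : g ^ z • g ^ z.natAbs • x = x := by
      rw [smul_smul, ← zpow_natCast g z.natAbs, ← zpow_add]
      have : z + (z.natAbs : ℤ) = 0 := by omega
      rw [this, zpow_zero, one_smul]
    rw [h4, SimpleGraph.dist_comm] at h3
    rw [h3]
    exact h2

theorem bs_iter {γ h : G} {p q : ℤ} (e : γ * h ^ p * γ⁻¹ = h ^ q) (N : ℕ) :
    γ ^ N * h ^ (p ^ N) * (γ ^ N)⁻¹ = h ^ (q ^ N) := by
  induction N with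
  | zero => simp
  | succ N ih =>
    have h1 : γ ^ N * h ^ (p ^ (N + 1)) * (γ ^ N)⁻¹ = (h ^ (q ^ N)) ^ p := by
      rw [← ih, conj_zpow, ← zpow_mul, pow_succ]
    have h2 : γ ^ (N + 1) * h ^ (p ^ (N + 1)) * (γ ^ (N + 1))⁻¹ =
        γ * (γ ^ N * h ^ (p ^ (N + 1)) * (γ ^ N)⁻¹) * γ⁻¹ := by
      rw [pow_succ' γ N]; group
    rw [h2, h1, ← zpow_mul, mul_comm, zpow_mul, ← conj_zpow, e, ← zpow_mul, pow_succ, mul_comm]

theorem bs_le (hA : Act G Γ) {γ h : G} {B : Set V} (hB : B ∈ walls Γ) (hh : h • B ⊂ B) {p q : ℤ}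
    (hp : p ≠ 0) (e : γ * h ^ p * γ⁻¹ = h ^ q) : q.natAbs ≤ p.natAbs := by
  obtain ⟨x₀, hx⟩ := len hA hB hh
  refine num (D := Γ.dist x₀ (γ⁻¹ • x₀)) (E := Γ.dist x₀ (h • x₀)) (Int.natAbs_pos.2 hp)
    fun N => ?_
  have h1 := hx (q ^ N)
  rw [Int.natAbs_pow] at h1
  refine h1.trans ?_
  rw [← bs_iter e N]
  have h2 := dist_sm hA (γ ^ N)⁻¹ x₀ ((γ ^ N * h ^ (p ^ N) * (γ ^ N)⁻¹) • x₀)
  have h3 : (γ ^ N)⁻¹ • (γ ^ N * h ^ (p ^ N) * (γ ^ N)⁻¹) • x₀ =
      h ^ (p ^ N) • (γ ^ N)⁻¹ • x₀ := by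
    rw [smul_smul, smul_smul]; congr 1; group
  rw [h3] at h2
  rw [← h2]
  have t1 := hA.med.conn.dist_triangle (u := (γ ^ N)⁻¹ • x₀) (v := x₀)
    (w := h ^ (p ^ N) • (γ ^ N)⁻¹ • x₀)
  have t2 := hA.med.conn.dist_triangle (u := x₀) (v := h ^ (p ^ N) • x₀)
    (w := h ^ (p ^ N) • (γ ^ N)⁻¹ • x₀)
  have t3 := dist_sm hA (h ^ (p ^ N)) x₀ ((γ ^ N)⁻¹ • x₀)
  have t4 := upper hA γ⁻¹ x₀ N
  rw [inv_pow] at t4
  have t5 := upperZ hA h x₀ (p ^ N)
  rw [Int.natAbs_pow] at t5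
  have t6 : Γ.dist ((γ ^ N)⁻¹ • x₀) x₀ = Γ.dist x₀ ((γ ^ N)⁻¹ • x₀) := SimpleGraph.dist_comm
  have : 2 * N * Γ.dist x₀ (γ⁻¹ • x₀) = N * Γ.dist x₀ (γ⁻¹ • x₀) + N * Γ.dist x₀ (γ⁻¹ • x₀) := by
    ring
  omega

/-- The closing argument. -/
theorem closing (hA : Act G Γ) (hZ : NoZ2 G) {γ h : G} {A B : Set V} (hB : B ∈ walls Γ)
    (hhB : h • B ⊂ B) (hhA : h • A = A) (hγ : γ • A ⊂ A) {p q : ℤ}
    (e : γ * h ^ p * γ⁻¹ = h ^ q) : p = 0 ∧ q = 0 := by
  have h1 : ∀ z : ℤ, h ^ z = 1 → z = 0 := fun z hz => zpow_eq_zero hhB z (by rw [hz, one_smul])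
  have hpq : p = 0 ↔ q = 0 := by
    constructor
    · rintro rfl
      rw [zpow_zero, mul_one, mul_inv_cancel] at e
      exact h1 q e.symm
    · rintro rfl
      rw [zpow_zero] at e
      refine h1 p ?_
      have : γ * h ^ p = γ := by
        rw [mul_inv_eq_one] at e; exact e
      exact mul_eq_left.1 this
  by_contra hcon
  have hp : p ≠ 0 := fun hp => hcon ⟨hp, hpq.1 hp⟩
  have hq : q ≠ 0 := fun hq => hp (hpq.2 hq)
  have e' : γ⁻¹ * h ^ q * γ⁻¹⁻¹ = h ^ p := by rw [← e]; group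
  have hle1 := bs_le hA hB hhB hp e
  have hle2 := bs_le hA hB hhB hq e'
  have habs : q.natAbs = p.natAbs := le_antisymm hle1 hle2
  -- the power `n = |p|` commutes with `γ ^ 2`
  set n := p.natAbs with hn
  have hn0 : 0 < n := Int.natAbs_pos.2 hp
  have e2 : γ ^ 2 * h ^ p * (γ ^ 2)⁻¹ = h ^ p := by
    have e3 : γ ^ 2 * h ^ p * (γ ^ 2)⁻¹ = γ * (γ * h ^ p * γ⁻¹) * γ⁻¹ := by
      rw [pow_two]; group
    rw [e3, e]
    rcases Int.natAbs_eq_natAbs_iff.1 habs with h3 | h3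
    · rw [h3]; rw [h3] at e; exact e
    · rw [h3, zpow_neg, ← conj_inv, e, h3, zpow_neg, inv_inv]
  have hcomm : (γ ^ 2) * h ^ n = h ^ n * γ ^ 2 := by
    have e3 : γ ^ 2 * h ^ p = h ^ p * γ ^ 2 := by
      rwa [mul_inv_eq_iff_eq_mul] at e2
    rcases Int.natAbs_eq p with h4 | h4
    · rw [h4, zpow_natCast] at e3; exact e3
    · rw [h4, zpow_neg, zpow_natCast] at e3
      have : Commute (γ ^ 2) (h ^ n)⁻¹ := e3
      exact (Commute.inv_right_iff.1 this).eq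
  refine t_ZZ V G A B (h ^ n)⁻¹ (γ ^ 2) ?_ ?_ (pow_ssub hγ 2 (by omega)) ?_ hZ
  · have : Commute (γ ^ 2) (h ^ n) := hcomm
    exact (this.inv_right).eq.symm
  · have h3 : h ^ n ∈ MulAction.stabilizer G A :=
      (MulAction.stabilizer G A).pow_mem hhA n
    exact (MulAction.stabilizer G A).inv_mem h3
  · have := smul_ssub (h ^ n)⁻¹ (pow_ssub hhB n hn0)
    rwa [inv_smul_smul] at this

end Pool.Agent.Run7.h230.QF.Strip
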