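import Pool.Agent.Run7.h230.QF.STRIP2

/-!
# Common stabilisers of nested walls, part 3 (helper230)
-/

set_option autoImplicit false

namespace Pool.Agent.Run7.h230.QF.Strip

open Pool.Agent.H97R3.VR (IsMedian IsConvex Btw)
open Pool.Agent.TH97.VR (walls)
open Pool.Agent.Run7.h230.QF
open Pool.Agent.Run7.h847.QF
open Pointwise

variable {V G : Type} [Group G] [MulAction G V] {Γ : SimpleGraph V} {k : ℕ}

theorem Cross.smul {A B : Set V} (g : G) (h : Cross A B) : Cross (g • A) (g • B) := by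
  obtain ⟨⟨a, a1, a2⟩, ⟨b, b1, b2⟩, ⟨c, c1, c2⟩, ⟨d, d1, d2⟩⟩ := h
  refine ⟨⟨g • a, Set.smul_mem_smul_set a1, Set.smul_mem_smul_set a2⟩,
    ⟨g • b, Set.smul_mem_smul_set b1, fun h => b2 ((Set.smul_mem_smul_set_iff).1 h)⟩,
    ⟨g • c, fun h => c1 ((Set.smul_mem_smul_set_iff).1 h), Set.smul_mem_smul_set c2⟩,
    ⟨g • d, fun h => d1 ((Set.smul_mem_smul_set_iff).1 h),
      fun h => d2 ((Set.smul_mem_smul_set_iff).1 h)⟩⟩

theorem conj_zpow' (g q : G) (p : ℤ) : (g⁻¹ * q * g) ^ p = g⁻¹ * q ^ p * g := by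
  have := conj_zpow (a := g⁻¹) (b := q) (i := p)
  rwa [inv_inv] at this

theorem strip (hA : Act G Γ) (hZ : NoZ2 G) {N : ℕ} (hG : ¬ Grid Γ (k + 1) N)
    {f : (Fin k → ℤ) → V} (hf : IsFlat Γ f) {i i' : Fin k} (hne : i' ≠ i) (L : ℕ) :
    ∃ b : Fin k → ℤ, (∀ l, 0 ≤ b l) ∧ ∀ m : ℕ, ∃ x : Fin (m + 1) → G,
      (∀ s, ∀ l, l ≠ i' → ∀ j : ℤ, b l ≤ j → j ≤ b l + L → x s • HS Γ f l j = HS Γ f l j) ∧
      (∀ s t, IsConj (x s) (x t)) ∧
      (∀ s, ∃ B ∈ walls Γ, x s • B ⊂ B ∧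
        ∀ l, l ≠ i' → ∀ j : ℤ, b l ≤ j → j ≤ b l + L → Cross B (HS Γ f l j)) ∧
      ∀ s t, s ≠ t → ∀ p q : ℤ, x s ^ p = x t ^ q → p = 0 ∧ q = 0 := by
  classical
  obtain ⟨I, hI, hag⟩ := Run7.h590.QF.t_PIG V G Γ hA k f hf (L + 1) (fun n => Pi.single i (n : ℤ))
  obtain ⟨e, he, heI, hch⟩ := infinite_chain hA.med hG hf i hI
  have hsg : ∀ (u : ℕ) (l : Fin k), 0 ≤ (Pi.single i (u : ℤ) : Fin k → ℤ) l ∧
      (Pi.single i (u : ℤ) : Fin k → ℤ) l ≤ u := by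
    intro u l
    by_cases hl : l = i
    · subst hl; rw [Pi.single_eq_same]; omega
    · rw [Pi.single_eq_of_ne hl]; omega
  refine ⟨Pi.single i ((e 0 : ℕ) : ℤ), fun l => (hsg _ l).1, fun m => ?_⟩
  obtain ⟨n₁, n₂, q, -, hsub, hagq⟩ := t_MOV Run7.h590.QF.t_PIG V G Γ hA k N hG f hf i'
    (e m + L + 2)
  have hfix : ∀ l, l ≠ i' → ∀ j : ℤ, 0 ≤ j → j ≤ e m + L → q • HS Γ f l j = HS Γ f l j := by
    intro l hl j h0 h1
    have h2 := agree_HS hA hf hagq l j (by rw [abs_of_nonneg h0]; push_cast; omega)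
      (by rw [abs_of_nonneg (by omega)]; push_cast; omega)
    simpa [Pi.single_eq_of_ne hl] using h2
  have hmove : q • HS Γ f i' (n₁ : ℤ) = HS Γ f i' (n₂ : ℤ) := by
    have h2 := agree_HS hA hf hagq i' 0 (by rw [abs_zero]; positivity)
      (by rw [zero_add, abs_one]; push_cast; omega)
    simpa using h2
  choose g hg using fun s : Fin (m + 1) => hag (e 0) (heI 0) (e s) (heI s)
  have hgj : ∀ s, ∀ l, ∀ j : ℤ, 0 ≤ j → j ≤ L →
      g s • HS Γ f l (j + (Pi.single i ((e 0 : ℕ) : ℤ) : Fin k → ℤ) l) =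
        HS Γ f l (j + (Pi.single i ((e s : ℕ) : ℤ) : Fin k → ℤ) l) := by
    intro s l j h0 h1
    exact agree_HS hA hf (hg s) l j (by rw [abs_of_nonneg h0]; push_cast; omega)
      (by rw [abs_of_nonneg (by omega)]; push_cast; omega)
  have hgi : ∀ s, ∀ l, ∀ j : ℤ, 0 ≤ j → j ≤ L →
      (g s)⁻¹ • HS Γ f l (j + (Pi.single i ((e s : ℕ) : ℤ) : Fin k → ℤ) l) =
        HS Γ f l (j + (Pi.single i ((e 0 : ℕ) : ℤ) : Fin k → ℤ) l) := by
    intro s l j h0 h1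
    rw [← hgj s l j h0 h1, inv_smul_smul]
  have hle : ∀ s : Fin (m + 1), e s ≤ e m := fun s => he.monotone (by omega)
  refine ⟨fun s => (g s)⁻¹ * q * g s, ?_, ?_, ?_, ?_⟩
  · intro s l hl j h0 h1
    obtain ⟨j, rfl⟩ : ∃ j' : ℤ, j = j' + (Pi.single i ((e 0 : ℕ) : ℤ) : Fin k → ℤ) l :=
      ⟨j - (Pi.single i ((e 0 : ℕ) : ℤ) : Fin k → ℤ) l, by ring⟩
    have h2 := hle s
    have h3 := hsg (e s) l
    show ((g s)⁻¹ * q * g s) • HS Γ f l _ = _
    rw [mul_smul, mul_smul, hgj s l j (by omega) (by omega),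
      hfix l hl _ (by omega) (by omega), hgi s l j (by omega) (by omega)]
  · intro s t
    rw [isConj_iff]
    refine ⟨(g t)⁻¹ * g s, ?_⟩
    show (g t)⁻¹ * g s * ((g s)⁻¹ * q * g s) * ((g t)⁻¹ * g s)⁻¹ = (g t)⁻¹ * q * g t
    group
  · intro s
    refine ⟨(g s)⁻¹ • HS Γ f i' (n₁ : ℤ),
      Pool.Agent.TH97.VR.smul_mem_walls hA.med hA.adj _ (hf.wall i' _), ?_, ?_⟩
    · show ((g s)⁻¹ * q * g s) • (g s)⁻¹ • HS Γ f i' (n₁ : ℤ) ⊂ _
      rw [mul_smul, mul_smul, smul_inv_smul, hmove]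
      exact smul_ssub _ hsub
    · intro l hl j h0 h1
      obtain ⟨j, rfl⟩ : ∃ j' : ℤ, j = j' + (Pi.single i ((e 0 : ℕ) : ℤ) : Fin k → ℤ) l :=
        ⟨j - (Pi.single i ((e 0 : ℕ) : ℤ) : Fin k → ℤ) l, by ring⟩
      rw [← hgi s l j (by omega) (by omega)]
      exact Cross.smul _ (hf.cross (Ne.symm hl) _ _)
  · have key : ∀ s t : Fin (m + 1), s < t → ∀ p r : ℤ,
        ((g s)⁻¹ * q * g s) ^ p = ((g t)⁻¹ * q * g t) ^ r → p = 0 ∧ r = 0 := by
      intro s t hst p r hpr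
      rw [conj_zpow', conj_zpow'] at hpr
      have hst' : (s : ℕ) < (t : ℕ) := hst
      refine closing hA hZ (γ := g t * (g s)⁻¹) (h := q) (A := HS Γ f i (e s : ℤ))
        (B := HS Γ f i' (n₁ : ℤ)) (hf.wall i' _) (by rw [hmove]; exact hsub)
        (hfix i (Ne.symm hne) _ (by positivity) (by have := hle s; omega)) ?_ ?_
      · have h1 := hgi s i 0 le_rfl (by positivity)
        have h2 := hgj t i 0 le_rfl (by positivity)
        rw [Pi.single_eq_same, Pi.single_eq_same, zero_add, zero_add] at h1 h2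
        rw [mul_smul, h1, h2]
        exact hch _ _ hst'
      · have : g t * (g s)⁻¹ * q ^ p * (g t * (g s)⁻¹)⁻¹ =
            g t * ((g s)⁻¹ * q ^ p * g s) * (g t)⁻¹ := by group
        rw [this, hpr]
        group
    intro s t hst p r hpr
    rcases lt_or_gt_of_ne hst with h | h
    · exact key s t h p r hpr
    · exact (key t s h r p hpr.symm).symm

theorem orbits (hA : Act G Γ) {f : (Fin k → ℤ) → V} (hf : IsFlat Γ f) (i : Fin k) :
    (Set.range fun j : ℕ => MulAction.orbit G (HS Γ f i (j : ℤ))).Finite := by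
  classical
  by_contra hinf
  have hinf' : (Set.range fun j : ℕ => MulAction.orbit G (HS Γ f i (j : ℤ))).Infinite := hinf
  let e := hinf'.natEmbedding
  choose u hu using fun n => (e n).2
  obtain ⟨I, hI, hag⟩ := Run7.h590.QF.t_PIG V G Γ hA k f hf 1 (fun n => Pi.single i (u n : ℤ))
  obtain ⟨a, ha, b, hb, hab⟩ := hI.nontrivial
  obtain ⟨g, hg⟩ := hag a ha b hb
  have h2 := agree_HS hA hf hg i 0 (by simp) (by simp)
  have h3 : g • HS Γ f i (u a : ℤ) = HS Γ f i (u b : ℤ) := by simpa using h2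
  have h4 : MulAction.orbit G (HS Γ f i (u b : ℤ)) = MulAction.orbit G (HS Γ f i (u a : ℤ)) := by
    rw [← h3]
    exact MulAction.orbit_smul g _
  have h5 : (e b : Set (Set V)) = e a := by
    rw [← hu a, ← hu b]; exact h4
  exact hab (e.injective (Subtype.ext h5.symm))

/-- The conclusion for the half-spaces `A l` and a number `n`. -/
def Q (G : Type) [Group G] [MulAction G V] (Γ : SimpleGraph V) (f : (Fin k → ℤ) → V) (i : Fin k)
    (A : Fin k → Set V) (n : ℕ) : Prop :=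
  ∀ m : ℕ, ∃ (g : Fin k → Fin (n + 1) → G) (c : Fin k → Fin (n + 1) → ℤ) (x : Fin (m + 1) → G),
    (∀ l, l ≠ i → StrictMono (c l)) ∧
    (∀ l, l ≠ i → ∀ a, g l a • A l = HS Γ f l (c l a)) ∧
    (∀ l, l ≠ i → ∀ a b, a < b → HS Γ f l (c l b) ⊂ HS Γ f l (c l a)) ∧
    (∀ s, ∀ l, l ≠ i → ∀ a, x s • HS Γ f l (c l a) = HS Γ f l (c l a)) ∧
    (∀ s t, IsConj (x s) (x t)) ∧
    (∀ s, ∃ B ∈ walls Γ, x s • B ⊂ B ∧ ∀ l, l ≠ i → ∀ a, Cross B (HS Γ f l (c l a))) ∧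
    ∀ s t, s ≠ t → ∀ p q : ℤ, x s ^ p = x t ^ q → p = 0 ∧ q = 0

theorem Q.mono {f : (Fin k → ℤ) → V} {i : Fin k} {A : Fin k → Set V} {n n' : ℕ} (h : n ≤ n')
    (hQ : Q G Γ f i A n') : Q G Γ f i A n := by
  intro m
  obtain ⟨g, c, x, h0, h1, h2, h3, h4, h5, h6⟩ := hQ m
  refine ⟨fun l a => g l (Fin.castLE (by omega) a), fun l a => c l (Fin.castLE (by omega) a), x,
    fun l hl a b hab => h0 l hl hab, fun l hl a => h1 l hl _, fun l hl a b hab => h2 l hl _ _ hab,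
    fun s l hl a => h3 _ l hl _, h4, fun s => ?_, h6⟩
  obtain ⟨B, hB, hB1, hB2⟩ := h5 s
  exact ⟨B, hB, hB1, fun l hl a => hB2 l hl _⟩

theorem final (hA : Act G Γ) (hZ : NoZ2 G) {N : ℕ} (hG : ¬ Grid Γ (k + 1) N)
    {f : (Fin k → ℤ) → V} (hf : IsFlat Γ f) {i i' : Fin k} (hne : i' ≠ i) :
    ∃ j : Fin k → ℤ, ∀ n, Q G Γ f i' (fun l => HS Γ f l (j l)) n := by
  classical
  have hfin := fun l => orbits hA hf l
  let 𝒪 : Fin k → Set (Set (Set V)) := fun l =>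
    Set.range fun j : ℕ => MulAction.orbit G (HS Γ f l (j : ℤ))
  have hstep : ∀ n : ℕ, ∃ O : (l : Fin k) → 𝒪 l, ∀ A : Fin k → Set V,
      (∀ l, MulAction.orbit G (A l) = O l) → Q G Γ f i' A n := by
    intro n
    set L := ∑ l, (hfin l).toFinset.card * (n * (N + N)) with hL
    have hLl : ∀ l, (hfin l).toFinset.card * (n * (N + N)) ≤ L := fun l =>
      Finset.single_le_sum (f := fun l => (hfin l).toFinset.card * (n * (N + N)))
        (fun _ _ => Nat.zero_le _) (Finset.mem_univ l)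
    obtain ⟨b, hb0, hb⟩ := strip hA hZ hG hf hne L
    have hex : ∀ l, ∃ O : 𝒪 l, ∃ c : ℕ → ℤ, (∀ s ≤ n, b l ≤ c s ∧ c s ≤ b l + L ∧
        MulAction.orbit G (HS Γ f l (c s)) = O) ∧
        ∀ s t, s < t → t ≤ n → c s < c t ∧ HS Γ f l (c t) ⊂ HS Γ f l (c s) := by
      intro l
      have hTc : (Finset.Icc (b l) (b l + L)).card = L + 1 := by
        rw [Int.card_Icc]; omega
      have hmaps : ∀ j ∈ Finset.Icc (b l) (b l + L),
          MulAction.orbit G (HS Γ f l j) ∈ (hfin l).toFinset := by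
        intro j hj
        rw [Set.Finite.mem_toFinset]
        refine ⟨j.toNat, ?_⟩
        have h0 : 0 ≤ j := (hb0 l).trans (Finset.mem_Icc.1 hj).1
        show MulAction.orbit G (HS Γ f l ((j.toNat : ℕ) : ℤ)) = _
        rw [Int.toNat_of_nonneg h0]
      obtain ⟨O, hO, hOc⟩ := Finset.exists_lt_card_fiber_of_mul_lt_card_of_maps_to hmaps
        (n := n * (N + N)) (by rw [hTc]; have := hLl l; omega)
      obtain ⟨c, hc1, hc2⟩ := exists_chain hA.med hG hf l n _ hOc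
      refine ⟨⟨O, by simpa [𝒪] using hO⟩, c, fun s hs => ?_, hc2⟩
      have h1 := Finset.mem_filter.1 (hc1 s hs)
      have h2 := Finset.mem_Icc.1 h1.1
      exact ⟨h2.1, h2.2, h1.2⟩
    choose O c hc1 hc2 using hex
    refine ⟨O, fun A hAO m => ?_⟩
    obtain ⟨x, hx1, hx2, hx3, hx4⟩ := hb m
    have hcO : ∀ l, ∀ s ≤ n, ∃ g : G, g • A l = HS Γ f l (c l s) := by
      intro l s hs
      have h1 := (hc1 l s hs).2.2
      have h2 : HS Γ f l (c l s) ∈ MulAction.orbit G (A l) := by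
        rw [hAO l, ← h1]
        exact MulAction.mem_orbit_self _
      obtain ⟨g, hg⟩ := h2
      exact ⟨g, hg⟩
    choose g hg using fun (l : Fin k) (s : Fin (n + 1)) => hcO l s (by omega)
    refine ⟨g, fun l a => c l a, x, fun l _ a b' hab => (hc2 l a b' hab (by omega)).1,
      fun l _ => hg l, ?_, ?_, hx2, ?_, hx4⟩
    · intro l _ a b' hab
      exact (hc2 l a b' hab (by omega)).2
    · intro s l hl a
      have h1 := hc1 l a (by omega)
      exact hx1 s l hl _ h1.1 h1.2.1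
    · intro s
      obtain ⟨B, hB, hB1, hB2⟩ := hx3 s
      refine ⟨B, hB, hB1, fun l hl a => ?_⟩
      have h1 := hc1 l a (by omega)
      exact hB2 l hl _ h1.1 h1.2.1
  choose O hO using hstep
  have : ∀ l, Finite (𝒪 l) := fun l => hfin l
  obtain ⟨O₀, hinf⟩ := Finite.exists_infinite_fiber O
  choose j hj using fun l => (O₀ l).2
  refine ⟨fun l => (j l : ℤ), fun n => ?_⟩
  have hinf' : (O ⁻¹' {O₀}).Infinite := Set.infinite_coe_iff.1 hinf
  obtain ⟨n', hn', hlt⟩ := hinf'.exists_gt n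
  refine Q.mono hlt.le (hO n' _ fun l => ?_)
  have : O n' = O₀ := hn'
  rw [this]
  exact hj l

end Pool.Agent.Run7.h230.QF.Strip
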