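import Pool.Agent.Run7.h230.QF.Basic

/-!
# Project QF: statements of the pieces

Main theorem (`S_MAIN`): let `G` act geometrically on a CAT(0) cube complex (any dimension) with the
1-skeleton `Γ`. If `Γ` is not hyperbolic and `G` has no `ℤ²` then there is `k ≥ 2` such that there are
`k`-flats, no `(k+1)`-flats, and for every `k`-flat `f` and every `R` there are two limit flats of `f`
which agree on the cube of radius `R` and diverge at full speed in all directions.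

Conventions: `walls Γ` are the half-spaces. `Basic.lean` proves `IsFlat.side`, `.wall`, `.HS_inj`,
`.cross`, `.sep` (a half-space which separates two points of the flat is `HS` or the complement of
an `HS`), `.HS_shift`, `.HS_ng`, `.HS_smul`, `.HS_congr`. `TH97/VR/Walls.lean` proves `walls_sep`
(the distance is the number of the separating half-spaces), `wall_eq`, `wall_convex`,
`walls_compl`, `smul_mem_walls`. A piece `X` may use the others as hypotheses: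
prove `theorem x : S_A → S_B → S_X`.
-/

set_option autoImplicit false

namespace Pool.Agent.Run7.h230.QF

open Pool.Agent.H97R3.VR (IsMedian IsConvex Btw)
open Pool.Agent.TH97.VR (walls)
open Pointwise

/-! ## A. median graphs -/

/-- HEL (Helly property, 60 lines). For three convex sets: the median of points of the three
intersections. Induction on the number of sets: replace `A` by `A ∩ A₀` for one set `A₀`. -/
def S_HEL : Prop := ∀ (V : Type) (Γ : SimpleGraph V), IsMedian Γ → ∀ 𝒜 : Finset (Set V),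
  (∀ A ∈ 𝒜, IsConvex Γ A) → (∀ A ∈ 𝒜, ∀ B ∈ 𝒜, (A ∩ B).Nonempty) → ∃ v, ∀ A ∈ 𝒜, v ∈ A

/-- GATE (40 lines). `p` is a point of `C` with the minimal distance from `x`. If `c ∈ C`, `c ∉ A`,
the median of `x, p, c` is in `C` and between `x` and `p`, so it is `p`; but it is between `x` and
`c`, which are in the convex set `Aᶜ`. -/
def S_GATE : Prop := ∀ (V : Type) (Γ : SimpleGraph V), IsMedian Γ → ∀ C : Set V, IsConvex Γ C →
  C.Nonempty → ∀ x : V, ∃ p ∈ C, ∀ A ∈ walls Γ, x ∉ A → p ∈ A → C ⊆ A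

/-- BASE (150 lines, uses HEL, GATE). Families `𝒜 a` (`Sep Γ (𝒜 a) (x a) (y a)`).
`C a = ⋂ A`, `D a = ⋂ Aᶜ` (`A ∈ 𝒜 a`) are convex. By HEL `C a ∩ C b`, `C a ∩ D b` (`a ≠ b`) and
`X₀ = ⋂ D a` are nonempty. A half-space `u` is bad if it contains `C a` and `C b` for some `a ≠ b`.
By HEL a bad `u` meets `X₀` (for `A ∈ 𝒜 c` choose `a` or `b` different from `c`: `C a ∩ D c ⊆ u ∩ Aᶜ`),
and `X₀ ∩ u ∩ u'` is nonempty for two bad `u`, `u'`. Choose `x ∈ X₀` such that the number of the bad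
`u` with `x ∉ u` is minimal (it is finite: such `u` separate `x` from `y a`). It is zero: otherwise
let `u₀` be one and let `x'` be the gate (GATE) of `x` in `X₀ ∩ u₀`; if `u` is bad and `x ∈ u` then
`x' ∈ u`, since otherwise `X₀ ∩ u₀ ⊆ uᶜ`; so the number decreases. Now let `y a` be the gate of `x`
in `C a`. If `x ∉ A`, `y a ∈ A` then `C a ⊆ A`; if `x ∉ B`, `y b ∈ B` then `C b ⊆ B`; `A`, `B` are not
bad as `x` is in all bad ones, so `C a ⊄ B`, `C b ⊄ A`: they cross. -/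
def S_BASE : Prop := ∀ (V : Type) (Γ : SimpleGraph V), IsMedian Γ → ∀ m N : ℕ, Grid Γ m N →
  ∃ (x : V) (y : Fin m → V), (∀ a, N ≤ Γ.dist x (y a)) ∧ ∀ a b, a ≠ b → ∀ A ∈ walls Γ,
    ∀ B ∈ walls Γ, x ∉ A → y a ∈ A → x ∉ B → y b ∈ B → Cross A B

/-- PROD (130 lines, uses HEL, GATE). Let `γ a n` be the points of a geodesic from `x` to `y a`,
`U a n = {A ∈ walls | x ∉ A, γ a n ∈ A}`: `n` elements, increasing in `n`, and `U a n`, `U b n'` are
disjoint for `a ≠ b` (a set does not cross itself). Let `U z = ⋃ U a (z a)`: its members intersect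
pairwise, so `K z = ⋂ U z` is nonempty (HEL); `F z` is the gate of `x` in `K z`. Then
`{A | x ∉ A, F z ∈ A} = U z`: if `A` is in the left side then `K z ⊆ A`, so by HEL some `H ∈ U z` is
disjoint from `Aᶜ`, i.e. `H ⊆ A`, thus `γ a (z a) ∈ A`. So the distance of `F z` and `F w` is
`|U z \ U w| + |U w \ U z|`. -/
def S_PROD : Prop := ∀ (V : Type) (Γ : SimpleGraph V), IsMedian Γ → ∀ (m N : ℕ) (x : V)
  (y : Fin m → V), (∀ a, N ≤ Γ.dist x (y a)) → (∀ a b, a ≠ b → ∀ A ∈ walls Γ, ∀ B ∈ walls Γ,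
    x ∉ A → y a ∈ A → x ∉ B → y b ∈ B → Cross A B) → Box Γ m N

/-- LIM (80 lines). Compactness: translate the boxes of size `2 N` (centred at `(N, …, N)`) so that
the image of the centre is in the finite set `K`; limit of a subsequence (`Pool.Agent.N47.SQ.cluster`
in `N47/SQ/Sys.lean`, for the countable index set `Fin m → ℤ`). -/
def S_LIM : Prop := ∀ (V G : Type) [Group G] [MulAction G V] (Γ : SimpleGraph V), Act G Γ →
  ∀ m : ℕ, (∀ N, Box Γ m N) → ∃ f : (Fin m → ℤ) → V, IsFlat Γ f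

/-- HYP (100 lines). If the four point condition fails for `δ = 2 N` then, counting the half-spaces
which contain `x` by the subset of `{y, z, w}` which they contain, more than `N` of them contain
`x, y` and not `z, w`, and more than `N` contain `x, w` and not `y, z`. They cross. -/
def S_HYP : Prop := ∀ (V : Type) (Γ : SimpleGraph V), IsMedian Γ → ¬ Hyp Γ → ∀ N, Grid Γ 2 N

/-- FG (30 lines). The half-spaces `HS Γ f a l`, `0 ≤ l < N`. -/
def S_FG : Prop := ∀ (V : Type) (Γ : SimpleGraph V), IsMedian Γ → ∀ (m : ℕ)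
  (f : (Fin m → ℤ) → V), IsFlat Γ f → ∀ N, Grid Γ m N

/-- DIM (60 lines, uses BASE, PROD). A box of size one and dimension `m` has a vertex with `m`
neighbours; the degrees are bounded. -/
def S_DIM : Prop := ∀ (V G : Type) [Group G] [MulAction G V] (Γ : SimpleGraph V), Act G Γ →
  ∃ d : ℕ, ∀ m, d ≤ m → ¬ Grid Γ m 1

/-- RANK (40 lines, uses HYP, DIM, BASE, PROD, LIM, FG). `k` is the maximal number such that
`Grid Γ k N` for all `N`. -/
def S_RANK : Prop := ∀ (V G : Type) [Group G] [MulAction G V] (Γ : SimpleGraph V), Act G Γ →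
  ¬ Hyp Γ → ∃ k : ℕ, 2 ≤ k ∧ (∃ f : (Fin k → ℤ) → V, IsFlat Γ f) ∧
    (¬ ∃ f : (Fin (k + 1) → ℤ) → V, IsFlat Γ f) ∧ ∃ N, ¬ Grid Γ (k + 1) N

/-! ## B. walls of pairs of flats -/

/-- GR (80 lines). Otherwise `A₀` (index `0`), `A₁` (index `i + 1`) and the half-spaces `HS Γ f i' l`,
`0 ≤ l < N` (index `i' + 1`, `i' ≠ i`) would form a `Grid Γ (k + 1) N`; the finite set `A₁` of
half-spaces `HS Γ f i j` separates two points of the line. -/
def S_GR : Prop := ∀ (V : Type) (Γ : SimpleGraph V), IsMedian Γ → ∀ k N : ℕ, ¬ Grid Γ (k + 1) N →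
  ∀ f : (Fin k → ℤ) → V, IsFlat Γ f → ∀ (i : Fin k) (A₀ A₁ : Finset (Set V)),
    (∃ x y, Sep Γ A₀ x y) → (∀ B ∈ A₁, ∃ j : ℤ, B = HS Γ f i j) →
    (∀ A ∈ A₀, ∀ B ∈ A₁, Cross A B) →
    (∀ A ∈ A₀, ∀ i', i' ≠ i → ∀ l : ℤ, 0 ≤ l → l < N → Cross A (HS Γ f i' l)) →
    A₀.card < N ∨ A₁.card < N

/-- COF (70 lines, uses GR). If `N` of the walls `j ≥ 0` of `f₁` do not cut `f₂`, i.e. `f₂` is in the
complements of the `HS Γ f₁ i j` (as `f₂ 0 = f₁ 0` is), take `N` larger `u` such that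
`HS Γ f₁ i u` cuts `f₂` (`¬ Bdd`). Then `HS Γ f₁ i j` and `HS Γ f₁ i u` cross: `f₂` has a point in
`HS u` and not in `HS j`, and the other three intersections contain points of `f₁`. -/
def S_COF : Prop := ∀ (V : Type) (Γ : SimpleGraph V), IsMedian Γ → ∀ k N : ℕ,
  ¬ Grid Γ (k + 1) N → ∀ f₁ f₂ : (Fin k → ℤ) → V, IsFlat Γ f₁ → IsFlat Γ f₂ → f₁ 0 = f₂ 0 →
    ∀ i : Fin k, ¬ Bdd Γ i f₁ f₂ → {j : ℤ | 0 ≤ j ∧ ¬ Cut (HS Γ f₁ i j) f₂}.Finite ∧
      {j : ℤ | 0 ≤ j ∧ ¬ Cut (HS Γ f₁ i j) f₂}.ncard < N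

/-- DIR (130 lines, uses GR). Let `w = HS Γ f₁ i j`, `j ≥ 0`, cut `f₂`; by `IsFlat.sep` `w` is
`HS Γ f₂ i' l'` with `l' ≥ 0` or `(HS Γ f₂ i' l')ᶜ` with `l' < 0` (look at `f₁ 0 = f₂ 0 ∉ w`). If
`i' ≠ i` then `w` crosses `HS Γ f₁ i' l = HS Γ f₂ i' l` for `0 ≤ l < N` (direction `i` against
direction `i'` of `f₁`), so GR for `f₂` and the direction `i'` shows that there are fewer than `N` such
`w` for each `i'`. If `i' = i` and `w = (HS Γ f₂ i l')ᶜ`, `l' < 0`, then `l' < -N` and `j ≥ N` (else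
`w` would be a half-space of both flats in the common cube) and `w` crosses `HS Γ f₂ i l`,
`0 ≤ l < N`: the four intersections contain `f₁ 0`, `f₁ ((l+1) e)`, `f₁ ((j+1) e)`, `f₂ (l' e)`; again
there are fewer than `N` such `w`. -/
def S_DIR : Prop := ∀ (V : Type) (Γ : SimpleGraph V), IsMedian Γ → ∀ k N : ℕ,
  ¬ Grid Γ (k + 1) N → ∀ f₁ f₂ : (Fin k → ℤ) → V, IsFlat Γ f₁ → IsFlat Γ f₂ → Agree f₁ f₂ N →
    ∀ i : Fin k,
      {j : ℤ | 0 ≤ j ∧ Cut (HS Γ f₁ i j) f₂ ∧ ∀ t : ℤ, 0 ≤ t → HS Γ f₁ i j ≠ HS Γ f₂ i t}.Finite ∧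
      {j : ℤ | 0 ≤ j ∧ Cut (HS Γ f₁ i j) f₂ ∧
        ∀ t : ℤ, 0 ≤ t → HS Γ f₁ i j ≠ HS Γ f₂ i t}.ncard ≤ 2 * k * N

/-- SYM (40 lines, uses DIR). Infinitely many `HS Γ f₁ i j`, `j ≥ 0`, cut `f₂`, so infinitely many are
equal to some `HS Γ f₂ i t`, `t ≥ 0` (different `t`), and these cut `f₁`. -/
def S_SYM : Prop := ∀ (V : Type) (Γ : SimpleGraph V), IsMedian Γ → ∀ k N : ℕ,
  ¬ Grid Γ (k + 1) N → ∀ f₁ f₂ : (Fin k → ℤ) → V, IsFlat Γ f₁ → IsFlat Γ f₂ → Agree f₁ f₂ N →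
    ∀ i : Fin k, ¬ Bdd Γ i f₁ f₂ → ¬ Bdd Γ i f₂ f₁

/-- TRA (60 lines, uses SYM, COF, DIR). By SYM and COF all but finitely many `HS Γ f₃ i t`, `t ≥ 0`, cut
`f₁` and `f₂`; by DIR (for `f₃`, `f₁`) all but finitely many of them are `HS Γ f₁ i j`, `j ≥ 0`. -/
def S_TRA : Prop := ∀ (V : Type) (Γ : SimpleGraph V), IsMedian Γ → ∀ k N : ℕ,
  ¬ Grid Γ (k + 1) N → ∀ f₁ f₂ f₃ : (Fin k → ℤ) → V, IsFlat Γ f₁ → IsFlat Γ f₂ → IsFlat Γ f₃ →
    Agree f₁ f₃ N → Agree f₂ f₃ N → ∀ i : Fin k, ¬ Bdd Γ i f₁ f₃ → ¬ Bdd Γ i f₂ f₃ →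
      ¬ Bdd Γ i f₁ f₂

/-- OPEN (50 lines, uses COF). If `HS Γ h₁ i j` does not cut `h₂` for `j ≥ s ≥ 0` take
`S = s + N + 1`: for `s ≤ j < s + N` the half-space `HS Γ f i j = HS Γ h₁ i j` does not cut `h₂`, so COF
gives `Bdd Γ i f h₂`. -/
def S_OPEN : Prop := ∀ (V : Type) (Γ : SimpleGraph V), IsMedian Γ → ∀ k N : ℕ,
  ¬ Grid Γ (k + 1) N → ∀ h₁ h₂ : (Fin k → ℤ) → V, IsFlat Γ h₁ → IsFlat Γ h₂ → h₁ 0 = h₂ 0 →
    ∀ i : Fin k, Bdd Γ i h₁ h₂ → ∃ S : ℕ, ∀ f, IsFlat Γ f → Agree f h₁ S → Bdd Γ i f h₂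

/-- COMM (40 lines, uses COF, DIR). -/
def S_COMM : Prop := ∀ (V : Type) (Γ : SimpleGraph V), IsMedian Γ → ∀ k N : ℕ,
  ¬ Grid Γ (k + 1) N → ∀ f₁ f₂ : (Fin k → ℤ) → V, IsFlat Γ f₁ → IsFlat Γ f₂ → Agree f₁ f₂ N →
    ∀ i : Fin k, ¬ Bdd Γ i f₁ f₂ →
      (WP Γ f₁ i \ WP Γ f₂ i).Finite ∧ (WP Γ f₁ i \ WP Γ f₂ i).ncard ≤ (2 * k + 1) * N

/-- DIV (120 lines). For each direction let the walls with `j ≥ s` (for `ng`: also) not cut `f₂`. The
half-spaces `HS Γ f₁ i j`, `s ≤ j < z i`, contain `f₁ z` and no `f₂ w` (as `f₂ 0 = f₁ 0` is not in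
them); the same for the negative directions (`IsFlat.HS_ng`). They are different, so
`dist (f₁ z) (f₂ w) ≥ ∑ |z i| - 2 k s`. -/
def S_DIV : Prop := ∀ (V : Type) (Γ : SimpleGraph V), IsMedian Γ → ∀ (k : ℕ)
  (f₁ f₂ : (Fin k → ℤ) → V), IsFlat Γ f₁ → IsFlat Γ f₂ → f₁ 0 = f₂ 0 →
    (∀ i b, Bd Γ i b f₁ f₂) → ∃ C : ℤ, ∀ z w : Fin k → ℤ, ∑ i, |z i| ≤ Γ.dist (f₁ z) (f₂ w) + C

/-! ## C. families of flats -/

/-- ORB (60 lines; compare `N47/SQ/Sys.lean`). -/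
def S_ORB : Prop := ∀ (V G : Type) [Group G] [MulAction G V] (Γ : SimpleGraph V), Act G Γ →
  ∀ (k : ℕ) (f : (Fin k → ℤ) → V), IsFlat Γ f → Sys G Γ (Orb G f) ∧ f ∈ Orb G f

/-- MIN (100 lines; compare `Sys.exists_min` in `N47/SQ/Sys.lean`). -/
def S_MIN : Prop := ∀ (V G : Type) [Group G] [MulAction G V] (Γ : SimpleGraph V), Act G Γ →
  ∀ (k : ℕ) (L : Set ((Fin k → ℤ) → V)), Sys G Γ L → L.Nonempty →
    ∃ L' ⊆ L, IsMin G Γ L' ∧ L'.Nonempty

/-- REC (100 lines; compare `IsMin.recur` in `N47/SQ/Sys.lean`). Uniform recurrence. Otherwise for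
all `ρ` there are `h`, `p` in `L` without a copy; the patterns of radius `S` are finitely many up to
`G`, so `p` may be taken independent of `ρ` (for infinitely many `ρ`), and a limit of the `h`
(translated by elements of `G` so that `h 0` is in the finite set) would contain no copy of `p`. -/
def S_REC : Prop := ∀ (V G : Type) [Group G] [MulAction G V] (Γ : SimpleGraph V), Act G Γ →
  ∀ (k : ℕ) (L : Set ((Fin k → ℤ) → V)), IsMin G Γ L → ∀ S : ℕ, ∃ ρ : ℕ, ∀ h ∈ L, ∀ p ∈ L,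
    ∃ (g : G) (b : Fin k → ℤ), (∀ i, |b i| ≤ (ρ : ℤ)) ∧
      Agree (fun z => h (z + b)) (fun z => g • p z) S

/-- PIG (60 lines). Pigeonhole: the patterns of radius `R` are finitely many up to `G`. -/
def S_PIG : Prop := ∀ (V G : Type) [Group G] [MulAction G V] (Γ : SimpleGraph V), Act G Γ →
  ∀ (k : ℕ) (f : (Fin k → ℤ) → V), IsFlat Γ f → ∀ (R : ℕ) (p : ℕ → Fin k → ℤ),
    ∃ I : Set ℕ, I.Infinite ∧ ∀ n ∈ I, ∀ m ∈ I, ∃ g : G,
      Agree (fun z => g • f (z + p n)) (fun z => f (z + p m)) R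

/-- NEG (30 lines). -/
def S_NEG : Prop := ∀ (V G : Type) [Group G] [MulAction G V] (Γ : SimpleGraph V) (k : ℕ)
  (L : Set ((Fin k → ℤ) → V)), Sys G Γ L → Sys G Γ (ng '' L)

/-! ## D. group elements -/

/-- IDX (60 lines). Relative index. -/
def S_IDX : Prop := ∀ (S : Type) (X Y Z : Set S), Cm X Y → Cm Y Z →
  Cm X Z ∧ ind X Z = ind X Y + ind Y Z

/-- FXG (60 lines, uses IDX): the elements with `Fx` form a group and `tau` is a homomorphism. -/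
def S_FXG : Prop := ∀ (V G : Type) [Group G] [MulAction G V] (Γ : SimpleGraph V) (N k : ℕ)
  (f : (Fin k → ℤ) → V) (i : Fin k) (g h : G), Fx Γ N f i g → Fx Γ N f i h →
    Fx Γ N f i (g * h) ∧ tau Γ f i (g * h) = tau Γ f i g + tau Γ f i h ∧
      Fx Γ N f i g⁻¹ ∧ tau Γ f i g⁻¹ = -tau Γ f i g

/-- DISP (200 lines, uses GR, IDX). Let `W t = {HS Γ f i j | t ≤ j}`. For large `t`,
`W t ⊆ g • WP` and `g • W t ⊆ WP` (`Cm`). Let `x = g • f (t e)`, `y = f (t e)` and let `A` be a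
half-space with `x ∈ A`, `y ∉ A`.
(b) If some `f (s e)`, `s ≥ t`, is in `A` then (`IsFlat.sep`) `A = HS Γ f i j`, `j ≥ t`, and
`A = g • HS Γ f i j'`, `0 ≤ j' < t`, as `x ∈ A`. These `A` are exactly `B₁ = W t \ g • W t`.
(b') If some `g • f (s e)`, `s ≥ t`, is not in `A` then `Aᶜ = g • HS Γ f i j'`, `j' ≥ t`, and
`Aᶜ = HS Γ f i j`, `0 ≤ j < t`. These `Aᶜ` are exactly `B₂ = g • W t \ W t`.
`|B₁| - |B₂| = ind (W t) (g • W t) = -t + tau + t = 0` (IDX), and all members of `B₁` cross all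
members of `B₂` (`f 0`-side, far side, `x`, `y`), so both have fewer than `N` members by GR.
(a) Otherwise the ray `g • f (s e)` is in `A` and the ray `f (s e)` is in `Aᶜ` (`s ≥ t`). Such `A` cross
the infinitely many members of `W t ∩ g • W t`, and they cross `HS Γ f i' l` (`i' ≠ i`, `0 ≤ l < N`):
this half-space is fixed by `g`, it contains neither `x` nor `y`, and it contains `f (t e + (l+1) e')`,
which is in `Aᶜ`, and `g • f (t e + (l+1) e')`, which is in `A` (otherwise by `IsFlat.sep` `A` or `Aᶜ`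
would be one of the half-spaces `HS Γ f i' m = g • HS Γ f i' m`, `0 ≤ m ≤ l`, which do not separate `x`
and `y`). By GR there are fewer than `N` such `A`. So `dist x y ≤ 3 N` (`walls_sep`). -/
def S_DISP : Prop := ∀ (V G : Type) [Group G] [MulAction G V] (Γ : SimpleGraph V), Act G Γ →
  ∀ k N : ℕ, ¬ Grid Γ (k + 1) N → ∀ f : (Fin k → ℤ) → V, IsFlat Γ f → ∀ (i : Fin k) (g : G),
    Fx Γ N f i g → tau Γ f i g = 0 →
      ∃ t₀ : ℤ, ∀ t, t₀ ≤ t → Γ.dist (g • f (Pi.single i t)) (f (Pi.single i t)) ≤ 3 * N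

/-- KER (60 lines). -/
def S_KER : Prop := ∀ (V G : Type) [Group G] [MulAction G V] (Γ : SimpleGraph V), Act G Γ →
  ∀ C : ℕ, ∃ M : ℕ, ∀ v : V, {g : G | Γ.dist (g • v) v ≤ C}.Finite ∧
    {g : G | Γ.dist (g • v) v ≤ C}.ncard ≤ M

/-- CP (80 lines, uses FXG, DISP, KER). `u = g ^ tau h`, `v = h ^ tau g`, `c n = u ^ n * v⁻¹ ^ n` for
`n = 0, …, M` satisfies `Fx`, `tau = 0`; for large `t` all of them move `f (t e)` by at most `3 N`, so
two of them are equal. -/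
def S_CP : Prop := ∀ (V G : Type) [Group G] [MulAction G V] (Γ : SimpleGraph V), Act G Γ →
  ∀ k N : ℕ, ¬ Grid Γ (k + 1) N → ∀ f : (Fin k → ℤ) → V, IsFlat Γ f → ∀ (i : Fin k) (g h : G),
    Fx Γ N f i g → Fx Γ N f i h → tau Γ f i g ≠ 0 → tau Γ f i h ≠ 0 →
      ∃ a b : ℤ, a ≠ 0 ∧ b ≠ 0 ∧ g ^ a = h ^ b

/-- `L` is determined in the direction `i` from cubes of radius `R`. -/
def Det {V : Type} {k : ℕ} (Γ : SimpleGraph V) (L : Set ((Fin k → ℤ) → V)) (i : Fin k) (R : ℕ) :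
    Prop := ∀ f₁ ∈ L, ∀ f₂ ∈ L, Agree f₁ f₂ R → ¬ Bdd Γ i f₁ f₂

/-- ELT (120 lines, uses PIG, COMM, IDX). PIG for the points `x + n e`: there are `t₁`, `t₂` with
`t₂ - t₁ > (2 k + 1) N` and `g` with `g • f (z + x + t₁ e) = f (z + x + t₂ e)` on the cube of radius
`R`. So `g • HS Γ f i' l = HS Γ f i' l` for `i' ≠ i`, `x i' - R ≤ l < x i' + R` (`IsFlat.HS_congr`).
By `Det` and COMM (both orders) `g • W t₁` and `W t₂` differ by at most `(2 k + 1) N` elements on both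
sides (`W t = {HS Γ f i j | t ≤ j}`), so `tau = t₂ - t₁ + ind (W t₂) (g • W t₁) > 0`. -/
def S_ELT : Prop := ∀ (V G : Type) [Group G] [MulAction G V] (Γ : SimpleGraph V), Act G Γ →
  ∀ k N : ℕ, ¬ Grid Γ (k + 1) N → ∀ L : Set ((Fin k → ℤ) → V), Sys G Γ L → ∀ (i : Fin k) (R : ℕ),
    N + 1 ≤ R → Det Γ L i R → ∀ f ∈ L, ∀ x : Fin k → ℤ, x i = 0 → ∃ g : G, tau Γ f i g ≠ 0 ∧
      ∀ x' : Fin k → ℤ, x' i = 0 → (∀ i', |x' i' - x i'| ≤ 1) →
        Fx Γ N (fun z => f (z + x')) i g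

/-- MOV (70 lines, uses PIG, GR). PIG for the points `n e₂`. If all half-spaces `HS Γ f i₂ n`, `n ∈ I`,
cross pairwise, then the first `N` and the next `N` of them contradict GR. -/
def S_MOV : Prop := ∀ (V G : Type) [Group G] [MulAction G V] (Γ : SimpleGraph V), Act G Γ →
  ∀ k N : ℕ, ¬ Grid Γ (k + 1) N → ∀ f : (Fin k → ℤ) → V, IsFlat Γ f → ∀ (i₂ : Fin k) (R : ℕ),
    ∃ (n₁ n₂ : ℕ) (q : G), n₁ < n₂ ∧ HS Γ f i₂ n₂ ⊂ HS Γ f i₂ n₁ ∧
      Agree (fun z => q • f (z + Pi.single i₂ (n₁ : ℤ))) (fun z => f (z + Pi.single i₂ (n₂ : ℤ))) R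

/-- CNJ (100 lines, uses IDX, FXG, COMM). `q` as in MOV. `Cm (WP Γ f i) (q • WP Γ f i)` by `Det` and COMM
(both orders), and `q • HS Γ (f (· + n₁ e₂)) i' l = HS Γ (f (· + n₂ e₂)) i' l` for `0 ≤ l < N`
(`IsFlat.HS_congr`). -/
def S_CNJ : Prop := ∀ (V G : Type) [Group G] [MulAction G V] (Γ : SimpleGraph V), Act G Γ →
  ∀ k N : ℕ, ¬ Grid Γ (k + 1) N → ∀ L : Set ((Fin k → ℤ) → V), Sys G Γ L →
    ∀ (i i₂ : Fin k) (R : ℕ), i₂ ≠ i → N + 1 ≤ R → Det Γ L i R → ∀ f ∈ L, ∀ (n₁ n₂ : ℤ) (q : G),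
      Agree (fun z => q • f (z + Pi.single i₂ n₁)) (fun z => f (z + Pi.single i₂ n₂)) R →
      q • HS Γ f i₂ n₁ = HS Γ f i₂ n₂ ∧
      ∀ g : G, Fx Γ N (fun z => f (z + Pi.single i₂ n₁)) i g →
        Fx Γ N (fun z => f (z + Pi.single i₂ n₂)) i (q * g * q⁻¹) ∧
        tau Γ f i (q * g * q⁻¹) = tau Γ f i g

/-- DET (150 lines, uses ELT, MOV, CNJ, CP, FXG). Suppose `Det Γ L i R`, `R ≥ N + 1` (it holds for all
larger `R`), `f ∈ L`, `i₂ ≠ i`. Let `g n` be the element of ELT for `x = n e₂`. By CP (for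
`f (· + (n+1) e₂)`; `tau` is the same for `f` and its shifts with `x i = 0`) `g n` and `g (n + 1)` have a
common power with nonzero exponents, so all `g n`, `g m` do. Let `q` be as in MOV. By CNJ
`q g(n₁) q⁻¹` and `g(n₂)` have a common power (CP), so `(q g q⁻¹) ^ a = g ^ b` for `g = g(n₁)`; as
`tau` is invariant, `a = b` and `q` commutes with `z = g ^ a`. `z` fixes `P = HS Γ f i₂ n₁` and
`q • P = HS Γ f i₂ n₂ ⊂ P`, so `z ^ m * q ^ n = 1` implies `n = 0`, and then `m = 0` by `tau`. -/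
def S_DET : Prop := ∀ (V G : Type) [Group G] [MulAction G V] (Γ : SimpleGraph V), Act G Γ →
  NoZ2 G → ∀ k N : ℕ, 2 ≤ k → ¬ Grid Γ (k + 1) N → ∀ L : Set ((Fin k → ℤ) → V), Sys G Γ L →
    L.Nonempty → ∀ (i : Fin k) (R : ℕ), ¬ Det Γ L i R

/-! ## E. the proof of the theorem -/

/-- COPY (150 lines, uses REC, OPEN, TRA). Induction on a finite set `D` of directions `(i, b)`: for
every `R` there are `f₁`, `f₂ ∈ L` which agree on the cube of radius `R` with `Bd Γ i b f₁ f₂` for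
`(i, b) ∈ D`. Step from `D` to `D ∪ {(i₀, b₀)}`, `R ≥ N`: let `(h₁, h₂)` be a pair for `D` and `R`, and
let `S ≥ R` be larger than the numbers of OPEN for the directions in `D`, `ρ` as in REC for `S`, and
let `(H₁, H₂)` be a pair which agrees on the cube of radius `ρ + S` with `Bd Γ i₀ b₀ H₁ H₂`. By REC
`H₁ (z + b) = g • h₁ z` on the cube of radius `S`, `|b| ≤ ρ`. The pairs
`(H₁ (· + b), g • h₂)` and `(H₂ (· + b), g • h₂)` agree on the cube of radius `R` and have the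
property `Bd` for `D` (OPEN), and one of them has it for `(i₀, b₀)` (TRA, because
`Bd Γ i₀ b₀ (H₁ (· + b)) (H₂ (· + b))`). `Bd` is invariant under `G` and shifts (`IsFlat.HS_shift`,
`IsFlat.HS_smul`); for `b = false` apply OPEN and TRA to `ng`. -/
def S_COPY : Prop := ∀ (V G : Type) [Group G] [MulAction G V] (Γ : SimpleGraph V), Act G Γ →
  ∀ k N : ℕ, ¬ Grid Γ (k + 1) N → ∀ L : Set ((Fin k → ℤ) → V), IsMin G Γ L → L.Nonempty →
    (∀ (i : Fin k) (b : Bool) (R : ℕ), ∃ f₁ ∈ L, ∃ f₂ ∈ L, Agree f₁ f₂ R ∧ Bd Γ i b f₁ f₂) →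
    ∀ R : ℕ, ∃ f₁ ∈ L, ∃ f₂ ∈ L, Agree f₁ f₂ R ∧ ∀ i b, Bd Γ i b f₁ f₂

/-- MAIN (80 lines, uses RANK, ORB, MIN, NEG, DET, COPY, DIV). -/
def S_MAIN : Prop := ∀ (V G : Type) [Group G] [MulAction G V] (Γ : SimpleGraph V), Act G Γ →
  NoZ2 G → ¬ Hyp Γ → ∃ k : ℕ, 2 ≤ k ∧ (∃ f : (Fin k → ℤ) → V, IsFlat Γ f) ∧
    (¬ ∃ f : (Fin (k + 1) → ℤ) → V, IsFlat Γ f) ∧ ∀ f : (Fin k → ℤ) → V, IsFlat Γ f →
      ∀ R : ℕ, ∃ h₁ ∈ Orb G f, ∃ h₂ ∈ Orb G f, h₁ ∈ Orb G h₂ ∧ h₂ ∈ Orb G h₁ ∧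
        IsFlat Γ h₁ ∧ IsFlat Γ h₂ ∧ Agree h₁ h₂ R ∧
        ∃ C : ℤ, ∀ z w : Fin k → ℤ, ∑ i, |z i| ≤ Γ.dist (h₁ z) (h₂ w) + C

end Pool.Agent.Run7.h230.QF
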