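import Pool.Agent.Run7.h230.QF.Stm

/-!
# Project QF, phase 2: complexity of tubes

Main theorem (`S_TUBE`): let `G` act geometrically on a CAT(0) cube complex of dimension at most `k`,
`k ≥ 2`, with the 1-skeleton `Γ`, and let `G` have no `ℤ²`. Then for every `k`-flat `f`, every direction
`i` and every sufficiently large width `n` the number of tubes of width `n` and length `m` of `f`, up to
`G`, grows faster than linearly in `m`. Second theorem (`S_BXF`): for every `R` there are two limit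
flats of `f` whose intersection is exactly a finite box with sides at least `R`.

All pieces of phase 1 are proved and may be imported: `t_GR` (`h230/QF/GR.lean`), `t_REC`, `t_PIG`,
`t_ORB`, `t_MIN`, `sys_orb`, `cluster`, `ball_fin`, `win_finite` (`h590/QF/FAM.lean`, namespace
`Run7.h590.QF`), `t_DET` (`h228/QF/DET.lean`), `t_COPY` (`h510/QF/COPY.lean`). A piece `X` may use the
other pieces of this file as hypotheses: prove `theorem t_X : S_A → S_B → S_X`.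
`Basic.lean` proves `IsFlat.side` (`f z ∈ HS Γ f i j ↔ j < z i`), `.sep`, `.HS_inj`, `.cross`,
`.HS_shift`, `.HS_ng`, `.HS_smul`, `.HS_congr`, `.wall`, `.shift`, `.ng`, `.smul`, `.inj`.
-/

set_option autoImplicit false

namespace Pool.Agent.Run7.h230.QF

open Pool.Agent.H97R3.VR (IsMedian IsConvex Btw)
open Pool.Agent.TH97.VR (walls)
open Pointwise

section
variable {V : Type} {k : ℕ}

/-- The window of width `n` and depth `m`. -/
def Wd (i : Fin k) (n m : ℕ) : Set (Fin k → ℤ) :=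
  {z | (∀ i', i' ≠ i → |z i'| ≤ (n : ℤ)) ∧ -(m : ℤ) ≤ z i ∧ z i ≤ 0}

/-- The window of width `n` and infinite depth. -/
def Wi (i : Fin k) (n : ℕ) : Set (Fin k → ℤ) :=
  {z | (∀ i', i' ≠ i → |z i'| ≤ (n : ℤ)) ∧ z i ≤ 0}

/-- The tube of width `n` and length `m`. -/
def Tb (i : Fin k) (n m : ℕ) : Set (Fin k → ℤ) :=
  {z | (∀ i', i' ≠ i → |z i'| ≤ (n : ℤ)) ∧ 0 ≤ z i ∧ z i ≤ (m : ℤ)}

/-- `f` and `h` are equivalent on `P`. -/
def Eqv (G : Type) [Group G] [MulAction G V] (P : Set (Fin k → ℤ)) (f h : (Fin k → ℤ) → V) : Prop :=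
  ∃ g : G, ∀ z ∈ P, g • f z = h z

/-- Half-space pairs: members of `L` which agree exactly on the half-space `z i ≤ 0`. -/
def HP (L : Set ((Fin k → ℤ) → V)) (i : Fin k) (h₁ h₂ : (Fin k → ℤ) → V) : Prop :=
  h₁ ∈ L ∧ h₂ ∈ L ∧ ∀ z, h₁ z = h₂ z ↔ z i ≤ 0

/-- There are `c` members of `L` which are pairwise inequivalent on `P`. -/
def Many (G : Type) [Group G] [MulAction G V] (L : Set ((Fin k → ℤ) → V)) (P : Set (Fin k → ℤ))
    (c : ℕ) : Prop :=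
  ∃ S : Finset ((Fin k → ℤ) → V), (∀ f ∈ S, f ∈ L) ∧ c ≤ S.card ∧
    ∀ f ∈ S, ∀ h ∈ S, f ≠ h → ¬ Eqv G P f h

/-- There are `c` half-space pairs which are pairwise inequivalent on `P`. -/
def ManyHP (G : Type) [Group G] [MulAction G V] (L : Set ((Fin k → ℤ) → V)) (i : Fin k)
    (P : Set (Fin k → ℤ)) (c : ℕ) : Prop :=
  ∃ T : Finset (((Fin k → ℤ) → V) × ((Fin k → ℤ) → V)), (∀ p ∈ T, HP L i p.1 p.2) ∧ c ≤ T.card ∧
    ∀ p ∈ T, ∀ q ∈ T, p ≠ q → ¬ Eqv G P p.1 q.1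

/-- An element which fixes a member of `L` on the cube of radius `n₀` fixes it everywhere. -/
def Fix0 (G : Type) [Group G] [MulAction G V] (L : Set ((Fin k → ℤ) → V)) (n₀ : ℕ) : Prop :=
  ∀ h ∈ L, ∀ g : G, (∀ z : Fin k → ℤ, (∀ i, |z i| ≤ (n₀ : ℤ)) → g • h z = h z) →
    ∀ z, g • h z = h z

/-- The first members of half-space pairs have finitely many types on the infinite window. -/
def Typ (G : Type) [Group G] [MulAction G V] (L : Set ((Fin k → ℤ) → V)) (i : Fin k) (n : ℕ)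
    (T : Finset ((Fin k → ℤ) → V)) : Prop :=
  (∀ τ ∈ T, τ ∈ L) ∧ ∀ h₁ h₂, HP L i h₁ h₂ → ∃ τ ∈ T, Eqv G (Wi i n) τ h₁

/-- `t` translates `h` by `-q e` on the slab `- p - M ≤ z i ≤ - p`. -/
def Slab {G : Type} [Group G] [MulAction G V] (i : Fin k) (p q M : ℕ) (h : (Fin k → ℤ) → V)
    (t : G) : Prop :=
  ∀ z : Fin k → ℤ, -(p : ℤ) - M ≤ z i → z i ≤ -(p : ℤ) → t • h z = h (z - Pi.single i (q : ℤ))

end

/-! ## A. exact agreement of flats of the maximal dimension -/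

/-- NEST (25 lines, uses GR with `N = 1`). `HS j'` and `HS j` (`j < j'`) cross the half-spaces
`HS Γ f i' 0` (`i' ≠ i`, `IsFlat.cross`), so they do not cross each other by GR (`A₀ = {HS j'}`,
`A₁ = {HS j}`). Three of the four intersections contain the points `f (j e)`, `f (j' e)`,
`f ((j' + 1) e)`, so the fourth one, `(HS j)ᶜ ∩ HS j'`, is empty. -/
def S_NEST : Prop := ∀ (V : Type) (Γ : SimpleGraph V), IsMedian Γ → ∀ k : ℕ, ¬ Grid Γ (k + 1) 1 →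
  ∀ f : (Fin k → ℤ) → V, IsFlat Γ f → ∀ (i : Fin k) (j j' : ℤ), j < j' →
    HS Γ f i j' ⊂ HS Γ f i j

/-- EQH (90 lines, uses GR, NEST).
(1) If `A = HS Γ f₁ i j`, `j ≥ 0`, is cut by `f₂` then `A = HS Γ f₂ i t` with `t ≥ 0`. By
`IsFlat.sep` (for `f₂`) `A` is `HS Γ f₂ i' t` or its complement. If `i' ≠ i` then `A` crosses
`HS Γ f₁ i' 0 = HS Γ f₂ i' 0` (as `A` is a half-space of `f₁` of the direction `i`) and
`HS Γ f₂ i'' 0` for `i'' ≠ i'` (as it is one of `f₂` of the direction `i'`); this contradicts GR for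
`f₂`, the direction `i'`, `A₀ = {A}`, `A₁ = {HS Γ f₂ i' 0}`, `N = 1`. So `i' = i`. Let `A = (HS Γ f₂ i t)ᶜ`.
As `f₂ 0 = f₁ 0 ∉ A` we have `t < 0`, and `f₂ (t e) ∈ A ⊆ HS Γ f₁ i 0 = HS Γ f₂ i 0` (NEST), a
contradiction. So `A = HS Γ f₂ i t`, and `t ≥ 0` as `f₂ 0 ∉ A`.
(2) For `0 ≤ l ≤ j` `HS Γ f₁ i l ⊇ A` (NEST) is cut by `f₂` as well (it does not contain
`f₂ 0 = f₁ 0`); by (1) it is `HS Γ f₂ i (ψ l)`, `ψ l ≥ 0`, `ψ` is strictly increasing (NEST), so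
`l ≤ ψ l`. It is cut by `f₁`, so (1) with `f₁`, `f₂` exchanged and the same argument give `ψ l ≤ l`. -/
def S_EQH : Prop := ∀ (V : Type) (Γ : SimpleGraph V), IsMedian Γ → ∀ k : ℕ, ¬ Grid Γ (k + 1) 1 →
  ∀ f₁ f₂ : (Fin k → ℤ) → V, IsFlat Γ f₁ → IsFlat Γ f₂ → Agree f₁ f₂ 1 → ∀ (i : Fin k) (j : ℤ),
    0 ≤ j → Cut (HS Γ f₁ i j) f₂ → ∀ l : ℤ, 0 ≤ l → l ≤ j → HS Γ f₁ i l = HS Γ f₂ i l

/-- EQV (100 lines, uses EQH for `f₁`, `f₂` and for `ng f₁`, `ng f₂`). If `f₁ z = f₂ w` and `0 ≤ l < z i`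
then `HS Γ f₁ i l` contains `f₁ z = f₂ w` and not `f₁ 0 = f₂ 0`, so it is cut by `f₂` and EQH applies;
for `l = z i - 1` this gives `z i ≤ w i`. In the same way for negative coordinates and with `f₁`,
`f₂` exchanged, so `z = w`. Conversely if `f₁ z ≠ f₂ z` take a half-space `A` with `f₁ z ∈ A`,
`f₂ z ∉ A` (`walls_sep`). If `f₁ 0 ∉ A` then by `IsFlat.sep` `A` is `HS Γ f₁ i l`, `0 ≤ l < z i`, or
`(HS Γ f₁ i l)ᶜ`, `z i ≤ l < 0`; it is the same half-space of `f₂` and contains `f₂ z`. If `f₁ 0 ∈ A`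
argue with `Aᶜ` and `f₂`. -/
def S_EQV : Prop := ∀ (V : Type) (Γ : SimpleGraph V), IsMedian Γ → ∀ k : ℕ, ¬ Grid Γ (k + 1) 1 →
  ∀ f₁ f₂ : (Fin k → ℤ) → V, IsFlat Γ f₁ → IsFlat Γ f₂ → Agree f₁ f₂ 1 → ∀ z w : Fin k → ℤ,
    f₁ z = f₂ w ↔ z = w ∧ ∀ (i : Fin k) (l : ℤ), ((0 ≤ l ∧ l < z i) ∨ (z i ≤ l ∧ l < 0)) →
      HS Γ f₁ i l = HS Γ f₂ i l

/-- CPT (100 lines). Compactness for pairs; compare `t_LIM` in `h590/QF/FAM.lean`, which uses
`cluster` there (for the countable index set `(Fin k → ℤ) × Bool`). Take `g n` with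
`g n • (F n).1 0 ∈ K`; limit of a subsequence. -/
def S_CPT : Prop := ∀ (V G : Type) [Group G] [MulAction G V] (Γ : SimpleGraph V), Act G Γ →
  ∀ (k : ℕ) (L : Set ((Fin k → ℤ) → V)), Sys G Γ L →
    ∀ F₁ F₂ : ℕ → (Fin k → ℤ) → V, (∀ n, F₁ n ∈ L) → (∀ n, F₂ n ∈ L) → (∀ n, F₁ n 0 = F₂ n 0) →
      ∃ h₁ ∈ L, ∃ h₂ ∈ L, ∀ R m : ℕ, ∃ n, m ≤ n ∧ ∃ g : G,
        Agree h₁ (fun z => g • F₁ n z) R ∧ Agree h₂ (fun z => g • F₂ n z) R

/-- HPP (100 lines, uses EQV, CPT). For `R = n + 1` there are `f₁`, `f₂ ∈ L` with `Agree f₁ f₂ R` and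
`Bdd Γ i f₁ f₂`. If `f₁ (t e) = f₂ (t e)` for all `t ≥ 0` then all `HS Γ f₁ i j`, `j ≥ 0`, would be
cut by `f₂`. Let `t` be the smallest number `≥ 0` with `f₁ (t e) ≠ f₂ (t e)`, so `t > R`;
`F₁ = f₁ (· + (t - 1) e)`, `F₂ = f₂ (· + (t - 1) e)` agree for `|z i'| ≤ R`, `- R ≤ z i ≤ 0` (by EQV
for `f₁`, `f₂`) and `F₁ e ≠ F₂ e`. A limit (CPT) is a pair `h₁`, `h₂` which agrees for `z i ≤ 0`, and
`h₁ e ≠ h₂ e`. If `z i > 0` then `h₁ z ≠ h₂ z` by EQV for `h₁ (· - e)`, `h₂ (· - e)`. -/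
def S_HPP : Prop := ∀ (V G : Type) [Group G] [MulAction G V] (Γ : SimpleGraph V), Act G Γ →
  ∀ k : ℕ, ¬ Grid Γ (k + 1) 1 → ∀ L : Set ((Fin k → ℤ) → V), Sys G Γ L → ∀ i : Fin k,
    (∀ R, ¬ Det Γ L i R) → ∃ h₁ h₂, HP L i h₁ h₂

/-- BXF (120 lines, uses EQV, EQH and `t_ORB`, `t_MIN`, `t_DET`, `t_NEG`, `t_COPY` as in
`h230/QF/MAIN.lean`). Let `f₁`, `f₂` be a pair of COPY for `max R 1`. The numbers `t ≥ 0` with
`f₁ (t e) = f₂ (t e)` are an interval (EQV), it contains `R` and it is bounded, since otherwise all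
`HS Γ f₁ i j`, `j ≥ 0`, are cut by `f₂`. `b i` is its maximum; `a i` in the same way with `ng`. Now
use EQV. -/
def S_BXF : Prop := ∀ (V G : Type) [Group G] [MulAction G V] (Γ : SimpleGraph V), Act G Γ →
  NoZ2 G → ∀ k : ℕ, 2 ≤ k → ¬ Grid Γ (k + 1) 1 → ∀ f : (Fin k → ℤ) → V, IsFlat Γ f → ∀ R : ℕ,
    ∃ h₁ ∈ Orb G f, ∃ h₂ ∈ Orb G f, h₁ ∈ Orb G h₂ ∧ h₂ ∈ Orb G h₁ ∧ IsFlat Γ h₁ ∧ IsFlat Γ h₂ ∧
      ∃ a b : Fin k → ℤ, (∀ i, a i ≤ -(R : ℤ) ∧ (R : ℤ) ≤ b i) ∧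
        ∀ z w : Fin k → ℤ, h₁ z = h₂ w ↔ z = w ∧ ∀ i, a i ≤ z i ∧ z i ≤ b i

/-! ## B. counting -/

/-- FIX (80 lines, uses `t_REC`). Let `F h = {g | ∀ z, g • h z = h z}`, a finite subgroup. Choose
`h₀ ∈ L` with the minimal number of elements of `F h₀`. As `F h₀` is the decreasing intersection of
the finite stabilisers of the cubes there is `n₁` such that an element which fixes `h₀` on the cube of
radius `n₁` is in `F h₀`. Let `ρ` be as in REC for `n₁`, `n₀ = ρ + n₁`. If `g' • h₀ z = h (z + b)` on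
the cube of radius `n₁`, `|b| ≤ ρ`, and `g` fixes `h` on the cube of radius `n₀`, then
`g'⁻¹ g g' ∈ F h₀`; these `g` are a finite set with at most `|F h₀| ≤ |F h|` elements which
contains `F h`, so it is `F h`. -/
def S_FIX : Prop := ∀ (V G : Type) [Group G] [MulAction G V] (Γ : SimpleGraph V), Act G Γ →
  ∀ (k : ℕ) (L : Set ((Fin k → ℤ) → V)), IsMin G Γ L → L.Nonempty → ∃ n₀ : ℕ, Fix0 G L n₀

/-- STEP (120 lines). Let `S` (`c` elements) be inequivalent on `Tb i n m`, and `T` (`s` pairs) as in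
`ManyHP`. For `p ∈ T` let `A p = p.1 (· - m e)`, `B p = p.2 (· - m e)`. They are equal on `Tb i n m`,
and for different `p` inequivalent there. They are inequivalent on `Tb i n (m + 1)`: otherwise `g`
maps `p.1` to `p.2` on the window with `- m ≤ z i ≤ 1`, so it fixes `p.1` on `Wd i n m`, which
contains the cube of radius `n₀` around `- n₀ e`, so it fixes `p.1` everywhere (`Fix0` for
`p.1 (· - n₀ e)`), but `p.1 e ≠ p.2 e`. Let `S₀` be the set of the `f ∈ S` which are equivalent to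
no `A p` on `Tb i n m`: it has at least `c - s` elements (each `A p` is equivalent to at most one
`f ∈ S`). The members of `S₀`, the `A p` and the `B p` are `(c - s) + s + s` elements, pairwise
inequivalent on `Tb i n (m + 1)`. (`Eqv` is an equivalence relation.) -/
def S_STEP : Prop := ∀ (V G : Type) [Group G] [MulAction G V] (Γ : SimpleGraph V), Act G Γ →
  ∀ (k : ℕ) (L : Set ((Fin k → ℤ) → V)), Sys G Γ L → ∀ (i : Fin k) (n₀ n m c s : ℕ),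
    Fix0 G L n₀ → n₀ ≤ n → 2 * n₀ ≤ m → Many G L (Tb i n m) c → ManyHP G L i (Wd i n m) s →
      Many G L (Tb i n (m + 1)) (c + s)

/-- SUP (50 lines, uses STEP). `ManyHP` is monotone in the depth `m`. With `s = C + 1` and
`m₁ = max (2 n₀) m(s)` induction gives `Many` with `(m - m₁) * (C + 1)` for `m ≥ m₁`, and this is at
least `C * m` for `m ≥ (C + 1) * m₁`. -/
def S_SUP : Prop := ∀ (V G : Type) [Group G] [MulAction G V] (Γ : SimpleGraph V), Act G Γ →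
  ∀ (k : ℕ) (L : Set ((Fin k → ℤ) → V)), Sys G Γ L → ∀ (i : Fin k) (n₀ n : ℕ),
    Fix0 G L n₀ → n₀ ≤ n → (∀ s, ∃ m, ManyHP G L i (Wd i n m) s) →
      ∀ C : ℕ, ∃ m₀ : ℕ, ∀ m, m₀ ≤ m → Many G L (Tb i n m) (C * m)

/-- TRF (50 lines). For `h ∈ S` choose `g`, `b` with `Agree h (fun z => g • f (z + b)) (n + m)`. The
map `h ↦ b` is injective on `S`; take its image. -/
def S_TRF : Prop := ∀ (V G : Type) [Group G] [MulAction G V] (k : ℕ) (f : (Fin k → ℤ) → V)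
  (L : Set ((Fin k → ℤ) → V)), L ⊆ Orb G f → ∀ (i : Fin k) (n m c : ℕ),
    Many G L (Tb i n m) c → ∃ S : Finset (Fin k → ℤ), c ≤ S.card ∧ ∀ x ∈ S, ∀ y ∈ S, x ≠ y →
      ¬ ∃ g : G, ∀ z ∈ Tb i n m, g • f (x + z) = f (y + z)

/-! ## C. few windows give `ℤ²` -/

/-- TYP (90 lines). Let `U` be a finite set of half-space pairs whose first members are pairwise
inequivalent on `Wi i n`. Then for some `m` they are inequivalent on `Wd i n m`: if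
`g m • p.1 z = q.1 z` on `Wd i n m` for all `m`, then the `g m` are in the finite set
`{g | g • p.1 0 = q.1 0}` (`Act.stab`), so one of them occurs for infinitely many `m` and shows
`Eqv G (Wi i n) p.1 q.1`. So `U` has at most `S` elements; take `U` with the maximal number of
elements, and `T` the image of `U` under `Prod.fst`. -/
def S_TYP : Prop := ∀ (V G : Type) [Group G] [MulAction G V] (Γ : SimpleGraph V), Act G Γ →
  ∀ (k : ℕ) (L : Set ((Fin k → ℤ) → V)) (i : Fin k) (n S : ℕ),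
    (∀ m, ¬ ManyHP G L i (Wd i n m) (S + 1)) → ∃ T : Finset ((Fin k → ℤ) → V), Typ G L i n T

/-- DEP (80 lines, uses `t_PIG`). By induction on the finite set `T` (PIG for the points `- e' a`,
where `a` runs through an infinite set of numbers in increasing order, e.g. `Nat.nth` or
`Nat.orderEmbeddingOfSet`): every infinite set `J ⊆ ℕ` has an infinite subset `I` such that for all
`τ ∈ T`, `a, b ∈ I` some `g` maps `τ (z - a e)` to `τ (z - b e)` for all `z` in the cube of radius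
`n + M`. Take `a < b` in `I`, `p = a`, `q = b - a`. -/
def S_DEP : Prop := ∀ (V G : Type) [Group G] [MulAction G V] (Γ : SimpleGraph V), Act G Γ →
  ∀ (k : ℕ) (T : Finset ((Fin k → ℤ) → V)), (∀ τ ∈ T, IsFlat Γ τ) → ∀ (i : Fin k) (n M : ℕ),
    ∃ p q : ℕ, 0 < q ∧ ∀ τ ∈ T, ∃ g : G, ∀ z : Fin k → ℤ, (∀ i', i' ≠ i → |z i'| ≤ (n : ℤ)) →
      -(p : ℤ) - M ≤ z i → z i ≤ -(p : ℤ) → g • τ z = τ (z - Pi.single i (q : ℤ))

/-- SLB (120 lines). For `x` with `x i = 0` the pair `h₁ (· + x)`, `h₂ (· + x)` is a half-space pair,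
so `g' • τ z = h₁ (z + x)` on `Wi i n` for some `τ ∈ T`, and with `g` as in the hypothesis
`t x = g' * g * g'⁻¹` maps `h₁ (z + x)` to `h₁ (z + x - q e)` for `|z i'| ≤ n` (`i' ≠ i`),
`- p - M ≤ z i ≤ - p`. If `x'` is a neighbour of `x` (they differ by one in one coordinate) then
`(t x)⁻¹ * t x'` fixes `h₁` on the cube of radius `n₀` around `x - (p + n₀) e`, so it fixes `h₁`
everywhere (`Fix0` for a shift of `h₁`). By induction `t x • h₁ z = t 0 • h₁ z` for all `x`, `z`. So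
`t = t 0` has the property. -/
def S_SLB : Prop := ∀ (V G : Type) [Group G] [MulAction G V] (Γ : SimpleGraph V), Act G Γ →
  ∀ (k : ℕ) (L : Set ((Fin k → ℤ) → V)), Sys G Γ L → ∀ (i : Fin k) (n₀ n : ℕ), Fix0 G L n₀ →
    n₀ + 1 ≤ n → ∀ T : Finset ((Fin k → ℤ) → V), Typ G L i n T → ∀ p q M : ℕ, 2 * n₀ ≤ M →
      (∀ τ ∈ T, ∃ g : G, ∀ z : Fin k → ℤ, (∀ i', i' ≠ i → |z i'| ≤ (n : ℤ)) →
        -(p : ℤ) - M ≤ z i → z i ≤ -(p : ℤ) → g • τ z = τ (z - Pi.single i (q : ℤ))) →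
      ∀ h₁ h₂, HP L i h₁ h₂ → ∃ t : G, Slab i p q M h₁ t

/-- HOR (40 lines). The pairs `h₁ (· + r e₂)`, `h₂ (· + r e₂)`, `r : ℕ`, are half-space pairs (`e₂` the
unit vector of the direction `i₂ ≠ i`), so two of them have the same type in the finite set `T`. -/
def S_HOR : Prop := ∀ (V G : Type) [Group G] [MulAction G V] (Γ : SimpleGraph V), Act G Γ →
  ∀ (k : ℕ) (L : Set ((Fin k → ℤ) → V)), Sys G Γ L → ∀ (i i₂ : Fin k), i₂ ≠ i → ∀ (n : ℕ)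
    (T : Finset ((Fin k → ℤ) → V)), Typ G L i n T → ∀ h₁ h₂, HP L i h₁ h₂ →
      ∃ (r₁ r₂ : ℕ) (g : G), r₁ < r₂ ∧ ∀ z ∈ Wi i n,
        g • h₁ (z + Pi.single i₂ (r₁ : ℤ)) = h₁ (z + Pi.single i₂ (r₂ : ℤ))

/-- GRP (40 lines). Induction: for `b ≥ 1` there is `u b ∈ F` with `t⁻¹ ^ b * g * t ^ b = g * u b`. By
the pigeonhole principle `u b = u b'` for some `b < b'`; `c = b' - b`. -/
def S_GRP : Prop := ∀ (G : Type) [Group G] (F : Set G), F.Finite → (∀ u ∈ F, ∀ v ∈ F, u * v ∈ F) →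
  ∀ t g : G, (∀ u ∈ F, t⁻¹ * u * t ∈ F) → (t * g)⁻¹ * (g * t) ∈ F →
    ∃ c : ℕ, 0 < c ∧ t ^ c * g = g * t ^ c

/-- ZZ (50 lines). `(x, y) ↦ a ^ x * b ^ y` is a homomorphism. If `a ^ x * b ^ y = 1` then
`b ^ y • A = A`, so `y = 0` (strict inclusions); then `a ^ x • B = B`, so `x = 0`. Compare the end
of `h228/QF/DET.lean`. -/
def S_ZZ : Prop := ∀ (V G : Type) [Group G] [MulAction G V] (A B : Set V) (a b : G),
  a * b = b * a → a • A = A → b • A ⊂ A → B ⊂ a • B → ¬ NoZ2 G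

/-- WSL (60 lines, uses NEST). By `IsFlat.HS_smul` and `IsFlat.HS_congr` (for `fun z => t • f z` and
`f`) `t • HS Γ f i₂ j = HS Γ f i₂ j` (at the point `j e₂ - p e`) and, at the point `-(p + 1) e`,
`t • HS Γ f i (- p - 1) = HS Γ f i (- p - 1 - q)`. Now NEST. -/
def S_WSL : Prop := ∀ (V G : Type) [Group G] [MulAction G V] (Γ : SimpleGraph V), Act G Γ →
  ∀ k : ℕ, ¬ Grid Γ (k + 1) 1 → ∀ f : (Fin k → ℤ) → V, IsFlat Γ f → ∀ (i i₂ : Fin k), i₂ ≠ i →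
    ∀ (p q M : ℕ) (t : G), 1 ≤ M → 0 < q → Slab i p q M f t →
      (∀ j : ℤ, t • HS Γ f i₂ j = HS Γ f i₂ j) ∧
        HS Γ f i (-(p : ℤ) - 1) ⊂ t • HS Γ f i (-(p : ℤ) - 1)

/-- END (120 lines, uses NEST, GRP, ZZ, WSL). `F = {u | ∀ z, u • h z = h z}` is finite. For `u ∈ F`
`t⁻¹ * u * t` fixes `h z` for `z` in the slab, hence a cube of radius `n₀` (around `-(p + n₀) e`), so
it is in `F` (`Fix0` for a shift). For `y = z + r₁ e₂`, `z ∈ Wi i n`, `- p - M ≤ z i ≤ - p`: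
`(t * g) • h y = t • h (z + r₂ e₂) = h (z + r₂ e₂ - q e) = g • h (y - q e) = (g * t) • h y`, so
`(t * g)⁻¹ * (g * t) ∈ F` (cube of radius `n₀` around `r₁ e₂ - (p + n₀) e`). GRP gives `c > 0` such
that `a = t ^ c` commutes with `g`. ZZ with `b = g`, `A = HS Γ h i₂ r₁`: `g • A = HS Γ h i₂ r₂ ⊂ A`
(`HS_smul`, `HS_congr`, NEST), `a • A = A` and `B ⊂ a • B` for `B = HS Γ h i (- p - 1)` (WSL). -/
def S_END : Prop := ∀ (V G : Type) [Group G] [MulAction G V] (Γ : SimpleGraph V), Act G Γ →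
  ∀ k : ℕ, ¬ Grid Γ (k + 1) 1 → ∀ L : Set ((Fin k → ℤ) → V), Sys G Γ L → ∀ (i i₂ : Fin k),
    i₂ ≠ i → ∀ n₀ n : ℕ, Fix0 G L n₀ → n₀ + 1 ≤ n → ∀ h ∈ L, ∀ (p q M r₁ r₂ : ℕ) (t g : G),
      2 * n₀ + 1 ≤ M → 0 < q → Slab i p q M h t → r₁ < r₂ →
      (∀ z ∈ Wi i n, g • h (z + Pi.single i₂ (r₁ : ℤ)) = h (z + Pi.single i₂ (r₂ : ℤ))) →
        ¬ NoZ2 G

/-- UNB (60 lines, uses HPP, TYP, DEP, SLB, HOR, END and `S_DET`). If `ManyHP` fails for `s` and all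
`m` then (`s > 0`) TYP applies; `M = 2 n₀ + 1`; a half-space pair exists by HPP and DET. -/
def S_UNB : Prop := ∀ (V G : Type) [Group G] [MulAction G V] (Γ : SimpleGraph V), Act G Γ →
  NoZ2 G → ∀ k : ℕ, 2 ≤ k → ¬ Grid Γ (k + 1) 1 → ∀ L : Set ((Fin k → ℤ) → V), Sys G Γ L →
    L.Nonempty → ∀ (i : Fin k) (n₀ n : ℕ), Fix0 G L n₀ → n₀ + 1 ≤ n →
      ∀ s, ∃ m, ManyHP G L i (Wd i n m) s

/-- TUBE (40 lines, uses UNB, SUP, TRF, FIX and `S_ORB`, `S_MIN`). -/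
def S_TUBE : Prop := ∀ (V G : Type) [Group G] [MulAction G V] (Γ : SimpleGraph V), Act G Γ →
  NoZ2 G → ∀ k : ℕ, 2 ≤ k → ¬ Grid Γ (k + 1) 1 → ∀ f : (Fin k → ℤ) → V, IsFlat Γ f →
    ∃ n₀ : ℕ, ∀ (i : Fin k) (n : ℕ), n₀ ≤ n → ∀ C : ℕ, ∃ m₀ : ℕ, ∀ m, m₀ ≤ m →
      ∃ S : Finset (Fin k → ℤ), C * m ≤ S.card ∧ ∀ x ∈ S, ∀ y ∈ S, x ≠ y →
        ¬ ∃ g : G, ∀ z ∈ Tb i n m, g • f (x + z) = f (y + z)

end Pool.Agent.Run7.h230.QF
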