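import Pool.Agent.Run7.h230.QF.Stm2

/-! # Pieces UNB and TUBE of project QF (phase 2) -/

set_option autoImplicit false

namespace Pool.Agent.Run7.h230.QF

open Pool.Agent.H97R3.VR (IsMedian)

theorem t_UNB (hHPP : S_HPP) (hTYP : S_TYP) (hDEP : S_DEP) (hSLB : S_SLB) (hHOR : S_HOR)
    (hEND : S_END) (hDET : S_DET) : S_UNB := by
  intro V G _ _ Γ hA hZ k hk hG L hL hne i n₀ n hF hn s
  by_contra hcon
  have hcon' : ∀ m, ¬ ManyHP G L i (Wd i n m) s := fun m h => hcon ⟨m, h⟩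
  obtain ⟨S, rfl⟩ : ∃ S, s = S + 1 := by
    refine Nat.exists_eq_succ_of_ne_zero fun h0 => hcon' 0 ?_
    subst h0
    exact ⟨∅, by simp, by simp, by simp⟩
  obtain ⟨T, hT⟩ := hTYP V G Γ hA k L i n S hcon'
  obtain ⟨p, q, hq, hpq⟩ := hDEP V G Γ hA k T (fun τ hτ => hL.flat τ (hT.1 τ hτ)) i n (2 * n₀ + 1)
  obtain ⟨h₁, h₂, hp⟩ := hHPP V G Γ hA k hG L hL i (fun R =>
    hDET V G Γ hA hZ k 1 hk hG L hL hne i R)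
  obtain ⟨t, ht⟩ := hSLB V G Γ hA k L hL i n₀ n hF hn T hT p q (2 * n₀ + 1) (by omega) hpq
    h₁ h₂ hp
  obtain ⟨i₂, hi₂⟩ : ∃ i₂ : Fin k, i₂ ≠ i := by
    have : Nontrivial (Fin k) := Fin.nontrivial_iff_two_le.2 hk
    exact exists_ne i
  obtain ⟨r₁, r₂, g, hr, hg⟩ := hHOR V G Γ hA k L hL i i₂ hi₂ n T hT h₁ h₂ hp
  exact hEND V G Γ hA k hG L hL i i₂ hi₂ n₀ n hF hn h₁ hp.1 p q (2 * n₀ + 1) r₁ r₂ t g le_rfl hq ht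
    hr hg hZ

theorem t_TUBE (hUNB : S_UNB) (hSUP : S_SUP) (hTRF : S_TRF) (hFIX : S_FIX) (hORB : S_ORB)
    (hMIN : S_MIN) : S_TUBE := by
  intro V G _ _ Γ hA hZ k hk hG f hf
  obtain ⟨hO, hfO⟩ := hORB V G Γ hA k f hf
  obtain ⟨L, hLO, hL, hne⟩ := hMIN V G Γ hA k (Orb G f) hO ⟨f, hfO⟩
  obtain ⟨n₀, hn₀⟩ := hFIX V G Γ hA k L hL hne
  refine ⟨n₀ + 1, fun i n hn C => ?_⟩
  obtain ⟨m₀, hm₀⟩ := hSUP V G Γ hA k L hL.sys i n₀ n hn₀ (by omega)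
    (hUNB V G Γ hA hZ k hk hG L hL.sys hne i n₀ n hn₀ hn) C
  exact ⟨m₀, fun m hm => hTRF V G k f L hLO i n m _ (hm₀ m hm)⟩

end Pool.Agent.Run7.h230.QF
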